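import Pool.Agent.TFN.Defs

set_option autoImplicit false

/-!
# TFN-Br: the numbers `[d]_y`

Recursions of `[d]_y = 1 + y + ... + y^(d-1)`, its bounds `0 ≤ [d]_y ≤ 1` for `-1 < y < 0`, and the
bounds of the acceptance probabilities and payoffs.
-/

namespace Pool.Agent.TFN

open Finset Pool.Agent.TFP

theorem br_zero (y : ℚ) : br y 0 = 0 := by
  simp [br]

theorem br_succ (y : ℚ) (d : ℕ) : br y (d + 1) = br y d + y ^ d := by
  unfold br
  rw [Finset.sum_range_succ]

theorem br_succ' (y : ℚ) (d : ℕ) : br y (d + 1) = 1 + y * br y d := by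
  induction d with
  | zero => simp [br]
  | succ d ih =>
    have h := br_succ y d
    rw [br_succ y (d + 1), pow_succ]
    linear_combination ih - y * h

theorem br_geom (y : ℚ) (d : ℕ) : (y - 1) * br y d = y ^ d - 1 := by
  induction d with
  | zero => simp [br]
  | succ d ih =>
    rw [br_succ, mul_add, ih]
    ring

theorem br_mem {y : ℚ} (hy0 : -1 < y) (hy1 : y < 0) (d : ℕ) : 0 ≤ br y d ∧ br y d ≤ 1 := by
  induction d with
  | zero => simp [br]
  | succ d ih =>
    rw [br_succ']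
    obtain ⟨h1, h2⟩ := ih
    constructor
    · nlinarith
    · nlinarith

theorem gK_mem {y : ℚ} (hy0 : -1 < y) (hy1 : y < 0) (v : ℕ) (K : Finset ℕ) (G : Finset Ed) :
    0 ≤ gK y v K G ∧ gK y v K G ≤ 1 := by
  unfold gK
  obtain ⟨h1, h2⟩ := br_mem hy0 hy1 (btw v K G).card
  split_ifs with h
  · exact ⟨le_refl 0, zero_le_one⟩
  · constructor <;> linarith

theorem pK_mem {lam y : ℚ} (hl : 0 < lam) (hy0 : -1 < y) (hy1 : y < 0) (v : ℕ) (K : Finset ℕ)
    (G : Finset Ed) : 0 ≤ pK lam y v K G ∧ pK lam y v K G ≤ 1 + lam := by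
  unfold pK
  obtain ⟨h1, h2⟩ := br_mem hy0 hy1 ((btw v K G).card + 1)
  split_ifs with h
  · exact ⟨le_refl 0, by linarith⟩
  · constructor <;> nlinarith

theorem pK_ge {lam y : ℚ} (hl : 0 < lam) (hy0 : -1 < y) (hy1 : y < 0) {v : ℕ} {K : Finset ℕ}
    (hv : v ∉ K) (G : Finset Ed) : 1 ≤ pK lam y v K G := by
  unfold pK
  obtain ⟨h1, h2⟩ := br_mem hy0 hy1 ((btw v K G).card + 1)
  rw [if_neg hv]
  nlinarith

end Pool.Agent.TFN
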