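import Pool.Agent.TFN.CRec
import Pool.Agent.TFN.Br
import Pool.Agent.TFP.CPos

set_option autoImplicit false

/-!
# TFN-CPos: positivity of `cc` for `-1 < y < 0`

Plan. Strong induction on `|S|`. `|S| = 1`: `cc_single`. Otherwise take `u ≠ v` in `S` and `cc_rec2` with `β = y - 1`:
`y^d - 1 = β * br y d` (`br_geom`), so after division by `β^(|S|-1)`, `|S| - 1 = 1 + (|K|-1) + (|S \ K|-1)`, every term is
`(cc K / β^(|K|-1)) * br y d * (cc (S \ K) / β^(|S \ K|-1)) ≥ 0` (`br_mem`; `K`, `S \ K` are nonempty and smaller than `S`).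
-/

namespace Pool.Agent.TFN

open Finset Pool.Agent.TFP

private theorem ncc_aux {y : ℚ} (hy0 : -1 < y) (hy1 : y < 0) {G : Finset Ed} (hG : NL G) (n : ℕ) :
    ∀ {S : Finset ℕ}, S.card = n → S.Nonempty →
      0 ≤ cc (y - 1) S G / (y - 1) ^ (S.card - 1) := by
  induction n using Nat.strong_induction_on with
  | _ n ih =>
  intro S hn hS
  obtain ⟨v, hv⟩ := hS
  by_cases hSv : S = {v}
  · rw [hSv, cc_single (y - 1) hG v]
    simp
  · obtain ⟨u, huS, huv⟩ : ∃ u ∈ S, u ≠ v := by
      by_contra hcon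
      push Not at hcon
      exact hSv (Finset.eq_singleton_iff_unique_mem.mpr ⟨hv, hcon⟩)
    have hβ : (y - 1) ≠ 0 := by
      intro h0
      linarith
    rw [cc_rec2 (y - 1) huv.symm hv huS, Finset.sum_div]
    apply Finset.sum_nonneg
    intro K hK
    rw [Finset.mem_filter, Finset.mem_powerset] at hK
    obtain ⟨hKS, huK, hvK⟩ := hK
    have hKne : K.Nonempty := ⟨u, huK⟩
    have hSne : (S \ K).Nonempty := ⟨v, Finset.mem_sdiff.mpr ⟨hv, hvK⟩⟩
    have hcard : (S \ K).card + K.card = S.card := Finset.card_sdiff_add_card_eq_card hKS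
    have hk1 : 0 < K.card := hKne.card_pos
    have hk2 : 0 < (S \ K).card := hSne.card_pos
    have hexp : S.card - 1 = 1 + ((K.card - 1) + ((S \ K).card - 1)) := by omega
    have hy : (1 : ℚ) + (y - 1) = y := by ring
    have hbr : y ^ (btw v K G).card - 1 = (y - 1) * br y (btw v K G).card :=
      (br_geom y (btw v K G).card).symm
    rw [hexp, pow_add, pow_add, pow_one, hy, hbr]
    have h1 := ih K.card (by omega) rfl hKne
    have h2 := ih (S \ K).card (by omega) rfl hSne
    have h3 : cc (y - 1) K G * ((y - 1) * br y (btw v K G).card) * cc (y - 1) (S \ K) G /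
        ((y - 1) * ((y - 1) ^ (K.card - 1) * (y - 1) ^ ((S \ K).card - 1))) =
        (cc (y - 1) K G / (y - 1) ^ (K.card - 1)) * br y (btw v K G).card *
          (cc (y - 1) (S \ K) G / (y - 1) ^ ((S \ K).card - 1)) := by
      have e1 : cc (y - 1) K G * ((y - 1) * br y (btw v K G).card) * cc (y - 1) (S \ K) G =
          (y - 1) * (cc (y - 1) K G * br y (btw v K G).card * cc (y - 1) (S \ K) G) := by ring
      rw [e1, mul_div_mul_left _ _ hβ, div_mul_eq_mul_div, div_mul_div_comm]
    rw [h3]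
    exact mul_nonneg (mul_nonneg h1 (br_mem hy0 hy1 _).1) h2

theorem cc_nonneg {y : ℚ} (hy0 : -1 < y) (hy1 : y < 0) {G : Finset Ed} (hG : NL G) {S : Finset ℕ}
    (hS : S.Nonempty) : 0 ≤ cc (y - 1) S G / (y - 1) ^ (S.card - 1) :=
  ncc_aux hy0 hy1 hG S.card rfl hS

end Pool.Agent.TFN
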