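import Pool.Agent.TFN.Defs
import Pool.Agent.TFP.RecA
import Pool.Agent.TFP.RecB

set_option autoImplicit false

/-!
# TFN-CRec: decomposition of the connected generating function at two vertices

The connected edge sets `A` of `S` are decomposed according to the component `K` of `u` in the edges not at `v`
(`recA`, `recB` of TFP); the set of the edges of `A` between `v` and `K` is not empty (`btw_ne`).
-/

namespace Pool.Agent.TFN

open Finset Pool.Agent.TFP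

private theorem mem_ins {S : Finset ℕ} {G : Finset Ed} {f : Ed} :
    f ∈ ins S G ↔ f ∈ G ∧ f.2.1 ∈ S ∧ f.2.2 ∈ S := by
  unfold ins
  rw [Finset.mem_filter]

private theorem mem_btw {v : ℕ} {K : Finset ℕ} {G : Finset Ed} {f : Ed} :
    f ∈ btw v K G ↔ f ∈ G ∧ ((f.2.1 = v ∧ f.2.2 ∈ K) ∨ (f.2.2 = v ∧ f.2.1 ∈ K)) := by
  unfold Pool.Agent.TFP.btw
  rw [Finset.mem_filter]

private theorem ins_mono {S : Finset ℕ} {A G : Finset Ed} (h : A ⊆ G) : ins S A ⊆ ins S G := by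
  intro f hf
  rw [mem_ins] at hf ⊢
  exact ⟨h hf.1, hf.2⟩

private theorem btw_mono {v : ℕ} {K : Finset ℕ} {A G : Finset Ed} (h : A ⊆ G) :
    btw v K A ⊆ btw v K G := by
  intro f hf
  rw [mem_btw] at hf ⊢
  exact ⟨h hf.1, hf.2⟩

private theorem card_three {A1 J A2 : Finset Ed} {v : ℕ} {S K : Finset ℕ} (hvK : v ∉ K)
    (h1 : ∀ f ∈ A1, f.2.1 ∈ K ∧ f.2.2 ∈ K)
    (hJ' : ∀ f ∈ J, (f.2.1 = v ∧ f.2.2 ∈ K) ∨ (f.2.2 = v ∧ f.2.1 ∈ K))
    (h2 : ∀ f ∈ A2, f.2.1 ∈ S \ K ∧ f.2.2 ∈ S \ K) :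
    (A1 ∪ (J ∪ A2)).card = A1.card + (J.card + A2.card) := by
  rw [Finset.card_union_of_disjoint, Finset.card_union_of_disjoint]
  · rw [Finset.disjoint_left]
    intro f hf hf2
    obtain ⟨k1, k2⟩ := h2 f hf2
    rw [Finset.mem_sdiff] at k1 k2
    rcases hJ' f hf with ⟨-, k⟩ | ⟨-, k⟩
    · exact k2.2 k
    · exact k1.2 k
  · rw [Finset.disjoint_left]
    intro f hf hf2
    obtain ⟨k1, k2⟩ := h1 f hf
    rcases Finset.mem_union.1 hf2 with h3 | h3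
    · rcases hJ' f h3 with ⟨k, -⟩ | ⟨k, -⟩
      · rw [k] at k1
        exact hvK k1
      · rw [k] at k2
        exact hvK k2
    · obtain ⟨k3, -⟩ := h2 f h3
      rw [Finset.mem_sdiff] at k3
      exact k3.2 k1

private theorem btw_ne {S K : Finset ℕ} {A : Finset Ed} {v u : ℕ} (hv : v ∈ S) (hu : u ∈ S)
    (huK : u ∈ K) (hvK : v ∉ K) (hc : ConnOn A S)
    (hA : ins K A ∪ (btw v K A ∪ ins (S \ K) A) = A) : btw v K A ≠ ∅ := by
  intro h0
  have key : ∀ w, Rch A u w → w ∈ K := by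
    intro w hw
    induction hw with
    | refl => exact huK
    | @tail b c _ hbc ih =>
      obtain ⟨f, hf, hJf⟩ := hbc
      rw [← hA, h0, Finset.empty_union] at hf
      rcases Finset.mem_union.1 hf with h1 | h1
      · obtain ⟨-, h2, h3⟩ := mem_ins.1 h1
        rcases hJf with ⟨-, h5⟩ | ⟨h4, -⟩
        · rw [← h5]
          exact h3
        · rw [← h4]
          exact h2
      · obtain ⟨-, h2, h3⟩ := mem_ins.1 h1
        rw [Finset.mem_sdiff] at h2 h3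
        rcases hJf with ⟨h4, -⟩ | ⟨-, h5⟩
        · rw [← h4] at ih
          exact absurd ih h2.2
        · rw [← h5] at ih
          exact absurd ih h3.2
  exact hvK (key v (hc u hu v hv))

private theorem recA' {A : Finset Ed} {v u : ℕ} {S K : Finset ℕ} (hvu : v ≠ u)
    (hv : v ∈ S) (hu : u ∈ S) (hA : ∀ f ∈ A, f.2.1 ∈ S ∧ f.2.2 ∈ S) (hc : ConnOn A S)
    (hK : comp (A.filter fun f => f.2.1 ≠ v ∧ f.2.2 ≠ v) u = K) :
    u ∈ K ∧ v ∉ K ∧ K ⊆ S ∧ ins K A ∪ (btw v K A ∪ ins (S \ K) A) = A ∧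
      ConnOn (ins K A) K ∧ ConnOn (ins (S \ K) A) (S \ K) ∧ btw v K A ≠ ∅ := by
  have hc' : ConnOn (insert (0, (v, u)) A) S := fun a ha b hb =>
    Rch.mono (Finset.subset_insert _ _) (hc a ha b hb)
  obtain ⟨h1, h2, h3, h4, h5, h6⟩ := recA (e := (0, (v, u))) hvu (Or.inl ⟨rfl, rfl⟩) hv hu hA hc' hK
  exact ⟨h1, h2, h3, h4, h5, h6, btw_ne hv hu h1 h2 hc h4⟩

private theorem recB' {A1 J A2 : Finset Ed} {v u : ℕ} {S K : Finset ℕ}
    (hv : v ∈ S) (hK : K ⊆ S) (huK : u ∈ K) (hvK : v ∉ K)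
    (h1 : ∀ f ∈ A1, f.2.1 ∈ K ∧ f.2.2 ∈ K) (hc1 : ConnOn A1 K)
    (hJ' : ∀ f ∈ J, (f.2.1 = v ∧ f.2.2 ∈ K) ∨ (f.2.2 = v ∧ f.2.1 ∈ K)) (hJ : J ≠ ∅)
    (h2 : ∀ f ∈ A2, f.2.1 ∈ S \ K ∧ f.2.2 ∈ S \ K) (hc2 : ConnOn A2 (S \ K)) :
    ConnOn (A1 ∪ (J ∪ A2)) S ∧
      comp ((A1 ∪ (J ∪ A2)).filter fun f => f.2.1 ≠ v ∧ f.2.2 ≠ v) u = K ∧
      ins K (A1 ∪ (J ∪ A2)) = A1 ∧ btw v K (A1 ∪ (J ∪ A2)) = J ∧
      ins (S \ K) (A1 ∪ (J ∪ A2)) = A2 := by
  obtain ⟨e, he⟩ := Finset.nonempty_iff_ne_empty.2 hJ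
  obtain ⟨w, hw, hJn⟩ : ∃ w ∈ K, Jn e v w := by
    rcases hJ' e he with ⟨h3, h4⟩ | ⟨h3, h4⟩
    · exact ⟨e.2.2, h4, Or.inl ⟨h3, rfl⟩⟩
    · exact ⟨e.2.1, h4, Or.inr ⟨rfl, h3⟩⟩
  have hvw : v ≠ w := by
    rintro rfl
    exact hvK hw
  obtain ⟨k1, k2, k3, k4, k5⟩ := recB hvw hJn hv hK hw hvK h1 hc1 hJ' h2 hc2
  have heA : e ∈ A1 ∪ (J ∪ A2) :=
    Finset.mem_union_right _ (Finset.mem_union_left _ he)
  rw [Finset.insert_eq_of_mem heA] at k1
  refine ⟨k1, ?_, k3, k4, k5⟩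
  have h3 : u ∈ comp ((A1 ∪ (J ∪ A2)).filter fun f => f.2.1 ≠ v ∧ f.2.2 ≠ v) w := by
    rw [k2]
    exact huK
  rw [← comp_eq (mem_comp.1 h3), k2]

private theorem fiber (β : ℚ) {S K : Finset ℕ} {G : Finset Ed} {v u : ℕ} (hvu : v ≠ u)
    (hv : v ∈ S) (hu : u ∈ S) (hKS : K ⊆ S) (huK : u ∈ K) (hvK : v ∉ K) :
    (open Classical in
      ∑ A ∈ ((ins S G).powerset.filter (fun A => ConnOn A S)).filter
        (fun A => comp (A.filter fun f => f.2.1 ≠ v ∧ f.2.2 ≠ v) u = K), β ^ A.card) =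
      cc β K G * ((1 + β) ^ (btw v K G).card - 1) * cc β (S \ K) G := by
  classical
  have hb : (1 + β) ^ (btw v K G).card - 1 = ∑ J ∈ (btw v K G).powerset.erase ∅, β ^ J.card := by
    have h1 := Finset.sum_pow_mul_eq_add_pow β 1 (btw v K G)
    simp only [one_pow, mul_one] at h1
    rw [Finset.sum_erase_eq_sub (Finset.empty_mem_powerset _), h1, add_comm, Finset.card_empty,
      pow_zero]
  rw [hb]
  unfold cc
  have hL : (∑ i ∈ (ins K G).powerset.filter (fun A => ConnOn A K), β ^ i.card) *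
      (∑ J ∈ (btw v K G).powerset.erase ∅, β ^ J.card) *
      (∑ j ∈ (ins (S \ K) G).powerset.filter (fun A => ConnOn A (S \ K)), β ^ j.card) =
      ∑ q ∈ ((ins K G).powerset.filter (fun A => ConnOn A K)) ×ˢ
        (((btw v K G).powerset.erase ∅) ×ˢ
        ((ins (S \ K) G).powerset.filter (fun A => ConnOn A (S \ K)))),
        β ^ q.1.card * (β ^ q.2.1.card * β ^ q.2.2.card) := by
    rw [mul_assoc, Finset.sum_mul_sum _ _ (fun J : Finset Ed => β ^ J.card),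
      Finset.sum_mul, Finset.sum_product]
    refine Finset.sum_congr rfl fun A1 _ => ?_
    rw [Finset.sum_product, Finset.mul_sum]
    refine Finset.sum_congr rfl fun J _ => ?_
    rw [Finset.mul_sum]
  rw [hL]
  refine Finset.sum_bij' (fun A _ => (ins K A, (btw v K A, ins (S \ K) A)))
    (fun q _ => q.1 ∪ (q.2.1 ∪ q.2.2)) ?_ ?_ ?_ ?_ ?_
  · intro A hA
    rw [Finset.mem_filter, Finset.mem_filter, Finset.mem_powerset] at hA
    obtain ⟨⟨h1, h2⟩, h3⟩ := hA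
    have hAG : A ⊆ G := fun f hf => (mem_ins.1 (h1 hf)).1
    obtain ⟨-, -, -, -, h4, h5, h6⟩ := recA' hvu hv hu (fun f hf => (mem_ins.1 (h1 hf)).2) h2 h3
    rw [Finset.mem_product, Finset.mem_product, Finset.mem_filter, Finset.mem_filter,
      Finset.mem_powerset, Finset.mem_erase, Finset.mem_powerset, Finset.mem_powerset]
    exact ⟨⟨ins_mono hAG, h4⟩, ⟨h6, btw_mono hAG⟩, ins_mono hAG, h5⟩
  · rintro ⟨A1, J, A2⟩ hq
    rw [Finset.mem_product, Finset.mem_product, Finset.mem_filter, Finset.mem_filter,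
      Finset.mem_powerset, Finset.mem_erase, Finset.mem_powerset, Finset.mem_powerset] at hq
    obtain ⟨⟨h1, h2⟩, ⟨h6, h3⟩, h4, h5⟩ := hq
    obtain ⟨k1, k2, -, -, -⟩ := recB' hv hKS huK hvK (fun f hf => (mem_ins.1 (h1 hf)).2) h2
      (fun f hf => (mem_btw.1 (h3 hf)).2) h6 (fun f hf => (mem_ins.1 (h4 hf)).2) h5
    rw [Finset.mem_filter, Finset.mem_filter, Finset.mem_powerset]
    refine ⟨⟨?_, k1⟩, k2⟩
    intro f hf
    rw [mem_ins]
    rcases Finset.mem_union.1 hf with hf | hf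
    · have h6 := mem_ins.1 (h1 hf)
      exact ⟨h6.1, hKS h6.2.1, hKS h6.2.2⟩
    · rcases Finset.mem_union.1 hf with hf | hf
      · have h6 := mem_btw.1 (h3 hf)
        refine ⟨h6.1, ?_⟩
        rcases h6.2 with ⟨h7, h8⟩ | ⟨h7, h8⟩
        · rw [h7]
          exact ⟨hv, hKS h8⟩
        · rw [h7]
          exact ⟨hKS h8, hv⟩
      · have h6 := mem_ins.1 (h4 hf)
        exact ⟨h6.1, (Finset.mem_sdiff.1 h6.2.1).1, (Finset.mem_sdiff.1 h6.2.2).1⟩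
  · intro A hA
    rw [Finset.mem_filter, Finset.mem_filter, Finset.mem_powerset] at hA
    obtain ⟨⟨h1, h2⟩, h3⟩ := hA
    obtain ⟨-, -, -, h4, -, -, -⟩ := recA' hvu hv hu (fun f hf => (mem_ins.1 (h1 hf)).2) h2 h3
    exact h4
  · rintro ⟨A1, J, A2⟩ hq
    rw [Finset.mem_product, Finset.mem_product, Finset.mem_filter, Finset.mem_filter,
      Finset.mem_powerset, Finset.mem_erase, Finset.mem_powerset, Finset.mem_powerset] at hq
    obtain ⟨⟨h1, h2⟩, ⟨h6, h3⟩, h4, h5⟩ := hq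
    obtain ⟨-, -, k3, k4, k5⟩ := recB' hv hKS huK hvK (fun f hf => (mem_ins.1 (h1 hf)).2) h2
      (fun f hf => (mem_btw.1 (h3 hf)).2) h6 (fun f hf => (mem_ins.1 (h4 hf)).2) h5
    show (ins K (A1 ∪ (J ∪ A2)), (btw v K (A1 ∪ (J ∪ A2)), ins (S \ K) (A1 ∪ (J ∪ A2)))) =
      (A1, (J, A2))
    rw [k3, k4, k5]
  · intro A hA
    rw [Finset.mem_filter, Finset.mem_filter, Finset.mem_powerset] at hA
    obtain ⟨⟨h1, h2⟩, h3⟩ := hA
    obtain ⟨-, -, -, h4, -, -, -⟩ := recA' hvu hv hu (fun f hf => (mem_ins.1 (h1 hf)).2) h2 h3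
    show β ^ A.card = β ^ (ins K A).card * (β ^ (btw v K A).card * β ^ (ins (S \ K) A).card)
    rw [← pow_add, ← pow_add, ← card_three (S := S) hvK (fun f hf => (mem_ins.1 hf).2)
      (fun f hf => (mem_btw.1 hf).2) (fun f hf => (mem_ins.1 hf).2), h4]

theorem cc_rec2 (β : ℚ) {S : Finset ℕ} {G : Finset Ed} {v u : ℕ}
    (hvu : v ≠ u) (hv : v ∈ S) (hu : u ∈ S) :
    cc β S G = ∑ K ∈ S.powerset.filter (fun K => u ∈ K ∧ v ∉ K),
        cc β K G * ((1 + β) ^ (btw v K G).card - 1) * cc β (S \ K) G := by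
  classical
  have h1 : cc β S G = ∑ A ∈ (ins S G).powerset.filter (fun A => ConnOn A S), β ^ A.card := by
    unfold cc
    rfl
  rw [h1, ← Finset.sum_fiberwise_of_maps_to
      (g := fun A => comp (A.filter fun f => f.2.1 ≠ v ∧ f.2.2 ≠ v) u)
      (t := S.powerset.filter (fun K => u ∈ K ∧ v ∉ K))]
  · apply Finset.sum_congr rfl
    intro K hK
    rw [Finset.mem_filter, Finset.mem_powerset] at hK
    exact fiber β hvu hv hu hK.1 hK.2.1 hK.2.2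
  · intro A hA
    rw [Finset.mem_filter, Finset.mem_powerset] at hA
    obtain ⟨k1, k2, k3, -⟩ := recA' hvu hv hu (fun f hf => (mem_ins.1 (hA.1 hf)).2) hA.2 rfl
    rw [Finset.mem_filter, Finset.mem_powerset]
    exact ⟨k3, k1, k2⟩

end Pool.Agent.TFN
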