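import Pool.Agent.TFN.ZEr

set_option autoImplicit false

/-!
# TFN-DcLow: the expected cost decreases

The adaptation of `Pool/Agent/TFP/DcLow.lean` to `-1 < y < 0`.
-/

namespace Pool.Agent.TFN

open Finset Pool.Agent.TFP

variable {lam y : ℚ}

private theorem dcl_mem_star {G : Finset Ed} {e : Ed} (he : e ∈ G) {v u : ℕ} (hJ : Jn e v u) :
    e ∈ star v G ∧ e ∈ star u G := by
  unfold TFP.star
  rw [mem_filter, mem_filter]
  rcases hJ with ⟨h1, h2⟩ | ⟨h1, h2⟩
  · exact ⟨⟨he, Or.inl h1⟩, ⟨he, Or.inr h2⟩⟩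
  · exact ⟨⟨he, Or.inr h2⟩, ⟨he, Or.inl h1⟩⟩

private theorem dcl_star_erase (G : Finset Ed) (e : Ed) (v : ℕ) :
    star v (G.erase e) = (star v G).erase e := by
  ext f
  unfold TFP.star
  simp only [mem_filter, mem_erase]
  tauto

private theorem dcl_card {G : Finset Ed} {e : Ed} {v : ℕ} (h : e ∈ star v G) :
    ((star v (G.erase e)).card : ℚ) = (star v G).card - 1 := by
  have h1 : (star v (G.erase e)).card + 1 = (star v G).card := by
    rw [dcl_star_erase]
    exact card_erase_add_one h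
  have h2 : ((star v (G.erase e)).card : ℚ) + 1 = (star v G).card := by exact_mod_cast h1
  linarith

private theorem dcl_out (K : Finset ℕ) (G : Finset Ed) (v : ℕ) :
    (star v (out K G)).card ≤ (star v G).card := by
  apply card_le_card
  unfold TFP.star out
  exact filter_subset_filter _ (filter_subset _ _)

private theorem dcl_ends {G H : Finset Ed} (h : H ⊆ G) : ends H ⊆ ends G := by
  unfold ends
  exact union_subset_union (image_subset_image h) (image_subset_image h)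

private theorem dcl_end {G : Finset Ed} {e : Ed} (he : e ∈ G) {v u : ℕ} (hJ : Jn e v u) :
    u ∈ ends G := by
  unfold ends
  rw [mem_union, mem_image, mem_image]
  rcases hJ with ⟨_, h2⟩ | ⟨h1, _⟩
  · exact Or.inr ⟨e, he, h2⟩
  · exact Or.inl ⟨e, he, h1⟩

private theorem dcl_sum {V : Finset ℕ} (f t g : Finset ℕ → ℚ) (hf : ∀ K ∈ V.powerset, 0 ≤ f K)
    (ht0 : ∀ K, 0 ≤ t K) {a b : ℚ} (hg : ∀ K, g K ≤ a) (h1 : ∑ K ∈ V.powerset, f K = 1) :
    ∑ K ∈ V.powerset, f K * (t K * g K + (1 - t K) * b) ≤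
      (∑ K ∈ V.powerset, f K * t K) * a + (1 - ∑ K ∈ V.powerset, f K * t K) * b := by
  have h2 : (∑ K ∈ V.powerset, f K * t K) * a + (1 - ∑ K ∈ V.powerset, f K * t K) * b =
      ∑ K ∈ V.powerset, f K * (t K * a + (1 - t K) * b) := by
    have h3 : ∑ K ∈ V.powerset, f K * (t K * a + (1 - t K) * b) =
        ∑ K ∈ V.powerset, (f K * t K * a + (f K * b - f K * t K * b)) :=
      sum_congr rfl fun K _ => by ring
    rw [h3, sum_add_distrib, sum_sub_distrib, ← sum_mul, ← sum_mul, ← sum_mul, h1]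
    ring
  rw [h2]
  refine sum_le_sum fun K hK => mul_le_mul_of_nonneg_left ?_ (hf K hK)
  have := mul_le_mul_of_nonneg_left (hg K) (ht0 K)
  linarith


private theorem dcl_arith {p z P g B d D : ℚ} (hp0 : 0 ≤ p) (hp1 : p ≤ 1) (hz0 : 0 ≤ z) (hz1 : z ≤ 1) (_hP0 : 0 ≤ P)
    (hP : P ≤ p) (hg0 : 0 ≤ g) (hg1 : g ≤ 1) (hB0 : 0 ≤ B) (hd0 : 0 ≤ d) (hd : d ≤ D)
    (hB : 5 ≤ B * (1 - p * D * (1 + z - z * p))) :
    1 ≤ 1 + B * d - (1 - p) * (2 + B * (d - 1) + z * P * (1 + B * d)) -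
      p * (2 + B * (D - 1) + g * (2 + B * (d - 1)) + (1 - g) * (1 + B * d)) := by
  have hX0 : 0 ≤ (1 - p) * z := mul_nonneg (by linarith) hz0
  have hX1 : (1 - p) * z ≤ 1 := by nlinarith
  have h1 : (1 - p) * z * (P * (1 + B * d)) ≤ (1 - p) * z * (p * (1 + B * D)) := by
    apply mul_le_mul_of_nonneg_left _ hX0
    have h2 : 1 + B * d ≤ 1 + B * D := by
      have := mul_le_mul_of_nonneg_left hd hB0
      linarith
    have h3 : 0 ≤ 1 + B * d := by
      have := mul_nonneg hB0 hd0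
      linarith
    exact mul_le_mul hP h2 h3 hp0
  have h2 : (1 - p) * z * p ≤ 1 := by nlinarith
  have h3 : p * g ≤ 1 := by nlinarith
  have h4 : 0 ≤ B * (p * g) := mul_nonneg hB0 (mul_nonneg hp0 hg0)
  have h5 : 1 + B * d - (1 - p) * (2 + B * (d - 1) + z * P * (1 + B * d)) -
      p * (2 + B * (D - 1) + g * (2 + B * (d - 1)) + (1 - g) * (1 + B * d)) =
      -1 - (1 - p) * z * (P * (1 + B * d)) - p * g - p + B * (1 - p * D) + B * (p * g) := by ring
  have h6 : B * (1 - p * D * (1 + z - z * p)) = B * (1 - p * D) - (1 - p) * z * (p * (1 + B * D)) + (1 - p) * z * p := by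
    ring
  rw [h5]
  rw [h6] at hB
  linarith

theorem Dcost_low (hl : 0 < lam) (hy0 : -1 < y) (hy1 : y < 0) {V : Finset ℕ} {D : ℕ}
    {G : Finset Ed} (hG : Cl V D G) {e : Ed} (he : e ∈ G) {v u : ℕ} (hJ : Jn e v u)
    {B κ : ℚ} (hB0 : 0 ≤ B) (hκ : 0 ≤ κ)
    (hB : 5 ≤ B * (1 - lam / (1 + lam) * D * (1 - y + y * (lam / (1 + lam))))) :
    κ ≤ Dcost lam y V (fun G v => κ * (1 + B * (star v G).card)) κ G v u e := by
  obtain ⟨hNL, hends, hdeg⟩ := hG
  have hNL' : NL (G.erase e) := hNL.mono (erase_subset _ _)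
  have hV' : ends (G.erase e) ⊆ V := (dcl_ends (erase_subset _ _)).trans hends
  have huV : u ∈ V := hends (dcl_end he hJ)
  have hJ' : Jn e u v := by
    rcases hJ with ⟨h1, h2⟩ | ⟨h1, h2⟩
    · exact Or.inr ⟨h1, h2⟩
    · exact Or.inl ⟨h1, h2⟩
  have hvV : v ∈ V := hends (dcl_end he hJ')
  have hvu : v ≠ u := by
    intro h
    subst h
    rcases hJ with ⟨h1, h2⟩ | ⟨h1, h2⟩
    · exact hNL e he (h1.trans h2.symm)
    · exact hNL e he (h1.trans h2.symm)
  have hS := dcl_mem_star he hJ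
  have hdv := dcl_card hS.1
  have hdu := dcl_card hS.2
  have hduD : ((star u G).card : ℚ) ≤ D := by exact_mod_cast hdeg u
  have hdvD : ((star v G).card : ℚ) ≤ D := by exact_mod_cast hdeg v
  have hdv0 : (0 : ℚ) ≤ ((star v G).card : ℚ) := by positivity
  have hsum := dcl_sum (V := V) (fun K => q lam y (G.erase e) u K)
    (fun K => gK y v K (G.erase e))
    (fun K => κ * (1 + B * (star v (out K (G.erase e))).card) + κ)
    (fun K _ => q_nonneg hl hy0 hy1 hNL' u K) (fun K => (gK_mem hy0 hy1 v K _).1)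
    (a := κ * (1 + B * ((star v G).card - 1)) + κ) (b := κ * (1 + B * (star v G).card))
    (fun K => by
      have h1 : ((star v (out K (G.erase e))).card : ℚ) ≤ (star v G).card - 1 := by
        rw [← hdv]
        exact_mod_cast dcl_out K (G.erase e) v
      have h2 := mul_le_mul_of_nonneg_left (mul_le_mul_of_nonneg_left h1 hB0) hκ
      show κ * (1 + B * (star v (out K (G.erase e))).card) + κ ≤ _
      linarith)
    (q_sum hl hy0 hy1 hNL' hV' huV)
  have hg0 : 0 ≤ ∑ K ∈ V.powerset, q lam y (G.erase e) u K * gK y v K (G.erase e) :=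
    sum_nonneg fun K _ => mul_nonneg (q_nonneg hl hy0 hy1 hNL' u K) (gK_mem hy0 hy1 v K _).1
  have hg1 : ∑ K ∈ V.powerset, q lam y (G.erase e) u K * gK y v K (G.erase e) ≤ 1 := by
    rw [← q_sum hl hy0 hy1 hNL' hV' huV]
    refine sum_le_sum fun K _ => ?_
    have := mul_le_mul_of_nonneg_left (gK_mem hy0 hy1 v K (G.erase e)).2 (q_nonneg hl hy0 hy1 hNL' u K)
    rwa [mul_one] at this
  have hP := con_le hl hy0 hy1 hNL' hV' hvV huV hvu
  have hP0 : 0 ≤ ∑ S ∈ V.powerset, q lam y (G.erase e) v S * (if u ∈ S then 1 else 0) :=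
    sum_nonneg fun S _ => mul_nonneg (q_nonneg hl hy0 hy1 hNL' v S) (by split_ifs <;> norm_num)
  have hP2 : ∑ S ∈ V.powerset, q lam y (G.erase e) v S *
      (if u ∈ S then -y * (κ * (1 + B * ((star v G).card : ℚ))) else 0) =
      -y * (κ * (1 + B * ((star v G).card : ℚ))) *
        ∑ S ∈ V.powerset, q lam y (G.erase e) v S * (if u ∈ S then 1 else 0) := by
    rw [mul_sum]
    refine sum_congr rfl fun S _ => ?_
    split_ifs <;> ring
  have hp1 : 1 / (1 + lam) = 1 - lam / (1 + lam) := by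
    have : (1 + lam) ≠ 0 := by positivity
    field_simp
    ring
  have hp0 : 0 ≤ lam / (1 + lam) := by positivity
  have hp2 : lam / (1 + lam) ≤ 1 := by
    rw [div_le_one (by positivity)]
    linarith
  unfold Dcost
  rw [hp1]
  beta_reduce at hsum ⊢
  rw [hdv, hdu, hP2]
  revert hsum hg0 hg1 hP hP0 hB hp0 hp2
  generalize (∑ K ∈ V.powerset, q lam y (G.erase e) u K *
      (gK y v K (G.erase e) * (κ * (1 + B * (star v (out K (G.erase e))).card) + κ) +
        (1 - gK y v K (G.erase e)) * (κ * (1 + B * (star v G).card)))) = T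
  generalize (∑ K ∈ V.powerset, q lam y (G.erase e) u K * gK y v K (G.erase e)) = g
  generalize (∑ S ∈ V.powerset, q lam y (G.erase e) v S * (if u ∈ S then 1 else 0)) = Q
  generalize lam / (1 + lam) = p
  generalize ((star v G).card : ℚ) = d at hdvD hdv0
  generalize ((star u G).card : ℚ) = d' at hduD
  intro hB hsum hg0 hg1 hP hP0 hp0 hp2
  have h1 := mul_le_mul_of_nonneg_left hsum hp0
  have h2 : p * (κ * (1 + B * (d' - 1))) ≤ p * (κ * (1 + B * (D - 1))) := by
    apply mul_le_mul_of_nonneg_left _ hp0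
    apply mul_le_mul_of_nonneg_left _ hκ
    have := mul_le_mul_of_nonneg_left hduD hB0
    linarith
  have h3 := dcl_arith (z := -y) hp0 hp2 (by linarith) (by linarith) hP0 hP hg0 hg1 hB0 hdv0 hdvD
    (by
      have e1 : 1 + -y - -y * p = 1 - y + y * p := by ring
      rw [e1]
      exact hB)
  have h4 := mul_le_mul_of_nonneg_left h3 hκ
  rw [mul_one] at h4
  refine h4.trans ?_
  have h5 : κ * (1 + B * d - (1 - p) * (2 + B * (d - 1) + -y * Q * (1 + B * d)) -
      p * (2 + B * (D - 1) + g * (2 + B * (d - 1)) + (1 - g) * (1 + B * d))) =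
      κ * (1 + B * d) - ((1 - p) * (κ * (1 + B * (d - 1)) + κ + -y * (κ * (1 + B * d)) * Q) +
        (p * (κ * (1 + B * (D - 1))) + p * κ +
          p * (g * (κ * (1 + B * (d - 1)) + κ) + (1 - g) * (κ * (1 + B * d))))) := by ring
  rw [h5]
  have h6 : p * (κ * (1 + B * (d' - 1)) + κ + T) = p * (κ * (1 + B * (d' - 1))) + p * κ + p * T := by ring
  rw [h6]
  linarith

end Pool.Agent.TFN
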