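import Pool.Agent.TFP.Defs

set_option autoImplicit false

/-!
# TFN: definitions

PROJECT TFN (MP_e767af_lc, second theorem): FPRAS for the Tutte polynomial `T(G; x, y)`, `x > 1`,
`-1 < y < 0`, on graphs of maximum degree `≤ x / (1 - y)`. It is a variant of project TFP (`0 ≤ y < 1`,
finished: `Pool/Agent/TFP`), with another sampler of clusters. The combinatorial definitions, the
averages and the list operations are those of `Pool/Agent/TFP/Defs.lean`.
-/

namespace Pool.Agent.TFN

open Finset Pool.Agent.TFP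

/-- `[d]_y = 1 + y + ... + y^(d-1)` -/
def br (y : ℚ) (d : ℕ) : ℚ := ∑ i ∈ range d, y ^ i

/-- acceptance probability of the cluster `K` of the other end -/
noncomputable def gK (y : ℚ) (v : ℕ) (K : Finset ℕ) (G : Finset Ed) : ℚ :=
  if v ∈ K then 0 else 1 - br y (btw v K G).card

/-- payoff of the cluster `K` of the other end -/
noncomputable def pK (lam y : ℚ) (v : ℕ) (K : Finset ℕ) (G : Finset Ed) : ℚ :=
  if v ∈ K then 0 else 1 + lam * br y ((btw v K G).card + 1)

/-- the ratio `Z(G) / Z(G - e)` as a mean payoff (here `G` is the graph without `e`) -/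
noncomputable def rt (lam y : ℚ) (V : Finset ℕ) (G : Finset Ed) (u v : ℕ) : ℚ :=
  ∑ K ∈ V.powerset, q lam y G u K * pK lam y v K G

/-- the class of edge sets: no loops, ends in `V`, degrees at most `D` -/
def Cl (V : Finset ℕ) (D : ℕ) (G : Finset Ed) : Prop :=
  NL G ∧ ends G ⊆ V ∧ ∀ v, (star v G).card ≤ D

/-! ## The machine -/

/-- entry `j` of a list of numbers -/
def nth (l : List ℕ) (j : ℕ) : ℕ := (l.drop j).headD 0

/-- parameters: `1 / x = c / a`; `b` = number of bits per step; `D` = degree bound; acceptance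
probabilities `gl[j] / W`, restart probability `zl / W`, payoffs `pl[j] / Wp`; `y = - y1 / y2` -/
structure Par where
  a : ℕ
  c : ℕ
  b : ℕ
  D : ℕ
  W : ℕ
  zl : ℕ
  gl : List ℕ
  Wp : ℕ
  pl : List ℕ
  y1 : ℕ
  y2 : ℕ

/-- `lam = 1 / (x - 1)` -/
def Par.lam (P : Par) : ℚ := P.c / (P.a - P.c)

/-- `y` -/
def Par.y (P : Par) : ℚ := -(P.y1 / P.y2)

/-- conditions on the parameters -/
def Par.Ok (P : Par) : Prop :=
  0 < P.c ∧ P.c < P.a ∧ P.a ≤ 2 ^ P.b ∧ 0 < P.y1 ∧ P.y1 < P.y2 ∧ 0 < P.W ∧ P.W ≤ 2 ^ P.b ∧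
    0 < P.Wp ∧ (P.zl : ℚ) / P.W = -P.y ∧ (∀ j ≤ P.D, (nth P.gl j : ℚ) / P.W = 1 - br P.y j) ∧
    ∀ j ≤ P.D, (nth P.pl j : ℚ) / P.Wp = 1 + P.lam * br P.y (j + 1)

/-- a frame of the stack; the first two entries say: `(true, true)`: type A, waiting for the cluster of
the other end of the edge `e`; `(true, false)`: type C, waiting for the cluster of `v` without `e`;
`(false, _)`: type B, unite with `K` -/
abbrev Frame := (Bool × Bool) × ((ℕ × Ed) × (List Ed × List ℕ))

/-- a state: `(true, ((v, (G, _)), st))`: sample the cluster of `v` in `G`;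
`(false, ((_, (_, K)), st))`: the cluster `K` is returned. -/
abbrev St := Bool × ((ℕ × (List Ed × List ℕ)) × List Frame)

/-- evaluation state -/
abbrev ev (v : ℕ) (G : List Ed) (st : List Frame) : St := (true, ((v, (G, [])), st))

/-- return state -/
abbrev ret (K : List ℕ) (st : List Frame) : St := (false, ((0, ([], K)), st))

/-- frame of type A -/
abbrev frA (v : ℕ) (e : Ed) (G : List Ed) : Frame := ((true, true), ((v, e), (G, [])))

/-- frame of type C -/
abbrev frC (v : ℕ) (e : Ed) (G : List Ed) : Frame := ((true, false), ((v, e), (G, [])))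

/-- frame of type B -/
abbrev frB (K : List ℕ) : Frame := ((false, false), ((0, (0, (0, 0))), ([], K)))

/-- number of edges between `v` and `K`, truncated at `D` -/
def jj (P : Par) (v : ℕ) (K : List ℕ) (G : List Ed) : ℕ := ((btwL v K G).take P.D).length

/-- step at an evaluation state -/
def stepE (P : Par) (U : ℕ) (s : St) : St :=
  if (atL s.2.1.1 s.2.1.2.1).isEmpty then ret [s.2.1.1] s.2.2
  else if U < P.c then
    ev (oth s.2.1.1 ((atL s.2.1.1 s.2.1.2.1).headD (0, (0, 0))))
      (delL ((atL s.2.1.1 s.2.1.2.1).headD (0, (0, 0))) s.2.1.2.1)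
      (frA s.2.1.1 ((atL s.2.1.1 s.2.1.2.1).headD (0, (0, 0)))
        (delL ((atL s.2.1.1 s.2.1.2.1).headD (0, (0, 0))) s.2.1.2.1) :: s.2.2)
  else if U < P.a then
    ev s.2.1.1 (delL ((atL s.2.1.1 s.2.1.2.1).headD (0, (0, 0))) s.2.1.2.1)
      (frC s.2.1.1 ((atL s.2.1.1 s.2.1.2.1).headD (0, (0, 0)))
        (delL ((atL s.2.1.1 s.2.1.2.1).headD (0, (0, 0))) s.2.1.2.1) :: s.2.2)
  else s

/-- step at a return state, top frame `f`, other frames `st`, returned cluster `K`; `s` = state -/
def stepR (P : Par) (U : ℕ) (s : St) (K : List ℕ) (f : Frame) (st : List Frame) : St :=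
  if f.1.1 then
    if f.1.2 then
      if K.contains f.2.1.1 then ev f.2.1.1 (f.2.1.2 :: f.2.2.1) st
      else if U < nth P.gl (jj P f.2.1.1 K f.2.2.1) then
        ev f.2.1.1 (outL K f.2.2.1) (frB K :: st)
      else if U < P.W then ev f.2.1.1 (f.2.1.2 :: f.2.2.1) st
      else s
    else if K.contains (oth f.2.1.1 f.2.1.2) then
      if U < P.zl then ev f.2.1.1 (f.2.1.2 :: f.2.2.1) st
      else if U < P.W then ret K st
      else s
    else ret K st
  else ret (f.2.2.2 ++ K) st

/-- one step of the machine, `U` is a random number `< 2 ^ b` -/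
def stepM (P : Par) (U : ℕ) (s : St) : St :=
  if s.1 then stepE P U s
  else if s.2.2.isEmpty then s
  else stepR P U s s.2.1.2.2 (s.2.2.headD (frB [])) s.2.2.tail

/-- `L` steps -/
def runM (P : Par) : ℕ → List Bool → St → St
  | 0, _, s => s
  | L + 1, l, s => runM P L (l.drop P.b) (stepM P (Helper6.WB.val (l.take P.b)) s)

/-- terminal state -/
def isT (s : St) : Bool := !s.1 && s.2.2.isEmpty

/-- payoff of a state, times `Wp` -/
def pay (P : Par) (v : ℕ) (G : List Ed) (s : St) : ℕ :=
  if isT s && !(s.2.1.2.2.contains v) then nth P.pl (jj P v s.2.1.2.2 G) else 0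

/-- one trial for the factor of the edge `e`, `E` = list of the later edges -/
def trial (P : Par) (L : ℕ) (e : Ed) (E : List Ed) (l : List Bool) : ℕ :=
  pay P e.2.1 E (runM P L l (ev e.2.2 E []))

/-- the sum of `k` trials -/
def sumT (P : Par) (L : ℕ) (e : Ed) (E : List Ed) : ℕ → List Bool → ℕ
  | 0, _ => 0
  | k + 1, l => trial P L e E (l.take (L * P.b)) + sumT P L e E k (l.drop (L * P.b))

/-- numerator of the estimator of `Z` -/
def numer (P : Par) (k L : ℕ) : List Ed → List Bool → ℕ
  | [], _ => 1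
  | e :: E, l => sumT P L e E k (l.take (k * (L * P.b))) *
      numer P k L E (l.drop (k * (L * P.b)))

/-- denominator of the estimator of `Z` -/
def denom (P : Par) (k : ℕ) (E : List Ed) : ℕ := (k * P.Wp) ^ E.length

/-! ## Harmonic and superharmonic functions -/

/-- the value function of a stack: `nE G v` is the cost of sampling the cluster of `v` in `G`, `κ`
the cost of a return step, `F` the final payoff -/
noncomputable def RR (lam y : ℚ) (V : Finset ℕ) (nE : Finset Ed → ℕ → ℚ) (κ : ℚ)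
    (F : Finset ℕ → ℚ) : List Frame → Finset ℕ → ℚ
  | [], K => F K
  | f :: st, K =>
    if f.1.1 then
      if f.1.2 then
        κ + (gK y f.2.1.1 K f.2.2.1.toFinset *
            (nE (out K f.2.2.1.toFinset) f.2.1.1 +
              ∑ S ∈ V.powerset, q lam y (out K f.2.2.1.toFinset) f.2.1.1 S *
                (κ + RR lam y V nE κ F st (K ∪ S))) +
          (1 - gK y f.2.1.1 K f.2.2.1.toFinset) *
            (nE (insert f.2.1.2 f.2.2.1.toFinset) f.2.1.1 +
              ∑ S ∈ V.powerset, q lam y (insert f.2.1.2 f.2.2.1.toFinset) f.2.1.1 S *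
                RR lam y V nE κ F st S))
      else
        κ + if oth f.2.1.1 f.2.1.2 ∈ K then
            -y * (nE (insert f.2.1.2 f.2.2.1.toFinset) f.2.1.1 +
              ∑ S ∈ V.powerset, q lam y (insert f.2.1.2 f.2.2.1.toFinset) f.2.1.1 S *
                RR lam y V nE κ F st S) + (1 + y) * RR lam y V nE κ F st K
          else RR lam y V nE κ F st K
    else κ + RR lam y V nE κ F st (f.2.2.2.toFinset ∪ K)

/-- the value function of states -/
noncomputable def Val (lam y : ℚ) (V : Finset ℕ) (nE : Finset Ed → ℕ → ℚ) (κ : ℚ)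
    (F : Finset ℕ → ℚ) (s : St) : ℚ :=
  if s.1 then nE s.2.1.2.1.toFinset s.2.1.1 +
      ∑ S ∈ V.powerset, q lam y s.2.1.2.1.toFinset s.2.1.1 S * RR lam y V nE κ F s.2.2 S
  else RR lam y V nE κ F s.2.2 s.2.1.2.2.toFinset

/-- the expected decrease of the cost at an evaluation step which is not lazy -/
noncomputable def Dcost (lam y : ℚ) (V : Finset ℕ) (nE : Finset Ed → ℕ → ℚ) (κ : ℚ)
    (G : Finset Ed) (v u : ℕ) (e : Ed) : ℚ :=
  nE G v - (1 / (1 + lam) *
      (nE (G.erase e) v + κ + ∑ S ∈ V.powerset, q lam y (G.erase e) v S *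
        (if u ∈ S then -y * nE G v else 0)) +
    lam / (1 + lam) *
      (nE (G.erase e) u + κ + ∑ K ∈ V.powerset, q lam y (G.erase e) u K *
        (gK y v K (G.erase e) * (nE (out K (G.erase e)) v + κ) +
          (1 - gK y v K (G.erase e)) * nE G v)))

/-- the invariant of the states -/
def Inv (V : Finset ℕ) (D : ℕ) (s : St) : Prop :=
  (s.1 = true → s.2.1.2.1.Nodup ∧ Cl V D s.2.1.2.1.toFinset ∧ s.2.1.1 ∈ V) ∧
    ∀ f ∈ s.2.2, f.1.1 = true → (f.2.1.2 :: f.2.2.1).Nodup ∧
      Cl V D (f.2.1.2 :: f.2.2.1).toFinset ∧ f.2.1.1 ∈ V ∧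
      (f.2.1.2.2.1 = f.2.1.1 ∨ f.2.1.2.2.2 = f.2.1.1)

/-- the potential: expected number of steps, at most -/
noncomputable def Pot (P : Par) (V : Finset ℕ) (B : ℚ) (s : St) : ℚ :=
  Val P.lam P.y V (fun G v => 2 ^ P.b * (1 + B * (star v G).card)) (2 ^ P.b) (fun _ => 0) s

/-- the true factors of `Z` -/
noncomputable def zs (lam y : ℚ) (V : Finset ℕ) : List Ed → List ℚ
  | [] => []
  | e :: E => rt lam y V E.toFinset e.2.2 e.2.1 :: zs lam y V E

/-- the estimated factors of `Z` -/
def facs (P : Par) (k L : ℕ) : List Ed → List (List Bool → ℚ)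
  | [] => []
  | e :: E => (fun l => 1 / (k * P.Wp) * sumT P L e E k l) :: facs P k L E

end Pool.Agent.TFN
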