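import Pool.Agent.TFN.Defs
import Pool.Agent.TFP.Comp

set_option autoImplicit false

/-!
# TFN-InvS: the invariant of the machine
-/

namespace Pool.Agent.TFN

open Finset Pool.Agent.TFP

theorem Cl.mono {V : Finset ℕ} {D : ℕ} {G H : Finset Ed} (hG : Cl V D G) (h : H ⊆ G) :
    Cl V D H :=
  ⟨fun e he => hG.1 e (h he), (ends_mono h).trans hG.2.1,
    fun v => (card_le_card (filter_subset_filter _ h)).trans (hG.2.2 v)⟩

private theorem head_mem {l : List Ed} (h : ¬ l.isEmpty = true) (d : Ed) : l.headD d ∈ l := by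
  cases l with
  | nil => simp at h
  | cons a l => simp

private theorem head_memF {l : List Frame} (h : ¬ l.isEmpty = true) (d : Frame) :
    l.headD d ∈ l := by
  cases l with
  | nil => simp at h
  | cons a l => simp

private theorem mem_atL {v : ℕ} {G : List Ed} {e : Ed} (h : e ∈ atL v G) :
    e ∈ G ∧ (e.2.1 = v ∨ e.2.2 = v) := by
  unfold atL at h
  rw [List.mem_filter] at h
  refine ⟨h.1, ?_⟩
  simpa using h.2

private theorem mem_delL {e f : Ed} {G : List Ed} : f ∈ delL e G ↔ f ∈ G ∧ f ≠ e := by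
  unfold delL
  rw [List.mem_filter]
  simp

private theorem delL_nodup {e : Ed} {G : List Ed} (h : G.Nodup) : (e :: delL e G).Nodup := by
  rw [List.nodup_cons]
  refine ⟨fun hc => (mem_delL.1 hc).2 rfl, ?_⟩
  unfold delL
  exact h.filter _

private theorem delL_toFinset {e : Ed} {G : List Ed} (h : e ∈ G) :
    (e :: delL e G).toFinset = G.toFinset := by
  ext f
  rw [List.mem_toFinset, List.mem_toFinset, List.mem_cons, mem_delL]
  constructor
  · rintro (rfl | h')
    · exact h
    · exact h'.1
  · intro hf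
    by_cases hfe : f = e
    · exact Or.inl hfe
    · exact Or.inr ⟨hf, hfe⟩

private theorem delL_sub {e : Ed} {G : List Ed} : (delL e G).toFinset ⊆ G.toFinset := by
  intro f hf
  rw [List.mem_toFinset] at hf ⊢
  exact (mem_delL.1 hf).1

private theorem outL_sub {K : List ℕ} {G : List Ed} : (outL K G).toFinset ⊆ G.toFinset := by
  intro f hf
  rw [List.mem_toFinset] at hf ⊢
  unfold outL at hf
  exact (List.mem_filter.1 hf).1

private theorem oth_mem {V : Finset ℕ} {G : List Ed} {e : Ed} (he : e ∈ G)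
    (hV : ends G.toFinset ⊆ V) (v : ℕ) : oth v e ∈ V := by
  have h1 : e ∈ G.toFinset := List.mem_toFinset.2 he
  unfold oth
  split_ifs
  · exact hV (mem_ends_right h1)
  · exact hV (mem_ends_left h1)

private theorem inv_stepE (P : Par) {V : Finset ℕ} {D : ℕ} {s : St} (hs : Inv V D s)
    (hb : s.1 = true) (U : ℕ) : Inv V D (stepE P U s) := by
  have hs' := hs
  obtain ⟨h1, h2⟩ := hs'
  obtain ⟨hnd, hcl, hv⟩ := h1 hb
  unfold stepE
  by_cases he : (atL s.2.1.1 s.2.1.2.1).isEmpty = true
  · rw [if_pos he]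
    exact ⟨fun hc => absurd hc (by simp), h2⟩
  · rw [if_neg he]
    have hm := mem_atL (head_mem he (0, (0, 0)))
    generalize (atL s.2.1.1 s.2.1.2.1).headD (0, (0, 0)) = e at hm
    have hnd' := delL_nodup (e := e) hnd
    by_cases hU : U < P.c
    · rw [if_pos hU]
      refine ⟨fun _ => ⟨(List.nodup_cons.1 hnd').2, hcl.mono delL_sub,
        oth_mem hm.1 hcl.2.1 _⟩, ?_⟩
      intro f hf hf1
      rcases List.mem_cons.1 hf with rfl | hf'
      · exact ⟨hnd', by rw [delL_toFinset hm.1]; exact hcl, hv, hm.2⟩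
      · exact h2 f hf' hf1
    · rw [if_neg hU]
      by_cases hU' : U < P.a
      · rw [if_pos hU']
        refine ⟨fun _ => ⟨(List.nodup_cons.1 hnd').2, hcl.mono delL_sub, hv⟩, ?_⟩
        intro f hf hf1
        rcases List.mem_cons.1 hf with rfl | hf'
        · exact ⟨hnd', by rw [delL_toFinset hm.1]; exact hcl, hv, hm.2⟩
        · exact h2 f hf' hf1
      · rw [if_neg hU']
        exact hs

private theorem inv_stepR (P : Par) {V : Finset ℕ} {D : ℕ} {s : St} (hs : Inv V D s)
    (U : ℕ) (K : List ℕ) (f0 : Frame) (st : List Frame)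
    (hf0 : f0.1.1 = true → (f0.2.1.2 :: f0.2.2.1).Nodup ∧
      Cl V D (f0.2.1.2 :: f0.2.2.1).toFinset ∧ f0.2.1.1 ∈ V ∧
      (f0.2.1.2.2.1 = f0.2.1.1 ∨ f0.2.1.2.2.2 = f0.2.1.1))
    (htail : ∀ f ∈ st, f.1.1 = true → (f.2.1.2 :: f.2.2.1).Nodup ∧
      Cl V D (f.2.1.2 :: f.2.2.1).toFinset ∧ f.2.1.1 ∈ V ∧
      (f.2.1.2.2.1 = f.2.1.1 ∨ f.2.1.2.2.2 = f.2.1.1)) :
    Inv V D (stepR P U s K f0 st) := by
  unfold stepR
  by_cases hf1 : f0.1.1 = true
  · rw [if_pos hf1]
    obtain ⟨hnd, hcl, hv, _⟩ := hf0 hf1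
    by_cases hf2 : f0.1.2 = true
    · rw [if_pos hf2]
      by_cases hK : K.contains f0.2.1.1 = true
      · rw [if_pos hK]
        exact ⟨fun _ => ⟨hnd, hcl, hv⟩, htail⟩
      · rw [if_neg hK]
        by_cases hU : U < nth P.gl (jj P f0.2.1.1 K f0.2.2.1)
        · rw [if_pos hU]
          refine ⟨fun _ => ⟨?_, hcl.mono ?_, hv⟩, ?_⟩
          · show (outL K f0.2.2.1).Nodup
            unfold outL
            exact ((List.nodup_cons.1 hnd).2).filter _
          · refine (outL_sub).trans ?_
            rw [List.toFinset_cons]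
            exact subset_insert _ _
          · intro f hf hf1
            rcases List.mem_cons.1 hf with rfl | hf'
            · exact absurd hf1 (by simp)
            · exact htail f hf' hf1
        · rw [if_neg hU]
          by_cases hU' : U < P.W
          · rw [if_pos hU']
            exact ⟨fun _ => ⟨hnd, hcl, hv⟩, htail⟩
          · rw [if_neg hU']
            exact hs
    · rw [if_neg hf2]
      by_cases hK : K.contains (oth f0.2.1.1 f0.2.1.2) = true
      · rw [if_pos hK]
        by_cases hU : U < P.zl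
        · rw [if_pos hU]
          exact ⟨fun _ => ⟨hnd, hcl, hv⟩, htail⟩
        · rw [if_neg hU]
          by_cases hU' : U < P.W
          · rw [if_pos hU']
            exact ⟨fun hc => absurd hc (by simp), htail⟩
          · rw [if_neg hU']
            exact hs
      · rw [if_neg hK]
        exact ⟨fun hc => absurd hc (by simp), htail⟩
  · rw [if_neg hf1]
    exact ⟨fun hc => absurd hc (by simp), htail⟩

theorem inv_step (P : Par) {V : Finset ℕ} {D : ℕ} {s : St} (hs : Inv V D s) (U : ℕ) :
    Inv V D (stepM P U s) := by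
  unfold stepM
  by_cases hb : s.1 = true
  · rw [if_pos hb]
    exact inv_stepE P hs hb U
  · rw [if_neg hb]
    by_cases he : s.2.2.isEmpty = true
    · rw [if_pos he]
      exact hs
    · rw [if_neg he]
      exact inv_stepR P hs U _ _ _ (hs.2 _ (head_memF he (frB [])))
        (fun f hf => hs.2 f (List.mem_of_mem_tail hf))

end Pool.Agent.TFN
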