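import Pool.Agent.TFN.Br

set_option autoImplicit false

/-!
# TFN-MeanC: one return step of the machine, frames of type C

Model: `Pool/Agent/TFP/MeanR.lean` (finished), `Pool/Agent/TFP/MeanE.lean` (the private lemma `sum3`).

Plan. `f.1 = (true, false)`, `v = f.2.1.1`, `e = f.2.1.2`, `G' = f.2.2.1`, `u = oth v e`.
* `u ∈ K` (`K.contains u = true`, `u ∈ K.toFinset`): for `U < zl` the new value is `X = nE (insert e G') v +
  ∑_S q (insert e G') v S * RR st S` (`Val (ev v (e :: G') st)`, `List.toFinset_cons`), for `zl ≤ U < W` it is `Y = RR st K`,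
  for `W ≤ U` it is `Val s = κ + (-y X + (1 + y) Y)`. `zl / W = -y ≤ 1`, so `zl ≤ W ≤ 2^b`; the mean is
  `(zl X + (W - zl) Y + (2^b - W) Val s) / 2^b = Val s - (W / 2^b) κ`; `t = W / 2^b`.
* `u ∉ K`: the new state is `ret K st` for all `U`, `Val s = κ + RR st K`, `t = 1`.
-/

namespace Pool.Agent.TFN

open Finset Pool.Agent.TFP

private theorem sum_three (m n N : ℕ) (h1 : m ≤ n) (h2 : n ≤ N) (A T c : ℚ) :
    (∑ U ∈ range N, if U < m then A else if U < n then T else c) =
      m * A + (n - m) * T + (N - n) * c := by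
  have e1 : ∀ U ∈ range N, (if U < m then A else if U < n then T else c) =
      c + (if U < n then T - c else 0) + (if U < m then A - T else 0) := by
    intro U _
    by_cases ha : U < m
    · have hb : U < n := by omega
      simp [ha, hb]
    · by_cases hb : U < n
      · simp [ha, hb]
      · simp [ha, hb]
  have f1 : (range N).filter (fun U => U < n) = range n := by
    ext U
    simp only [Finset.mem_filter, Finset.mem_range]
    omega
  have f2 : (range N).filter (fun U => U < m) = range m := by
    ext U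
    simp only [Finset.mem_filter, Finset.mem_range]
    omega
  rw [Finset.sum_congr rfl e1, Finset.sum_add_distrib, Finset.sum_add_distrib,
    ← Finset.sum_filter, ← Finset.sum_filter, f1, f2]
  simp only [Finset.sum_const, Finset.card_range, nsmul_eq_mul]
  ring

theorem mean_C {P : Par} (hP : P.Ok) (V : Finset ℕ) (nE : Finset Ed → ℕ → ℚ) (κ : ℚ)
    (F : Finset ℕ → ℚ) (v0 : ℕ) (G0 : List Ed) (K : List ℕ) (f : Frame) (st : List Frame)
    (h : f.1 = (true, false)) :
    ∃ t : ℚ, 1 ≤ t * 2 ^ P.b ∧
      (∑ U ∈ range (2 ^ P.b),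
        Val P.lam P.y V nE κ F (stepM P U (false, ((v0, (G0, K)), f :: st)))) / 2 ^ P.b =
      Val P.lam P.y V nE κ F (false, ((v0, (G0, K)), f :: st)) - t * κ := by
  obtain ⟨hc, hca, hab, hy1, hy12, hW, hWb, hWp, hzl, hgl, hpl⟩ := hP
  have hb : (0 : ℚ) < 2 ^ P.b := by positivity
  have hb1 : (1 : ℚ) ≤ 1 * 2 ^ P.b := by
    rw [one_mul]
    exact one_le_pow₀ (by norm_num)
  have hf1 : f.1.1 = true := by rw [h]
  have hf2 : f.1.2 = false := by rw [h]
  by_cases hu : oth f.2.1.1 f.2.1.2 ∈ K
  · set X : ℚ := nE (insert f.2.1.2 f.2.2.1.toFinset) f.2.1.1 +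
            ∑ S ∈ V.powerset, q P.lam P.y (insert f.2.1.2 f.2.2.1.toFinset) f.2.1.1 S *
              RR P.lam P.y V nE κ F st S with hX
    set Y : ℚ := RR P.lam P.y V nE κ F st K.toFinset with hY
    set Z : ℚ := Val P.lam P.y V nE κ F (false, ((v0, (G0, K)), f :: st)) with hZ
    have e2 : Z = κ + (-P.y * X + (1 + P.y) * Y) := by
      rw [hZ]
      unfold Val
      rw [RR]
      simp [hf1, hf2, hu, hX, hY]
    have hW0 : (0 : ℚ) < P.W := by exact_mod_cast hW
    have hzW : P.zl ≤ P.W := by
      have hy2 : (0 : ℚ) < P.y2 := by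
        have : 0 < P.y2 := by omega
        exact_mod_cast this
      have h1 : -P.y ≤ 1 := by
        unfold Par.y
        rw [neg_neg, div_le_one hy2]
        exact_mod_cast hy12.le
      rw [← hzl, div_le_one hW0] at h1
      exact_mod_cast h1
    have e1 : ∀ U ∈ range (2 ^ P.b),
        Val P.lam P.y V nE κ F (stepM P U (false, ((v0, (G0, K)), f :: st))) =
          if U < P.zl then X else if U < P.W then Y else Z := by
      intro U _
      by_cases h1 : U < P.zl
      · rw [if_pos h1]
        have hs : stepM P U (false, ((v0, (G0, K)), f :: st)) =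
            ev f.2.1.1 (f.2.1.2 :: f.2.2.1) st := by
          simp [stepM, stepR, hf1, hf2, hu, h1]
        rw [hs]
        simp only [Val, if_true, hX, List.toFinset_cons]
      · rw [if_neg h1]
        by_cases h2 : U < P.W
        · rw [if_pos h2]
          have hs : stepM P U (false, ((v0, (G0, K)), f :: st)) = ret K st := by
            simp [stepM, stepR, hf1, hf2, hu, h1, h2]
          rw [hs]
          simp [Val, hY]
        · rw [if_neg h2]
          have hs : stepM P U (false, ((v0, (G0, K)), f :: st)) =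
              (false, ((v0, (G0, K)), f :: st)) := by
            simp [stepM, stepR, hf1, hf2, hu, h1, h2]
          rw [hs]
    refine ⟨P.W / 2 ^ P.b, ?_, ?_⟩
    · rw [div_mul_cancel₀ _ hb.ne']
      exact_mod_cast hW
    · rw [Finset.sum_congr rfl e1, sum_three _ _ _ hzW hWb]
      have e4 : (P.zl : ℚ) = -P.y * P.W := by
        rw [← hzl, div_mul_cancel₀ _ hW0.ne']
      have e5 : Z - κ = -P.y * X + (1 + P.y) * Y := by rw [e2]; ring
      have e6 : (P.zl : ℚ) * X + ((P.W : ℚ) - P.zl) * Y = P.W * (Z - κ) := by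
        rw [e5, e4]
        ring
      push_cast
      rw [e6]
      field_simp
      ring
  · refine ⟨1, hb1, ?_⟩
    have e1 : ∀ U ∈ range (2 ^ P.b),
        Val P.lam P.y V nE κ F (stepM P U (false, ((v0, (G0, K)), f :: st))) =
          RR P.lam P.y V nE κ F st K.toFinset := by
      intro U _
      have hs : stepM P U (false, ((v0, (G0, K)), f :: st)) = ret K st := by
        simp [stepM, stepR, hf1, hf2, hu]
      rw [hs]
      simp [Val]
    have e2 : Val P.lam P.y V nE κ F (false, ((v0, (G0, K)), f :: st)) =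
        κ + RR P.lam P.y V nE κ F st K.toFinset := by
      unfold Val
      rw [RR]
      simp [hf1, hf2, hu]
    rw [Finset.sum_congr rfl e1, e2, Finset.sum_const, Finset.card_range, nsmul_eq_mul]
    push_cast
    field_simp
    ring

end Pool.Agent.TFN
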