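import Pool.Agent.TFN.Br

set_option autoImplicit false

/-!
# TFN-MeanR: one return step of the machine, frames of types A and B

Adapted from `Pool/Agent/TFP/MeanR.lean`: the mean of the value function after one return step is its
old value minus `t * κ`.
-/

namespace Pool.Agent.TFN

open Finset Pool.Agent.TFP

private theorem mr_btwL_toFinset (v : ℕ) (K : List ℕ) (G : List Ed) :
    (btwL v K G).toFinset = btw v K.toFinset G.toFinset := by
  ext e
  simp [btwL, TFP.btw]

private theorem mr_outL_toFinset (K : List ℕ) (G : List Ed) :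
    (outL K G).toFinset = out K.toFinset G.toFinset := by
  ext e
  simp [outL, out]

private theorem mr_btw_le {D : ℕ} {v : ℕ} {K : Finset ℕ} {G : Finset Ed}
    (hd : (star v G).card ≤ D) : (btw v K G).card ≤ D := by
  refine (Finset.card_le_card ?_).trans hd
  intro e he
  simp only [TFP.btw, TFP.star, Finset.mem_filter] at he ⊢
  refine ⟨he.1, ?_⟩
  rcases he.2 with h | h
  · exact Or.inl h.1
  · exact Or.inr h.1

/-- the number of edges between `v` and `K`, computed by the machine -/
theorem jj_eq {P : Par} {v : ℕ} {K : List ℕ} {G : List Ed} (hn : G.Nodup)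
    (hd : (star v G.toFinset).card ≤ P.D) :
    jj P v K G = (btw v K.toFinset G.toFinset).card := by
  have h1 : (btwL v K G).Nodup := hn.filter _
  have h2 : (btwL v K G).length = (btw v K.toFinset G.toFinset).card := by
    rw [← mr_btwL_toFinset, List.toFinset_card_of_nodup h1]
  have h3 : (btw v K.toFinset G.toFinset).card ≤ P.D := mr_btw_le hd
  unfold jj
  rw [List.take_of_length_le (by omega), h2]

private theorem mr_sum_three (m n N : ℕ) (h1 : m ≤ n) (h2 : n ≤ N) (A T c : ℚ) :
    (∑ U ∈ range N, if U < m then A else if U < n then T else c) =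
      m * A + (n - m) * T + (N - n) * c := by
  have e1 : ∀ U ∈ range N, (if U < m then A else if U < n then T else c) =
      c + (if U < n then T - c else 0) + (if U < m then A - T else 0) := by
    intro U _
    by_cases ha : U < m
    · have hb : U < n := by omega
      simp [ha, hb]
    · by_cases hb : U < n
      · simp [ha, hb]
      · simp [ha, hb]
  have f1 : (range N).filter (fun U => U < n) = range n := by
    ext U
    simp only [Finset.mem_filter, Finset.mem_range]
    omega
  have f2 : (range N).filter (fun U => U < m) = range m := by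
    ext U
    simp only [Finset.mem_filter, Finset.mem_range]
    omega
  rw [Finset.sum_congr rfl e1, Finset.sum_add_distrib, Finset.sum_add_distrib,
    ← Finset.sum_filter, ← Finset.sum_filter, f1, f2]
  simp only [Finset.sum_const, Finset.card_range, nsmul_eq_mul]
  ring

theorem mean_R {P : Par} (hP : P.Ok) (V : Finset ℕ) (nE : Finset Ed → ℕ → ℚ) (κ : ℚ)
    (F : Finset ℕ → ℚ) (v0 : ℕ) (G0 : List Ed) (K : List ℕ) (f : Frame) (st : List Frame)
    (h : f.1.1 = true → f.1.2 = true ∧ f.2.2.1.Nodup ∧
      (star f.2.1.1 f.2.2.1.toFinset).card ≤ P.D) :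
    ∃ t : ℚ, 1 ≤ t * 2 ^ P.b ∧
      (∑ U ∈ range (2 ^ P.b),
        Val P.lam P.y V nE κ F (stepM P U (false, ((v0, (G0, K)), f :: st)))) / 2 ^ P.b =
      Val P.lam P.y V nE κ F (false, ((v0, (G0, K)), f :: st)) - t * κ := by
  obtain ⟨hc, hca, ha2, hy1, hy12, hW0, hW2, hWp, hz, hg, hp⟩ := hP
  have hb : (0 : ℚ) < 2 ^ P.b := by positivity
  have hb1 : (1 : ℚ) ≤ 1 * 2 ^ P.b := by
    rw [one_mul]
    exact one_le_pow₀ (by norm_num)
  have hWq : (0 : ℚ) < P.W := by exact_mod_cast hW0
  rcases hf : f.1.1 with _ | _
  · -- a frame of type B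
    refine ⟨1, hb1, ?_⟩
    have e1 : ∀ U ∈ range (2 ^ P.b),
        Val P.lam P.y V nE κ F (stepM P U (false, ((v0, (G0, K)), f :: st))) =
          RR P.lam P.y V nE κ F st (f.2.2.2.toFinset ∪ K.toFinset) := by
      intro U _
      simp [stepM, stepR, hf, Val]
    have e2 : Val P.lam P.y V nE κ F (false, ((v0, (G0, K)), f :: st)) =
        κ + RR P.lam P.y V nE κ F st (f.2.2.2.toFinset ∪ K.toFinset) := by
      simp [Val, RR, hf]
    rw [Finset.sum_congr rfl e1, e2, Finset.sum_const, Finset.card_range, nsmul_eq_mul]
    push_cast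
    field_simp
    ring
  · obtain ⟨hf2, hn, hd⟩ := h hf
    set A : ℚ := nE (out K.toFinset f.2.2.1.toFinset) f.2.1.1 +
            ∑ S ∈ V.powerset, q P.lam P.y (out K.toFinset f.2.2.1.toFinset) f.2.1.1 S *
              (κ + RR P.lam P.y V nE κ F st (K.toFinset ∪ S)) with hA
    set T : ℚ := nE (insert f.2.1.2 f.2.2.1.toFinset) f.2.1.1 +
            ∑ S ∈ V.powerset, q P.lam P.y (insert f.2.1.2 f.2.2.1.toFinset) f.2.1.1 S *
              RR P.lam P.y V nE κ F st S with hT
    have e2 : Val P.lam P.y V nE κ F (false, ((v0, (G0, K)), f :: st)) =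
        κ + (gK P.y f.2.1.1 K.toFinset f.2.2.1.toFinset * A +
          (1 - gK P.y f.2.1.1 K.toFinset f.2.2.1.toFinset) * T) := by
      simp only [Val, RR, hf, hf2, if_true, hA, hT]
      simp
    by_cases hv : f.2.1.1 ∈ K
    · refine ⟨1, hb1, ?_⟩
      have e1 : ∀ U ∈ range (2 ^ P.b),
          Val P.lam P.y V nE κ F (stepM P U (false, ((v0, (G0, K)), f :: st))) = T := by
        intro U _
        simp [stepM, stepR, hf, hf2, Val, hv, hT]
      have e3 : gK P.y f.2.1.1 K.toFinset f.2.2.1.toFinset = 0 := by
        simp [gK, hv]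
      rw [Finset.sum_congr rfl e1, e2, e3, Finset.sum_const, Finset.card_range, nsmul_eq_mul]
      push_cast
      field_simp
      ring
    · set j : ℕ := (btw f.2.1.1 K.toFinset f.2.2.1.toFinset).card with hj
      have hjj : jj P f.2.1.1 K f.2.2.1 = j := jj_eq hn hd
      have hjD : j ≤ P.D := mr_btw_le hd
      have hy2q : (0 : ℚ) < P.y2 := by
        have : 0 < P.y2 := by omega
        exact_mod_cast this
      have hy1q : (0 : ℚ) < P.y1 := by exact_mod_cast hy1
      have hy12q : (P.y1 : ℚ) < P.y2 := by exact_mod_cast hy12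
      have hyneg : P.y < 0 := by
        unfold Par.y
        have : 0 < (P.y1 : ℚ) / P.y2 := div_pos hy1q hy2q
        linarith
      have hygt : -1 < P.y := by
        unfold Par.y
        have : (P.y1 : ℚ) / P.y2 < 1 := (div_lt_one hy2q).2 hy12q
        linarith
      have hbr := br_mem hygt hyneg j
      have hgj : (nth P.gl j : ℚ) / P.W = 1 - br P.y j := hg j hjD
      have hle1 : nth P.gl j ≤ P.W := by
        have h1 : (nth P.gl j : ℚ) / P.W ≤ 1 := by rw [hgj]; linarith [hbr.1]
        have h2 := (div_le_one hWq).1 h1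
        exact_mod_cast h2
      set W : ℚ := Val P.lam P.y V nE κ F (false, ((v0, (G0, K)), f :: st)) with hW
      have e1 : ∀ U ∈ range (2 ^ P.b),
          Val P.lam P.y V nE κ F (stepM P U (false, ((v0, (G0, K)), f :: st))) =
            if U < nth P.gl j then A else if U < P.W then T else W := by
        intro U _
        by_cases h1 : U < nth P.gl j
        · rw [if_pos h1]
          have hs : stepM P U (false, ((v0, (G0, K)), f :: st)) =
              ev f.2.1.1 (outL K f.2.2.1) (frB K :: st) := by
            simp [stepM, stepR, hf, hf2, hv, hjj, h1]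
          rw [hs]
          simp only [Val, if_true, RR, mr_outL_toFinset, hA]
          simp
        · rw [if_neg h1]
          by_cases h2 : U < P.W
          · rw [if_pos h2]
            have hs : stepM P U (false, ((v0, (G0, K)), f :: st)) =
                ev f.2.1.1 (f.2.1.2 :: f.2.2.1) st := by
              simp [stepM, stepR, hf, hf2, hv, hjj, h1, h2]
            rw [hs]
            simp only [Val, if_true, hT, List.toFinset_cons]
          · rw [if_neg h2]
            have hs : stepM P U (false, ((v0, (G0, K)), f :: st)) =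
                (false, ((v0, (G0, K)), f :: st)) := by
              simp [stepM, stepR, hf, hf2, hv, hjj, h1, h2]
            rw [hs]
      have e3 : gK P.y f.2.1.1 K.toFinset f.2.2.1.toFinset = (nth P.gl j : ℚ) / P.W := by
        rw [hgj]
        simp [gK, hv, hj]
      refine ⟨P.W / 2 ^ P.b, ?_, ?_⟩
      · rw [div_mul_cancel₀ _ hb.ne']
        exact_mod_cast hW0
      · rw [Finset.sum_congr rfl e1, mr_sum_three _ _ _ hle1 hW2]
        rw [e3] at e2
        have e4 : W - κ = (nth P.gl j : ℚ) / P.W * A + (1 - (nth P.gl j : ℚ) / P.W) * T := by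
          rw [e2]; ring
        push_cast
        have e5 : (nth P.gl j : ℚ) * A + ((P.W : ℚ) - (nth P.gl j : ℚ)) * T =
            (P.W : ℚ) * (W - κ) := by
          rw [e4]
          field_simp
        rw [e5]
        field_simp
        ring

end Pool.Agent.TFN
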