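import Pool.Agent.TFN.MeanE
import Pool.Agent.TFN.MeanR
import Pool.Agent.TFN.MeanC
import Pool.Agent.TFN.InvS
import Pool.Agent.TFN.DcLow

set_option autoImplicit false

/-!
# TFN-Drift: the value function is harmonic, the potential decreases by at least 1

Model: `Pool/Agent/TFP/Drift.lean` (finished; copy and adapt). New: frames of type C are handled by `mean_C`
(`f.1.1 = true`, `f.1.2 = false`).
-/

namespace Pool.Agent.TFN

open Finset Pool.Agent.TFP

private lemma mem_at {v : ℕ} {G : List Ed} {e : Ed} {l : List Ed} (he : atL v G = e :: l) :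
    e ∈ G ∧ Jn e v (oth v e) := by
  have h : e ∈ atL v G := by rw [he]; exact List.mem_cons_self
  unfold atL at h
  rw [List.mem_filter] at h
  obtain ⟨h1, h2⟩ := h
  refine ⟨h1, ?_⟩
  have h3 : e.2.1 = v ∨ e.2.2 = v := by simpa using h2
  unfold Jn oth
  by_cases h4 : e.2.1 = v
  · left; simp [h4]
  · right
    rcases h3 with h3 | h3
    · exact absurd h3 h4
    · simp [h4, h3]

private lemma sum_const_div (b : ℕ) (g : ℕ → ℚ) (c : ℚ) (h : ∀ U, g U = c) :
    (∑ U ∈ range (2 ^ b), g U) / 2 ^ b = c := by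
  rw [Finset.sum_congr rfl (fun U _ => h U), Finset.sum_const, card_range, nsmul_eq_mul]
  have h2 : (2 : ℚ) ^ b ≠ 0 := by positivity
  push_cast
  field_simp

/-- the mean at a return state, whatever the type of the frame -/
private lemma mean_F {P : Par} (hP : P.Ok) {V : Finset ℕ} (nE : Finset Ed → ℕ → ℚ) (κ : ℚ)
    (F : Finset ℕ → ℚ) (v0 : ℕ) (G0 : List Ed) (K : List ℕ) (f : Frame) (st : List Frame)
    (hs : Inv V P.D (false, ((v0, (G0, K)), f :: st))) :
    ∃ t : ℚ, 1 ≤ t * 2 ^ P.b ∧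
      (∑ U ∈ range (2 ^ P.b),
        Val P.lam P.y V nE κ F (stepM P U (false, ((v0, (G0, K)), f :: st)))) / 2 ^ P.b =
      Val P.lam P.y V nE κ F (false, ((v0, (G0, K)), f :: st)) - t * κ := by
  by_cases hC : f.1 = (true, false)
  · exact mean_C hP V nE κ F v0 G0 K f st hC
  · refine mean_R hP V nE κ F v0 G0 K f st fun hf => ?_
    obtain ⟨h1, h2, -, -⟩ := hs.2 f List.mem_cons_self hf
    refine ⟨?_, (List.nodup_cons.1 h1).2, le_trans (card_le_card ?_) (h2.2.2 f.2.1.1)⟩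
    · by_contra h3
      exact hC (Prod.ext hf (by simpa using h3))
    · unfold Pool.Agent.TFP.star
      refine filter_subset_filter _ ?_
      rw [List.toFinset_cons]
      exact subset_insert _ _

theorem harm {P : Par} (hP : P.Ok) {V : Finset ℕ} (F : Finset ℕ → ℚ) {s : St}
    (hs : Inv V P.D s) :
    (∑ U ∈ range (2 ^ P.b), Val P.lam P.y V (fun _ _ => 0) 0 F (stepM P U s)) / 2 ^ P.b =
      Val P.lam P.y V (fun _ _ => 0) 0 F s := by
  obtain ⟨b, ⟨v, G, K0⟩, st⟩ := s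
  cases b with
  | true =>
    obtain ⟨hn, hC, hv⟩ := hs.1 rfl
    rcases hat : atL v G with _ | ⟨e, l⟩
    · refine sum_const_div _ _ _ fun U => ?_
      rw [mean_E0 hP hC.1 hv (fun _ _ => 0) 0 F K0 st hat U, sub_zero]
    · rw [mean_E hP hn hC.1 hC.2.1 (fun _ _ => 0) 0 F K0 st hat]
      simp [Dcost]
  | false =>
    rcases st with _ | ⟨f, st⟩
    · refine sum_const_div _ _ _ fun U => ?_
      simp [stepM]
    · obtain ⟨t, -, ht⟩ := mean_F hP (fun _ _ => 0) 0 F v G K0 f st hs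
      rw [ht, mul_zero, sub_zero]

theorem drift {P : Par} (hP : P.Ok) {V : Finset ℕ} {B : ℚ} (hB0 : 0 ≤ B)
    (hB : 5 ≤ B * (1 - P.lam / (1 + P.lam) * P.D * (1 - P.y + P.y * (P.lam / (1 + P.lam)))))
    {s : St} (hs : Inv V P.D s) (hT : isT s = false) :
    (∑ U ∈ range (2 ^ P.b), Pot P V B (stepM P U s)) / 2 ^ P.b ≤ Pot P V B s - 1 := by
  obtain ⟨b, ⟨v, G, K0⟩, st⟩ := s
  have h2 : (1 : ℚ) ≤ 2 ^ P.b := one_le_pow₀ (by norm_num)
  unfold Pot
  cases b with
  | true =>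
    obtain ⟨hn, hC, hv⟩ := hs.1 rfl
    rcases hat : atL v G with _ | ⟨e, l⟩
    · rw [sum_const_div _ _ _ fun U => mean_E0 hP hC.1 hv
        (fun G v => 2 ^ P.b * (1 + B * (star v G).card)) (2 ^ P.b) (fun _ => 0) K0 st hat U]
      have h3 : (0 : ℚ) ≤ B * ((star v G.toFinset).card : ℚ) := mul_nonneg hB0 (Nat.cast_nonneg _)
      have h4 : (1 : ℚ) ≤ 2 ^ P.b * (1 + B * ((star v G.toFinset).card : ℚ)) := by nlinarith
      linarith
    · rw [mean_E hP hn hC.1 hC.2.1 (fun G v => 2 ^ P.b * (1 + B * (star v G).card)) (2 ^ P.b)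
        (fun _ => 0) K0 st hat]
      obtain ⟨he, hJ⟩ := mem_at hat
      obtain ⟨hl, hy0, hy1, -, -⟩ := Par.facts hP
      have h3 := Dcost_low (κ := 2 ^ P.b) hl hy0 hy1 hC (List.mem_toFinset.2 he) hJ hB0
        (by positivity) hB
      have ha : (1 : ℚ) ≤ P.a := by
        have : 1 ≤ P.a := lt_of_le_of_lt (Nat.zero_le _) hP.2.1
        exact_mod_cast this
      have h4 : (1 : ℚ) ≤ P.a / 2 ^ P.b * Dcost P.lam P.y V
          (fun G v => 2 ^ P.b * (1 + B * (star v G).card)) (2 ^ P.b) G.toFinset v (oth v e) e := by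
        calc (1 : ℚ) ≤ P.a := ha
          _ = P.a / 2 ^ P.b * 2 ^ P.b := by field_simp
          _ ≤ _ := mul_le_mul_of_nonneg_left h3 (by positivity)
      linarith
  | false =>
    rcases st with _ | ⟨f, st⟩
    · simp [isT] at hT
    · obtain ⟨t, ht1, ht⟩ := mean_F hP (fun G v => 2 ^ P.b * (1 + B * (star v G).card)) (2 ^ P.b)
        (fun _ => 0) v G K0 f st hs
      rw [ht]
      linarith

end Pool.Agent.TFN
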