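import Pool.Agent.TFN.FacA
import Pool.Agent.TFN.ProdE
import Pool.Agent.TFN.NumR

set_option autoImplicit false

/-!
# TFN-EstG: the estimator of `Z` is good with probability at least 3/4
-/

namespace Pool.Agent.TFN

open Finset Pool.Agent.TFP

private theorem length_facs (P : Par) (k L : ℕ) (E : List Ed) :
    (facs P k L E).length = E.length := by
  induction E with
  | nil => rfl
  | cons e E ih => rw [facs, List.length_cons, ih, List.length_cons]

theorem est_good {P : Par} (hP : P.Ok) {V : Finset ℕ} {B : ℚ} (hB0 : 0 ≤ B)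
    (hB : 5 ≤ B * (1 - P.lam / (1 + P.lam) * P.D * (1 - P.y + P.y * (P.lam / (1 + P.lam)))))
    {k L : ℕ} (hk : 0 < k) (hL : 0 < L) {E : List Ed} (hn : E.Nodup)
    (hC : Cl V P.D E.toFinset) {η : ℚ} (hη : 0 < η) (hη1 : η ≤ 1)
    (h0 : (1 + P.lam) ^ 2 * (2 ^ P.b * (1 + B * P.D) / L) ≤ 1 / 2)
    (h1 : E.length * ((1 + P.lam) ^ 2 * (2 ^ P.b * (1 + B * P.D) / L)) ≤ η)
    (h2 : 8 * E.length * (4 * (1 + P.lam) ^ 4 / k) ≤ η ^ 2) :
    3 / 4 ≤ avg (E.length * (k * (L * P.b)))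
      (fun l => if |(numer P k L E l : ℚ) / denom P k E - Z P.lam P.y E.toFinset| ≤
        2 * η * Z P.lam P.y E.toFinset then 1 else 0) := by
  obtain ⟨hl, hy0, hy1, -, -⟩ := Par.facts hP
  have hf := facs_good hP hB0 hB hk hL h0 hn hC
  have hlen := length_facs P k L E
  have key := prod_good (k * (L * P.b)) (facs P k L E) (zs P.lam P.y V E)
    ((1 + P.lam) ^ 2 * (2 ^ P.b * (1 + B * P.D) / L)) (4 * (1 + P.lam) ^ 4 / k) η hf
    (by positivity) (by linarith) (by positivity) hη hη1 (by rw [hlen]; exact h1)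
    (by rw [hlen]; exact h2)
  rw [hlen, zs_prod hl hy0 hy1 hn hC.1 hC.2.1] at key
  simp only [numer_eq hP hk]
  exact key

end Pool.Agent.TFN
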