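import Pool.Agent.TFN.Defs
import Pool.Agent.TFP.Avg

set_option autoImplicit false

/-!
# TFN-SumA: mean and second moment of the sum of `k` independent trials

Plan. `n = L * b`, `(k+1) * n = n + k * n`, `avg_take_drop`, linearity. `X = trial`, `Y_k = sumT .. k`, `τ = avg n X`.
* `sum_mean`: `avg Y_{k+1} = τ + avg Y_k`.
* `sum_sq`: `avg Y_{k+1}² = avg X² + 2 τ avg Y_k + avg Y_k² ≤ W² + 2 k τ² + (k τ)² + k W² ≤ ((k+1) τ)² + (k+1) W²`,
  `X² ≤ W²` (`avg_mono`, `avg_const`), `sum_mean`.
-/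

namespace Pool.Agent.TFN

open Finset Pool.Agent.TFP

private theorem sa_cast (P : Par) (L : ℕ) (e : Ed) (E : List Ed) (k : ℕ) (l : List Bool) :
    (sumT P L e E (k + 1) l : ℚ) =
      (trial P L e E (l.take (L * P.b)) : ℚ) + (sumT P L e E k (l.drop (L * P.b)) : ℚ) := by
  show ((trial P L e E (l.take (L * P.b)) + sumT P L e E k (l.drop (L * P.b)) : ℕ) : ℚ) = _
  push_cast
  rfl

private theorem sa_len (k n : ℕ) : (k + 1) * n = n + k * n := by ring

theorem sum_mean (P : Par) (L : ℕ) (e : Ed) (E : List Ed) (k : ℕ) :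
    avg (k * (L * P.b)) (fun l => (sumT P L e E k l : ℚ)) =
      k * avg (L * P.b) (fun l => (trial P L e E l : ℚ)) := by
  induction k with
  | zero =>
    have h : (fun l => (sumT P L e E 0 l : ℚ)) = fun _ => (0 : ℚ) := by
      funext l
      simp [sumT]
    rw [h, avg_const]
    simp
  | succ k ih =>
    have h : (fun l => (sumT P L e E (k + 1) l : ℚ)) = fun l =>
        (fun l1 l2 => (trial P L e E l1 : ℚ) + (sumT P L e E k l2 : ℚ))
          (l.take (L * P.b)) (l.drop (L * P.b)) := by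
      funext l
      exact sa_cast P L e E k l
    rw [h, sa_len, avg_take_drop (L * P.b) (k * (L * P.b))
      (fun l1 l2 => (trial P L e E l1 : ℚ) + (sumT P L e E k l2 : ℚ))]
    have h2 : (fun l => avg (k * (L * P.b)) fun l' =>
        (trial P L e E l : ℚ) + (sumT P L e E k l' : ℚ)) =
        fun l => (trial P L e E l : ℚ) + k * avg (L * P.b) (fun l => (trial P L e E l : ℚ)) := by
      funext l
      rw [avg_add, avg_const, ih]
    rw [h2, avg_add, avg_const]
    push_cast
    ring

theorem sum_sq (P : Par) (L : ℕ) (e : Ed) (E : List Ed) (k : ℕ) (W : ℚ)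
    (hW : ∀ l, (trial P L e E l : ℚ) ≤ W) :
    avg (k * (L * P.b)) (fun l => (sumT P L e E k l : ℚ) ^ 2) ≤
      (k * avg (L * P.b) (fun l => (trial P L e E l : ℚ))) ^ 2 + k * W ^ 2 := by
  induction k with
  | zero =>
    have h : (fun l => (sumT P L e E 0 l : ℚ) ^ 2) = fun _ => (0 : ℚ) := by
      funext l
      simp [sumT]
    rw [h, avg_const]
    simp
  | succ k ih =>
    have h : (fun l => (sumT P L e E (k + 1) l : ℚ) ^ 2) = fun l =>
        (fun l1 l2 => (trial P L e E l1 : ℚ) ^ 2 +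
          ((2 * (trial P L e E l1 : ℚ)) * (sumT P L e E k l2 : ℚ) + (sumT P L e E k l2 : ℚ) ^ 2))
          (l.take (L * P.b)) (l.drop (L * P.b)) := by
      funext l
      rw [sa_cast P L e E k l]
      ring
    rw [h, sa_len, avg_take_drop (L * P.b) (k * (L * P.b))
      (fun l1 l2 => (trial P L e E l1 : ℚ) ^ 2 +
          ((2 * (trial P L e E l1 : ℚ)) * (sumT P L e E k l2 : ℚ) + (sumT P L e E k l2 : ℚ) ^ 2))]
    have h2 : (fun l => avg (k * (L * P.b)) fun l' =>
        (trial P L e E l : ℚ) ^ 2 +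
          ((2 * (trial P L e E l : ℚ)) * (sumT P L e E k l' : ℚ) + (sumT P L e E k l' : ℚ) ^ 2)) =
        fun l => (trial P L e E l : ℚ) ^ 2 +
          ((2 * (k * avg (L * P.b) (fun l => (trial P L e E l : ℚ)))) * (trial P L e E l : ℚ) +
            avg (k * (L * P.b)) (fun l => (sumT P L e E k l : ℚ) ^ 2)) := by
      funext l
      rw [avg_add, avg_const, avg_add, avg_smul, sum_mean]
      ring
    rw [h2, avg_add, avg_add, avg_smul, avg_const]
    have h3 : avg (L * P.b) (fun l => (trial P L e E l : ℚ) ^ 2) ≤ W ^ 2 := by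
      have h4 : avg (L * P.b) (fun l => (trial P L e E l : ℚ) ^ 2) ≤
          avg (L * P.b) (fun _ => W ^ 2) := by
        refine avg_mono fun l _ => ?_
        exact pow_le_pow_left₀ (Nat.cast_nonneg _) (hW l) 2
      rwa [avg_const] at h4
    have h6 := ih
    push_cast
    set τ := avg (L * P.b) (fun l => (trial P L e E l : ℚ)) with hτ
    have h7 : 0 ≤ τ ^ 2 := sq_nonneg τ
    nlinarith [h3, h6, h7]

end Pool.Agent.TFN
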