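import Pool.Agent.TFN.TrialA
import Pool.Agent.TFN.SumA

set_option autoImplicit false

/-!
# TFN-FacA: mean and second moment of one estimated factor

Model: `Pool/Agent/TFP/FacA.lean` (finished).

Plan. `f l = 1 / (k Wp) * sumT .. l`, `τ = avg trial / Wp`, `z = rt .. E u v`, `δ0 = 2^b (1 + B D) / L`, `W = (1 + lam) Wp`
(`trial_le`). `avg f = τ` (`sum_mean`), `z - (1+lam) δ0 ≤ τ ≤ z` (`trial_mean`), `z ≥ 1/(1+lam)` (`rt_ge`; `v ≠ u` by `NL`,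
`u, v ∈ V`), so `z (1 - (1+lam)² δ0) ≤ τ` and by `hδ`: `τ ≥ z / 2 ≥ 1 / (2 (1+lam))`.
`avg f² ≤ (1/(k Wp))² ((k τ Wp)² + k (1+lam)² Wp²) = τ² + (1+lam)²/k ≤ τ² (1 + 4 (1+lam)^4 / k)` (`sum_sq`).
The list version by induction on `E` (`Cl.mono`, `List.nodup_cons`).
-/

namespace Pool.Agent.TFN

open Finset Pool.Agent.TFP

private theorem fa_num {lam τ δ z : ℚ} (hl : 0 < lam) (hδ : 0 ≤ δ) (hz : 1 / (1 + lam) ≤ z)
    (h1 : z - (1 + lam) * δ ≤ τ) (h2 : τ ≤ z) (h3 : (1 + lam) ^ 2 * δ ≤ 1 / 2) (k : ℕ) {F : ℚ}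
    (hF : F ≤ τ ^ 2 + (1 + lam) ^ 2 / k) :
    0 < z ∧ z * (1 - (1 + lam) ^ 2 * δ) ≤ τ ∧ τ ≤ z ∧
      F ≤ τ ^ 2 * (1 + 4 * (1 + lam) ^ 4 / k) := by
  have hl1 : 0 < 1 + lam := by linarith
  have hz0 : 0 < z := lt_of_lt_of_le (by positivity) hz
  have hz1 : 1 ≤ z * (1 + lam) := by
    rwa [div_le_iff₀ hl1] at hz
  have h4 : z * (1 - (1 + lam) ^ 2 * δ) ≤ τ := by
    have h5 : 0 ≤ (z * (1 + lam) - 1) * ((1 + lam) * δ) :=
      mul_nonneg (by linarith) (mul_nonneg hl1.le hδ)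
    have h6 : z * (1 - (1 + lam) ^ 2 * δ) =
        z - (1 + lam) * δ - (z * (1 + lam) - 1) * ((1 + lam) * δ) := by ring
    rw [h6]
    linarith
  refine ⟨hz0, h4, h2, ?_⟩
  have h7 : z * (1 / 2) ≤ z * (1 - (1 + lam) ^ 2 * δ) :=
    mul_le_mul_of_nonneg_left (by linarith) hz0.le
  have h8 : 1 ≤ 2 * (1 + lam) * τ := by
    have h9 : (1 + lam) * (z * (1 / 2)) ≤ (1 + lam) * τ :=
      mul_le_mul_of_nonneg_left (h7.trans h4) hl1.le
    have h10 : (1 + lam) * (z * (1 / 2)) = z * (1 + lam) / 2 := by ring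
    have h11 : 2 * (1 + lam) * τ = 2 * ((1 + lam) * τ) := by ring
    rw [h11]
    linarith
  have h12 : 1 ≤ (2 * (1 + lam) * τ) ^ 2 := one_le_pow₀ h8
  have hk0 : (0 : ℚ) ≤ (1 + lam) ^ 2 / k := div_nonneg (sq_nonneg _) (Nat.cast_nonneg _)
  have h13 : (1 + lam) ^ 2 / k * 1 ≤ (1 + lam) ^ 2 / k * (2 * (1 + lam) * τ) ^ 2 :=
    mul_le_mul_of_nonneg_left h12 hk0
  have h14 : τ ^ 2 * (1 + 4 * (1 + lam) ^ 4 / k) =
      τ ^ 2 + (1 + lam) ^ 2 / k * (2 * (1 + lam) * τ) ^ 2 := by ring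
  rw [h14]
  linarith

private theorem fa_mean (P : Par) {k : ℕ} (hk : 0 < k) (L : ℕ) (e : Ed) (E : List Ed) :
    avg (k * (L * P.b)) (fun l => 1 / (k * P.Wp) * (sumT P L e E k l : ℚ)) =
      avg (L * P.b) (fun l => (trial P L e E l : ℚ)) / P.Wp := by
  have hk' : (k : ℚ) ≠ 0 := by exact_mod_cast hk.ne'
  rw [avg_smul (k * (L * P.b)) (1 / (k * P.Wp)) (fun l => (sumT P L e E k l : ℚ)), sum_mean,
    one_div, mul_inv, div_eq_mul_inv]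
  generalize avg (L * P.b) (fun l => (trial P L e E l : ℚ)) = A
  have h1 : (k : ℚ)⁻¹ * (P.Wp : ℚ)⁻¹ * (k * A) = (k : ℚ)⁻¹ * k * (A * (P.Wp : ℚ)⁻¹) := by ring
  rw [h1, inv_mul_cancel₀ hk', one_mul]

private theorem fa_sq (P : Par) {k : ℕ} (hk : 0 < k) (hWp : (P.Wp : ℚ) ≠ 0) (L : ℕ) (e : Ed)
    (E : List Ed) (hW : ∀ l, (trial P L e E l : ℚ) ≤ (1 + P.lam) * P.Wp) :
    avg (k * (L * P.b)) (fun l => (1 / (k * P.Wp) * (sumT P L e E k l : ℚ)) ^ 2) ≤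
      (avg (L * P.b) (fun l => (trial P L e E l : ℚ)) / P.Wp) ^ 2 + (1 + P.lam) ^ 2 / k := by
  have hk' : (k : ℚ) ≠ 0 := by exact_mod_cast hk.ne'
  have h1 : (fun l => (1 / (k * P.Wp) * (sumT P L e E k l : ℚ)) ^ 2) = fun l =>
      (1 / (k * P.Wp)) ^ 2 * (sumT P L e E k l : ℚ) ^ 2 := by
    funext l
    ring
  rw [h1, avg_smul (k * (L * P.b)) ((1 / (k * P.Wp)) ^ 2) (fun l => (sumT P L e E k l : ℚ) ^ 2)]
  have h2 := mul_le_mul_of_nonneg_left (sum_sq P L e E k _ hW) (sq_nonneg (1 / (k * (P.Wp : ℚ))))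
  generalize avg (L * P.b) (fun l => (trial P L e E l : ℚ)) = A at h2 ⊢
  have h3 : (1 / (k * (P.Wp : ℚ))) ^ 2 * ((k * A) ^ 2 + k * ((1 + P.lam) * P.Wp) ^ 2) =
      (A / P.Wp) ^ 2 + (1 + P.lam) ^ 2 / k := by
    field_simp
  rw [h3] at h2
  exact h2

theorem facs_good {P : Par} (hP : P.Ok) {V : Finset ℕ} {B : ℚ} (hB0 : 0 ≤ B)
    (hB : 5 ≤ B * (1 - P.lam / (1 + P.lam) * P.D * (1 - P.y + P.y * (P.lam / (1 + P.lam)))))
    {k L : ℕ} (hk : 0 < k) (hL : 0 < L)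
    (hδ : (1 + P.lam) ^ 2 * (2 ^ P.b * (1 + B * P.D) / L) ≤ 1 / 2)
    {E : List Ed} (hn : E.Nodup) (hC : Cl V P.D E.toFinset) :
    List.Forall₂ (fun f z => 0 < z ∧
      z * (1 - (1 + P.lam) ^ 2 * (2 ^ P.b * (1 + B * P.D) / L)) ≤ avg (k * (L * P.b)) f ∧
      avg (k * (L * P.b)) f ≤ z ∧
      avg (k * (L * P.b)) (fun l => f l ^ 2) ≤
        avg (k * (L * P.b)) f ^ 2 * (1 + 4 * (1 + P.lam) ^ 4 / k))
      (facs P k L E) (zs P.lam P.y V E) := by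
  obtain ⟨hl, hy0, hy1, _, _⟩ := Par.facts hP
  have hWp : (P.Wp : ℚ) ≠ 0 := by
    have h2 : 0 < P.Wp := hP.2.2.2.2.2.2.2.1
    exact_mod_cast h2.ne'
  have hδ0 : (0 : ℚ) ≤ 2 ^ P.b * (1 + B * P.D) / L :=
    div_nonneg (mul_nonneg (by positivity)
      (add_nonneg zero_le_one (mul_nonneg hB0 (Nat.cast_nonneg _)))) (Nat.cast_nonneg _)
  induction E with
  | nil => exact List.Forall₂.nil
  | cons e E ih =>
    have hsub : E.toFinset ⊆ (e :: E).toFinset := by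
      intro f hf
      rw [List.mem_toFinset] at hf ⊢
      exact List.mem_cons_of_mem _ hf
    have he : e ∈ (e :: E).toFinset := List.mem_toFinset.2 (List.mem_cons_self ..)
    have hnE : E.Nodup := (List.nodup_cons.1 hn).2
    have hCE := hC.mono hsub
    refine List.Forall₂.cons ?_ (ih hnE hCE)
    have hu : e.2.2 ∈ V := hC.2.1 (Finset.mem_union_right _ (Finset.mem_image_of_mem _ he))
    have hv : e.2.1 ∈ V := hC.2.1 (Finset.mem_union_left _ (Finset.mem_image_of_mem _ he))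
    have hz := rt_ge hl hy0 hy1 hCE.1 hCE.2.1 hu hv (hC.1 e he)
    obtain ⟨h1, h2⟩ := trial_mean hP hB0 hB hL hn hC
    have hF := fa_sq P hk hWp L e E (fun l => trial_le hP L e E l)
    have h4 := fa_num hl hδ0 hz h1 h2 hδ k hF
    rw [← fa_mean P hk L e E] at h4
    exact h4

end Pool.Agent.TFN
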