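import Pool.Agent.TFN.FpN
import Pool.Agent.TFP.FpA

set_option autoImplicit false

/-!
# TFN-FpA: the algorithm and its polynomial running time

Model: `Pool/Agent/TFP/FpA.lean` (finished; copy and adapt). The sign: `FP.ite` with `FP.odd (lps ..)`
(Helper47/TR/FPx), `FP.intNeg`, `FP.intPos`: `alg` has the first component
`if (lps ..).length % 2 = 1 then -n else n` with a natural number `n`.
-/

namespace Pool.Agent.TFN

open Turing Function N487b59b3 N68a2faeb Pool.Agent.Helper22 Pool.Agent.Helper6.WB Computability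
  Pool.Agent.Helper47.TR Pool.Agent.TFP

/-- absolute value of the numerator -/
def algN (P : Par) (C1 C2 : ℕ) (inp : (MG × List Bool) × List Bool) : ℕ :=
  (P.a - P.c) ^ (mergers inp.1.1).length * P.y1 ^ (lps inp.1.1.2).length *
    numer P (C1 * tt inp.1 ^ 3) (C2 * tt inp.1 ^ 2) (nlE inp.1.1.2) inp.2

/-- the algorithm -/
def alg (P : Par) (C1 C2 : ℕ) (inp : (MG × List Bool) × List Bool) : ℤ × ℕ :=
  (if (lps inp.1.1.2).length % 2 = 1 then -(algN P C1 C2 inp : ℤ) else (algN P C1 C2 inp : ℤ),
    P.c ^ (mergers inp.1.1).length * P.y2 ^ (lps inp.1.1.2).length *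
      denom P (C1 * tt inp.1 ^ 3) (nlE inp.1.1.2))

theorem alg_poly (P : Par) (C1 C2 : ℕ) : N68a2faeb.IsPolyTime (alg P C1 C2) := by
  rw [isPolyTime_iff]
  have hG : FP fun inp : (MG × List Bool) × List Bool => inp.1.1 := by fun_prop
  have hE : FP fun inp : (MG × List Bool) × List Bool => inp.1.1.2 := by fun_prop
  have hN : FP fun inp : (MG × List Bool) × List Bool => inp.1.2 := by fun_prop
  have hr : FP fun inp : (MG × List Bool) × List Bool => inp.2 := by fun_prop
  have hT : FP fun inp : (MG × List Bool) × List Bool =>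
      un inp.1.1.2.length ++ (inp.1.2 ++ [true]) :=
    FP.append (FP.un_length hE) (FP.append hN (FP.const [true]))
  have hTl : ∀ inp : (MG × List Bool) × List Bool,
      (un inp.1.1.2.length ++ (inp.1.2 ++ [true])).length = tt inp.1 := by
    intro inp
    simp only [List.length_append, Helper22.un_length, List.length_singleton, tt]
    ring
  have hk := FP.un_poly hT (Polynomial.C C1 * Polynomial.X ^ 3)
  have hL := FP.un_poly hT (Polynomial.C C2 * Polynomial.X ^ 2)
  simp only [hTl, Polynomial.eval_mul, Polynomial.eval_C, Polynomial.eval_pow,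
    Polynomial.eval_X] at hk hL
  have hn := TFN.FP.numer P hk hL (FP.nlE hE) hr
  have hd := TFN.FP.denom P hk (FP.nlE hE)
  simp only [Helper22.un_length] at hn hd
  have hm := FP.mergers hG
  have hl := FP.lps hE
  have e1 : FP fun inp : (MG × List Bool) × List Bool =>
      (P.a - P.c) ^ (mergers inp.1.1).length := FP.powU (FP.const (P.a - P.c)) hm
  have e2 : FP fun inp : (MG × List Bool) × List Bool =>
      P.y1 ^ (lps inp.1.1.2).length := FP.powU (FP.const P.y1) hl
  have e3 : FP fun inp : (MG × List Bool) × List Bool =>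
      P.c ^ (mergers inp.1.1).length := FP.powU (FP.const P.c) hm
  have e4 : FP fun inp : (MG × List Bool) × List Bool =>
      P.y2 ^ (lps inp.1.1.2).length := FP.powU (FP.const P.y2) hl
  have hN' : FP (algN P C1 C2) := FP.natMul (FP.natMul e1 e2) hn
  have hodd : FP fun inp : (MG × List Bool) × List Bool =>
      decide ((lps inp.1.1.2).length % 2 = 1) := FP.odd hl
  have hsgn := FP.ite hodd (FP.intNeg hN') (FP.intPos hN')
  simp only [decide_eq_true_eq] at hsgn
  exact FP.pair hsgn (FP.natMul (FP.natMul e3 e4) hd)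

end Pool.Agent.TFN
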