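import Pool.Agent.TFN.Defs
import Pool.Agent.TFP.SzS

set_option autoImplicit false

/-!
# TFN-SzS: the size of the states grows polynomially

Model: `Pool/Agent/TFP/SzS.lean` (finished; copy and adapt). The frames have one more Bool, and there is one more
kind of frame (type C, same data as type A). The constant 1000 may be too small by a little: take care that
the final bound `10000 * (i + sz p + 1) ^ 3` holds.
-/

namespace Pool.Agent.TFN

open Turing Function N487b59b3 N68a2faeb Pool.Agent.Helper22 Pool.Agent.Helper6.WB Computability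
  Pool.Agent.Helper47.TR Pool.Agent.TFP

/-- one step of the machine together with the consumption of random bits -/
def rstep (P : Par) (p : List Bool × St) : List Bool × St :=
  (p.1.drop P.b, stepM P (Helper6.WB.val (p.1.take P.b)) p.2)

theorem runM_eq (P : Par) (L : ℕ) (l : List Bool) (s : St) :
    runM P L l s = ((rstep P)^[L] (l, s)).2 := by
  induction L generalizing l s with
  | zero => rfl
  | succ L ih =>
    rw [Function.iterate_succ_apply]
    show runM P L (l.drop P.b) (stepM P (Helper6.WB.val (l.take P.b)) s) = _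
    rw [ih]
    rfl

private theorem szs_filter {β : Type} [N487b59b3 β] (q : β → Bool) (l : List β) :
    sz (l.filter q) ≤ sz l := by
  induction l with
  | nil => exact le_rfl
  | cons a l ih =>
    rw [List.filter_cons, sz_cons]
    split_ifs
    · rw [sz_cons]
      omega
    · omega

private theorem szs_del {e : Ed} {G : List Ed} (h : e ∈ G) : sz (e :: delL e G) ≤ sz G := by
  induction G with
  | nil => exact absurd h List.not_mem_nil
  | cons g G ih =>
    rw [sz_cons, sz_cons]
    by_cases hg : g = e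
    · subst hg
      have h1 : delL g (g :: G) = delL g G := by
        unfold delL
        rw [List.filter_cons, if_neg (by simp)]
      rw [h1]
      have h2 : sz (delL g G) ≤ sz G := szs_filter _ _
      omega
    · have h1 : delL e (g :: G) = g :: delL e G := by
        unfold delL
        rw [List.filter_cons, if_pos (by simp [hg])]
      rw [h1, sz_cons]
      have h2 : e ∈ G := by
        rcases List.mem_cons.1 h with h3 | h3
        · exact absurd h3.symm hg
        · exact h3
      have h3 := ih h2
      rw [sz_cons] at h3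
      omega

private theorem szs_oth (v : ℕ) (e : Ed) : sz (oth v e) ≤ sz e := by
  obtain ⟨a, b, c⟩ := e
  unfold oth
  rw [sz_pair, sz_pair]
  split_ifs
  · show sz c ≤ _
    omega
  · show sz b ≤ _
    omega

/-- the bounds of the parts of a state -/
private def BdS (M κ n : ℕ) (s : St) : Prop :=
  sz s.2.1.1 ≤ M ∧ sz s.2.1.2.1 ≤ M ∧ s.2.2.length ≤ n ∧
  (∀ f ∈ s.2.2, sz f.2.1.1 ≤ M ∧ sz (f.2.1.2 :: f.2.2.1) ≤ M) ∧
  sz s.2.1.2.2 + (s.2.2.map (fun f : Frame => sz f.2.2.2)).sum ≤ κ

private theorem BdS.mono {M κ n κ' n' : ℕ} {s : St} (h : BdS M κ n s) (h1 : κ ≤ κ') (h2 : n ≤ n') :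
    BdS M κ' n' s :=
  ⟨h.1, h.2.1, h.2.2.1.trans h2, h.2.2.2.1, h.2.2.2.2.trans h1⟩

private theorem szs_zero : sz (0 : ℕ) = 0 := by
  rw [sz_nat, Nat.size_zero]

private theorem szs_ret {M κ n : ℕ} {K : List ℕ} {st : List Frame} (h3 : st.length ≤ n)
    (h4 : ∀ f ∈ st, sz f.2.1.1 ≤ M ∧ sz (f.2.1.2 :: f.2.2.1) ≤ M)
    (h5 : sz K + (st.map (fun f : Frame => sz f.2.2.2)).sum ≤ κ) : BdS M κ n (ret K st) :=
  ⟨by
    show sz (0 : ℕ) ≤ M
    rw [szs_zero]
    exact Nat.zero_le _, Nat.zero_le _, h3, h4, h5⟩

private theorem szs_ev {M κ n v : ℕ} {G : List Ed} {st : List Frame} (h1 : sz v ≤ M)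
    (h2 : sz G ≤ M) (h3 : st.length ≤ n)
    (h4 : ∀ f ∈ st, sz f.2.1.1 ≤ M ∧ sz (f.2.1.2 :: f.2.2.1) ≤ M)
    (h5 : (st.map (fun f : Frame => sz f.2.2.2)).sum ≤ κ) : BdS M κ n (ev v G st) :=
  ⟨h1, h2, h3, h4, by
    show sz ([] : List ℕ) + (st.map (fun f : Frame => sz f.2.2.2)).sum ≤ κ
    rw [sz_nil, zero_add]
    exact h5⟩

private theorem szs_step_ev (P : Par) (U : ℕ) {M κ n v : ℕ} {G : List Ed} {K : List ℕ}
    {st : List Frame} (h : BdS M κ n (true, ((v, (G, K)), st))) :
    BdS M (κ + (2 * M + 1)) (n + 1) (stepM P U (true, ((v, (G, K)), st))) := by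
  obtain ⟨h1, h2, h3, h4, h5⟩ := h
  change sz v ≤ M at h1
  change sz G ≤ M at h2
  change st.length ≤ n at h3
  change ∀ f ∈ st, sz f.2.1.1 ≤ M ∧ sz (f.2.1.2 :: f.2.2.1) ≤ M at h4
  change sz K + (st.map (fun f : Frame => sz f.2.2.2)).sum ≤ κ at h5
  have hh : stepM P U (true, ((v, (G, K)), st)) =
      if (atL v G).isEmpty then ret [v] st
      else if U < P.c then
        ev (oth v ((atL v G).headD (0, (0, 0)))) (delL ((atL v G).headD (0, (0, 0))) G)
          (frA v ((atL v G).headD (0, (0, 0))) (delL ((atL v G).headD (0, (0, 0))) G) :: st)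
      else if U < P.a then
        ev v (delL ((atL v G).headD (0, (0, 0))) G)
          (frC v ((atL v G).headD (0, (0, 0))) (delL ((atL v G).headD (0, (0, 0))) G) :: st)
      else (true, ((v, (G, K)), st)) := rfl
  rw [hh]
  by_cases c1 : (atL v G).isEmpty = true
  · rw [if_pos c1]
    refine szs_ret (by omega) h4 ?_
    rw [sz_cons, sz_nil]
    omega
  · rw [if_neg c1]
    have hne : atL v G ≠ [] := by
      intro h6
      rw [h6] at c1
      exact c1 rfl
    obtain ⟨e, E, heE⟩ := List.exists_cons_of_ne_nil hne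
    have he : e ∈ G := by
      have h6 : e ∈ atL v G := by
        rw [heE]
        exact List.mem_cons_self
      exact (List.mem_filter.1 h6).1
    rw [heE]
    show BdS _ _ _ (if U < P.c then ev (oth v e) (delL e G) (frA v e (delL e G) :: st)
      else if U < P.a then ev v (delL e G) (frC v e (delL e G) :: st)
      else (true, ((v, (G, K)), st)))
    have h7 : sz (e :: delL e G) ≤ M := (szs_del he).trans h2
    have h8 : sz (delL e G) ≤ M := (szs_filter _ _).trans h2
    have h9 : sz (oth v e) ≤ M := ((szs_oth v e).trans (sz_mem_le he)).trans h2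
    by_cases c2 : U < P.c
    · rw [if_pos c2]
      refine szs_ev h9 h8 ?_ ?_ ?_
      · rw [List.length_cons]
        omega
      · intro f hf
        rcases List.mem_cons.1 hf with rfl | hf
        · exact ⟨h1, h7⟩
        · exact h4 f hf
      · rw [List.map_cons, List.sum_cons]
        show sz ([] : List ℕ) + _ ≤ _
        rw [sz_nil]
        omega
    · rw [if_neg c2]
      by_cases c3 : U < P.a
      · rw [if_pos c3]
        refine szs_ev h1 h8 ?_ ?_ ?_
        · rw [List.length_cons]
          omega
        · intro f hf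
          rcases List.mem_cons.1 hf with rfl | hf
          · exact ⟨h1, h7⟩
          · exact h4 f hf
        · rw [List.map_cons, List.sum_cons]
          show sz ([] : List ℕ) + _ ≤ _
          rw [sz_nil]
          omega
      · rw [if_neg c3]
        exact ⟨h1, h2, Nat.le_succ_of_le h3, h4, h5.trans (Nat.le_add_right _ _)⟩

private theorem szs_step_ret (P : Par) (U : ℕ) {M κ n v : ℕ} (hM : 5 ≤ M) {G : List Ed}
    {K : List ℕ} {st : List Frame} (h : BdS M κ n (false, ((v, (G, K)), st))) :
    BdS M (κ + (2 * M + 1)) (n + 1) (stepM P U (false, ((v, (G, K)), st))) := by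
  have hw : BdS M (κ + (2 * M + 1)) (n + 1) (false, ((v, (G, K)), st)) :=
    h.mono (by omega) (by omega)
  obtain ⟨h1, h2, h3, h4, h5⟩ := h
  change sz v ≤ M at h1
  change sz G ≤ M at h2
  change st.length ≤ n at h3
  change ∀ f ∈ st, sz f.2.1.1 ≤ M ∧ sz (f.2.1.2 :: f.2.2.1) ≤ M at h4
  change sz K + (st.map (fun f : Frame => sz f.2.2.2)).sum ≤ κ at h5
  cases st with
  | nil => exact hw
  | cons f st =>
    have hh : stepM P U (false, ((v, (G, K)), f :: st)) =
        if f.1.1 then
          if f.1.2 then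
            if K.contains f.2.1.1 then ev f.2.1.1 (f.2.1.2 :: f.2.2.1) st
            else if U < nth P.gl (jj P f.2.1.1 K f.2.2.1) then
              ev f.2.1.1 (outL K f.2.2.1) (frB K :: st)
            else if U < P.W then ev f.2.1.1 (f.2.1.2 :: f.2.2.1) st
            else (false, ((v, (G, K)), f :: st))
          else if K.contains (oth f.2.1.1 f.2.1.2) then
            if U < P.zl then ev f.2.1.1 (f.2.1.2 :: f.2.2.1) st
            else if U < P.W then ret K st
            else (false, ((v, (G, K)), f :: st))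
          else ret K st
        else ret (f.2.2.2 ++ K) st := rfl
    rw [hh]
    rw [List.length_cons] at h3
    rw [List.map_cons, List.sum_cons] at h5
    obtain ⟨h6, h7⟩ := h4 f List.mem_cons_self
    have h4' : ∀ g ∈ st, sz g.2.1.1 ≤ M ∧ sz (g.2.1.2 :: g.2.2.1) ≤ M := fun g hg =>
      h4 g (List.mem_cons_of_mem _ hg)
    have h8 : BdS M (κ + (2 * M + 1)) (n + 1) (ev f.2.1.1 (f.2.1.2 :: f.2.2.1) st) :=
      szs_ev h6 h7 (by omega) h4' (by omega)
    have h8' : BdS M (κ + (2 * M + 1)) (n + 1) (ret K st) :=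
      szs_ret (by omega) h4' (by omega)
    by_cases c1 : f.1.1 = true
    · rw [if_pos c1]
      by_cases c0 : f.1.2 = true
      · rw [if_pos c0]
        by_cases c2 : K.contains f.2.1.1 = true
        · rw [if_pos c2]
          exact h8
        · rw [if_neg c2]
          by_cases c3 : U < nth P.gl (jj P f.2.1.1 K f.2.2.1)
          · rw [if_pos c3]
            refine szs_ev h6 ?_ ?_ ?_ ?_
            · have h9 : sz (outL K f.2.2.1) ≤ sz f.2.2.1 := szs_filter _ _
              rw [sz_cons] at h7
              omega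
            · rw [List.length_cons]
              omega
            · intro g hg
              rcases List.mem_cons.1 hg with rfl | hg
              · refine ⟨?_, ?_⟩
                · show sz (0 : ℕ) ≤ M
                  rw [szs_zero]
                  omega
                · show sz ((0, (0, 0)) :: ([] : List Ed)) ≤ M
                  rw [sz_cons, sz_pair, sz_pair, szs_zero, sz_nil]
                  omega
              · exact h4' g hg
            · rw [List.map_cons, List.sum_cons]
              show sz K + _ ≤ _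
              omega
          · rw [if_neg c3]
            by_cases c4 : U < P.W
            · rw [if_pos c4]
              exact h8
            · rw [if_neg c4]
              exact hw
      · rw [if_neg c0]
        by_cases c2 : K.contains (oth f.2.1.1 f.2.1.2) = true
        · rw [if_pos c2]
          by_cases c3 : U < P.zl
          · rw [if_pos c3]
            exact h8
          · rw [if_neg c3]
            by_cases c4 : U < P.W
            · rw [if_pos c4]
              exact h8'
            · rw [if_neg c4]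
              exact hw
        · rw [if_neg c2]
          exact h8'
    · rw [if_neg c1]
      refine szs_ret (by omega) h4' ?_
      rw [sz_append]
      omega

private theorem szs_step (P : Par) (U : ℕ) {M κ n : ℕ} (hM : 5 ≤ M) {s : St} (h : BdS M κ n s) :
    BdS M (κ + (2 * M + 1)) (n + 1) (stepM P U s) := by
  obtain ⟨b, ⟨v, G, K⟩, st⟩ := s
  cases b with
  | true => exact szs_step_ev P U h
  | false => exact szs_step_ret P U hM h

private theorem szs_iter (P : Par) {M : ℕ} (hM : 5 ≤ M) (i : ℕ) :
    ∀ (κ n : ℕ) (p : List Bool × St), BdS M κ n p.2 →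
      BdS M (κ + i * (2 * M + 1)) (n + i) ((rstep P)^[i] p).2 ∧
        sz ((rstep P)^[i] p).1 ≤ sz p.1 := by
  induction i with
  | zero =>
    intro κ n p h
    exact ⟨h.mono (Nat.le_add_right _ _) (Nat.le_add_right _ _), le_rfl⟩
  | succ i ih =>
    intro κ n p h
    rw [Function.iterate_succ_apply]
    obtain ⟨h1, h2⟩ := ih (κ + (2 * M + 1)) (n + 1) (rstep P p) (szs_step P _ hM h)
    refine ⟨h1.mono ?_ (by omega), h2.trans (sz_drop _ _)⟩
    rw [Nat.add_mul i 1, Nat.one_mul]
    omega

private theorem szs_frame (f : Frame) : sz f = 13 + 4 * sz f.2.1.1 + 2 * sz f.2.1.2 +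
    2 * sz f.2.2.1 + sz f.2.2.2 := by
  obtain ⟨⟨b, b'⟩, ⟨v, e⟩, G, K⟩ := f
  show sz ((b, b'), ((v, e), (G, K))) = 13 + 4 * sz v + 2 * sz e + 2 * sz G + sz K
  rw [sz_pair (b, b'), sz_pair b b', sz_pair (v, e), sz_pair v e, sz_pair G K, sz_bool, sz_bool]
  ring

private theorem szs_state (s : St) : sz s = 8 + 4 * sz s.2.1.1 + 4 * sz s.2.1.2.1 +
    2 * sz s.2.1.2.2 + sz s.2.2 := by
  obtain ⟨b, ⟨v, G, K⟩, st⟩ := s
  show sz (b, ((v, (G, K)), st)) = 8 + 4 * sz v + 4 * sz G + 2 * sz K + sz st
  rw [sz_pair b, sz_pair (v, (G, K)), sz_pair v (G, K), sz_pair G K, sz_bool]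
  ring

private theorem szs_init_sum (st : List Frame) :
    (st.map (fun f : Frame => sz f.2.2.2)).sum ≤ sz st := by
  induction st with
  | nil => exact le_rfl
  | cons f st ih =>
    rw [List.map_cons, List.sum_cons, sz_cons, szs_frame f]
    omega

private theorem szs_init (s : St) : BdS (sz s + 5) (sz s) (sz s) s := by
  have h := szs_state s
  have h1 := szs_init_sum s.2.2
  refine ⟨by omega, by omega, ?_, ?_, by omega⟩
  · have h2 := length_le_sz s.2.2
    omega
  · intro f hf
    have h2 := sz_mem_le hf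
    have h3 := szs_frame f
    rw [sz_cons]
    constructor
    · omega
    · omega

private theorem szs_stack (M : ℕ) (st : List Frame)
    (h : ∀ f ∈ st, sz f.2.1.1 ≤ M ∧ sz (f.2.1.2 :: f.2.2.1) ≤ M) :
    sz st ≤ st.length * (27 + 12 * M) + 2 * (st.map (fun f : Frame => sz f.2.2.2)).sum := by
  induction st with
  | nil => exact Nat.zero_le _
  | cons f st ih =>
    have h1 := ih fun g hg => h g (List.mem_cons_of_mem _ hg)
    obtain ⟨h2, h3⟩ := h f List.mem_cons_self
    rw [sz_cons] at h3
    rw [List.map_cons, List.sum_cons, sz_cons, szs_frame f, List.length_cons,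
      Nat.add_mul st.length 1, Nat.one_mul]
    omega

private theorem szs_final {M κ n : ℕ} {s : St} (h : BdS M κ n s) :
    sz s ≤ 8 + 8 * M + 2 * κ + n * (27 + 12 * M) := by
  obtain ⟨h1, h2, h3, h4, h5⟩ := h
  have h6 := szs_stack M s.2.2 h4
  have h7 : s.2.2.length * (27 + 12 * M) ≤ n * (27 + 12 * M) := Nat.mul_le_mul_right _ h3
  rw [szs_state s]
  omega

theorem sz_rstep (P : Par) (p : List Bool × St) (i : ℕ) :
    sz ((rstep P)^[i] p) ≤ 10000 * (i + sz p + 1) ^ 3 := by
  obtain ⟨h1, h2⟩ := szs_iter P (show 5 ≤ sz p.2 + 5 by omega) i _ _ p (szs_init p.2)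
  have h3 := szs_final h1
  have h4 : sz p = 2 * sz p.1 + 1 + sz p.2 := by
    obtain ⟨l, s⟩ := p
    rw [sz_pair]
  have h5 : sz ((rstep P)^[i] p) =
      2 * sz ((rstep P)^[i] p).1 + 1 + sz ((rstep P)^[i] p).2 := by
    generalize (rstep P)^[i] p = r
    obtain ⟨l, s⟩ := r
    rw [sz_pair]
  rw [h5]
  have h6 : 2 * sz ((rstep P)^[i] p).1 + 1 + sz ((rstep P)^[i] p).2 ≤
      2 * sz p.1 + 1 + (8 + 8 * (sz p.2 + 5) + 2 * (sz p.2 + i * (2 * (sz p.2 + 5) + 1)) +
        (sz p.2 + i) * (27 + 12 * (sz p.2 + 5))) := by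
    omega
  refine h6.trans ?_
  rw [h4]
  generalize sz p.1 = a
  generalize sz p.2 = b
  have e3 : 2 * a + 1 + (8 + 8 * (b + 5) + 2 * (b + i * (2 * (b + 5) + 1)) +
      (b + i) * (27 + 12 * (b + 5))) =
      2 * a + 49 + 97 * b + 109 * i + 16 * (i * b) + 12 * (b * b) := by ring
  rw [e3]
  have hX : i + (2 * a + 1 + b) + 1 = i + 2 * a + b + 2 := by ring
  rw [hX]
  generalize hY : i + 2 * a + b + 2 = X
  have h7 : i * b ≤ X * X := Nat.mul_le_mul (by omega) (by omega)
  have h8 : b * b ≤ X * X := Nat.mul_le_mul (by omega) (by omega)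
  have h9 : X ≤ X * X := Nat.le_mul_self X
  have h10 : X * X ≤ X ^ 3 := by
    rw [pow_succ, pow_two]
    exact Nat.le_mul_of_pos_right _ (by omega)
  omega

end Pool.Agent.TFN
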