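import Pool.Agent.TFN.Defs
import Pool.Agent.TFP.FpL

set_option autoImplicit false

/-!
# TFN-FpS: one step of the machine is polynomial time computable

Model: `Pool/Agent/TFP/FpS.lean` (finished; copy and adapt). New: `nth l j` with a constant list `l` and
`j = ((btwL v K G).take P.D).length`: `FP.drop` (Helper22/Tools) with the constant list `FP.const l` and the list
`(btwL ..).take P.D`, then `FP.headD _ 0`. `stepM` is an `FP.ite` of `stepE` and `stepR`; prove `FP` of the two parts first
(`unfold stepE`, `unfold stepR`).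
-/

namespace Pool.Agent.TFN

open Turing Function N487b59b3 N68a2faeb Pool.Agent.Helper22 Pool.Agent.Helper6.WB Computability
  Pool.Agent.Helper47.TR Pool.Agent.TFP

section

variable {α : Type} [N487b59b3 α]

private theorem iteLt {β : Type} [N487b59b3 β] {u n : α → ℕ} {f g : α → β} (hu : FP u) (hn : FP n)
    (hf : FP f) (hg : FP g) : FP fun a => if u a < n a then f a else g a := by
  have h := FP.ite (FP.not (FP.natLe hn hu)) hf hg
  refine (congrArg FP (funext fun a => ?_)).mp h
  by_cases h1 : u a < n a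
  · have h2 : ¬ n a ≤ u a := Nat.not_le.2 h1
    simp [h1]
  · have h2 : n a ≤ u a := Nat.not_lt.1 h1
    simp [h1]

private theorem jjl (P : Par) {v : α → ℕ} {K : α → List ℕ} {G : α → List Ed} (hv : FP v)
    (hK : FP K) (hG : FP G) : FP fun a => (TFP.btwL (v a) (K a) (G a)).take P.D := by
  have h := FP.take (FP.btwL hv hK hG) (FP.const (α := α) (List.replicate P.D true))
  refine (congrArg FP (funext fun a => ?_)).mp h
  rw [List.length_replicate]

theorem FP.nthjj (P : Par) (l : List ℕ) {v : α → ℕ} {K : α → List ℕ} {G : α → List Ed}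
    (hv : FP v) (hK : FP K) (hG : FP G) : FP fun a => nth l (jj P (v a) (K a) (G a)) :=
  FP.headD (FP.drop (FP.const (α := α) l) (jjl P hv hK hG)) 0

private theorem evF {v : α → ℕ} {G : α → List Ed} {st : α → List Frame} (h1 : FP v) (h2 : FP G)
    (h3 : FP st) : FP fun a => ev (v a) (G a) (st a) :=
  (FP.const true).pair ((h1.pair (h2.pair (FP.const []))).pair h3)

private theorem retF {K : α → List ℕ} {st : α → List Frame} (h1 : FP K) (h2 : FP st) :
    FP fun a => ret (K a) (st a) :=
  (FP.const false).pair (((FP.const 0).pair ((FP.const []).pair h1)).pair h2)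

private theorem frAF {v : α → ℕ} {e : α → Ed} {G : α → List Ed} (h1 : FP v) (h2 : FP e)
    (h3 : FP G) : FP fun a => frA (v a) (e a) (G a) :=
  (FP.const (true, true)).pair ((h1.pair h2).pair (h3.pair (FP.const [])))

private theorem frCF {v : α → ℕ} {e : α → Ed} {G : α → List Ed} (h1 : FP v) (h2 : FP e)
    (h3 : FP G) : FP fun a => frC (v a) (e a) (G a) :=
  (FP.const (true, false)).pair ((h1.pair h2).pair (h3.pair (FP.const [])))

private theorem frBF {K : α → List ℕ} (h1 : FP K) : FP fun a => frB (K a) :=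
  (FP.const (false, false)).pair ((FP.const (0, (0, (0, 0)))).pair ((FP.const []).pair h1))

private theorem stepEF (P : Par) : FP fun p : ℕ × St => TFN.stepE P p.1 p.2 := by
  have hU : FP fun p : ℕ × St => p.1 := by fun_prop
  have hs : FP fun p : ℕ × St => p.2 := by fun_prop
  have hv : FP fun p : ℕ × St => p.2.2.1.1 := by fun_prop
  have hG : FP fun p : ℕ × St => p.2.2.1.2.1 := by fun_prop
  have hst : FP fun p : ℕ × St => p.2.2.2 := by fun_prop
  have hat : FP fun p : ℕ × St => TFP.atL p.2.2.1.1 p.2.2.1.2.1 := FP.atL hv hG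
  have he : FP fun p : ℕ × St => (TFP.atL p.2.2.1.1 p.2.2.1.2.1).headD (0, (0, 0)) := FP.headD hat _
  have hdel : FP fun p : ℕ × St => TFP.delL ((TFP.atL p.2.2.1.1 p.2.2.1.2.1).headD (0, (0, 0))) p.2.2.1.2.1 :=
    FP.delL he hG
  have hoth : FP fun p : ℕ × St => TFP.oth p.2.2.1.1 ((TFP.atL p.2.2.1.1 p.2.2.1.2.1).headD (0, (0, 0))) :=
    FP.oth hv he
  unfold TFN.stepE
  refine FP.ite (FP.isEmpty hat) ?_ ?_
  · exact retF (FP.cons hv (FP.const [])) hst
  · refine iteLt hU (FP.const P.c) ?_ ?_
    · exact evF hoth hdel (FP.cons (frAF hv he hdel) hst)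
    · refine iteLt hU (FP.const P.a) ?_ hs
      exact evF hv hdel (FP.cons (frCF hv he hdel) hst)

private theorem stepRF (P : Par) {U : α → ℕ} {s : α → St} {K : α → List ℕ} {f : α → Frame}
    {st : α → List Frame} (hU : FP U) (hs : FP s) (hK : FP K) (hf : FP f) (hst : FP st) :
    FP fun a => TFN.stepR P (U a) (s a) (K a) (f a) (st a) := by
  have h1 : FP fun a => (f a).1.1 := FP.fst' (FP.fst' hf)
  have h2 : FP fun a => (f a).1.2 := FP.snd' (FP.fst' hf)
  have hv : FP fun a => (f a).2.1.1 := FP.fst' (FP.fst' (FP.snd' hf))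
  have he : FP fun a => (f a).2.1.2 := FP.snd' (FP.fst' (FP.snd' hf))
  have hG : FP fun a => (f a).2.2.1 := FP.fst' (FP.snd' (FP.snd' hf))
  have hB : FP fun a => (f a).2.2.2 := FP.snd' (FP.snd' (FP.snd' hf))
  unfold TFN.stepR
  refine FP.ite h1 ?_ (retF (FP.append hB hK) hst)
  refine FP.ite h2 ?_ ?_
  · refine FP.ite (FP.contains hK hv) (evF hv (FP.cons he hG) hst) ?_
    refine iteLt hU (FP.nthjj P P.gl hv hK hG) ?_ ?_
    · exact evF hv (FP.outL hK hG) (FP.cons (frBF hK) hst)
    · exact iteLt hU (FP.const P.W) (evF hv (FP.cons he hG) hst) hs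
  · refine FP.ite (FP.contains hK (FP.oth hv he)) ?_ (retF hK hst)
    refine iteLt hU (FP.const P.zl) (evF hv (FP.cons he hG) hst) ?_
    exact iteLt hU (FP.const P.W) (retF hK hst) hs

theorem FP.stepM (P : Par) : FP fun p : ℕ × St => TFN.stepM P p.1 p.2 := by
  have hU : FP fun p : ℕ × St => p.1 := by fun_prop
  have hs : FP fun p : ℕ × St => p.2 := by fun_prop
  have hs1 : FP fun p : ℕ × St => p.2.1 := by fun_prop
  have hK : FP fun p : ℕ × St => p.2.2.1.2.2 := by fun_prop
  have hst : FP fun p : ℕ × St => p.2.2.2 := by fun_prop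
  have hhd : FP fun p : ℕ × St => p.2.2.2.headD (frB []) := FP.headD hst _
  have htl : FP fun p : ℕ × St => p.2.2.2.tail := FP.tail hst
  unfold TFN.stepM
  refine FP.ite hs1 (stepEF P) ?_
  exact FP.ite (FP.isEmpty hst) hs (stepRF P hU hs hK hhd htl)

end

end Pool.Agent.TFN
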