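import Pool.Agent.TFN.Br
import Pool.Agent.TFP.Num

set_option autoImplicit false

/-!
# TFN-Num: elementary inequalities, parameters

Plan.
* `close_abs`: for `f ≥ 0` this is `close_of` (TFP/Num); for `f < 0` apply it to `-f`, `-a` and unfold `Close`.
* `common_den`: for finitely many nonnegative rationals `r 0, .., r D` and any `M` there are `W ≥ 1` and a list `gl` with
  `gl[j] / W = r j`: `W = ∏_{j ≤ D} (r j).den`, `gl = (List.range (D+1)).map (fun j => ((r j) * W).num.toNat)`.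
* `par_exists`: `a = x.num.toNat`, `c = x.den`, `y1 = (-y).num.toNat`, `y2 = y.den`; `common_den` for the list
  `-y, 1 - br y 0, .., 1 - br y D` (or: `W` common denominator for all of them: take `r 0 = -y`, `r (j+1) = 1 - br y j`, and
  `gl = tail`), and for `1 + lam * br y (j+1)` (`0 ≤ br ≤ 1`, `br_mem`); `b = a + W` (`Nat.lt_two_pow_self`). `nth l j = (l.drop j).headD 0`.
* `gen_par`: `p = lam / (1 + lam) = 1/x`; `1 - p D (1 - y + y p) > 0`: if `D = 0` clear; if `D ≥ 1`: `x > D (1 - y) + D y / x` since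
  `D (1-y) ≤ x` and `y < 0`. `B = 5 / (..)`.
-/

namespace Pool.Agent.TFN

open Finset Pool.Agent.TFP

theorem close_abs {f a : ℚ} (N : ℕ) (h : |a - f| ≤ 1 / (2 * (N + 1)) * |f|) :
    Close (1 / (N + 1)) f a := by
  rcases le_or_gt 0 f with hf | hf
  · rw [abs_of_nonneg hf] at h
    exact close_of hf N h
  · rw [abs_of_neg hf] at h
    have h1 : |(-a) - (-f)| ≤ 1 / (2 * (N + 1)) * (-f) := by
      have e : (-a) - (-f) = -(a - f) := by ring
      rw [e, abs_neg]
      exact h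
    have h2 := close_of (f := -f) (a := -a) (by linarith) N h1
    unfold Close at h2 ⊢
    obtain ⟨h3, h4, h5, h6⟩ := h2
    rw [Rat.cast_neg, Rat.cast_neg, abs_neg, abs_neg] at h5 h6
    refine ⟨?_, ?_, h5, h6⟩
    · constructor
      · intro h7
        have := h4.1 (by linarith)
        linarith
      · intro h7
        linarith
    · constructor
      · intro _
        exact hf
      · intro _
        have := h3.2 (by linarith)
        linarith

/-- numerator of `r` for the denominator `W` -/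
private def nm (r : ℚ) (W : ℕ) : ℕ := r.num.toNat * (W / r.den)

private theorem nm_div {r : ℚ} {W : ℕ} (hr : 0 ≤ r) (hd : r.den ∣ W) (hW : 0 < W) :
    (nm r W : ℚ) / W = r := by
  obtain ⟨k, hk⟩ := hd
  have hk0 : 0 < k := by
    rcases Nat.eq_zero_or_pos k with h | h
    · rw [h, mul_zero] at hk
      omega
    · exact h
  have hrn : 0 ≤ r.num := Rat.num_nonneg.2 hr
  have hra : ((r.num.toNat : ℕ) : ℚ) = (r.num : ℚ) := by
    have h := Int.toNat_of_nonneg hrn
    exact_mod_cast congrArg (fun z : ℤ => (z : ℚ)) h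
  have hdiv : W / r.den = k := by
    rw [hk]
    exact Nat.mul_div_cancel_left k r.den_pos
  unfold nm
  rw [hdiv, hk]
  push_cast
  rw [hra]
  have h1 : (r.den : ℚ) ≠ 0 := by
    have := r.den_pos
    positivity
  have h2 : (k : ℚ) ≠ 0 := by positivity
  have h3 : (r.num : ℚ) / (r.den : ℚ) = r := Rat.num_div_den r
  rw [mul_div_mul_right _ _ h2, h3]

private theorem nth_map (f : ℕ → ℕ) {D j : ℕ} (h : j ≤ D) :
    nth ((List.range (D + 1)).map f) j = f j := by
  unfold nth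
  have h1 : j < D + 1 := by omega
  rw [List.headD_eq_head?_getD, List.head?_drop]
  simp [h1]

private theorem den_dvd (r : ℕ → ℚ) {D j : ℕ} (h : j ≤ D) :
    (r j).den ∣ ∏ i ∈ range (D + 1), (r i).den :=
  Finset.dvd_prod_of_mem (fun i => (r i).den) (Finset.mem_range.2 (by omega))

private theorem den_pos (r : ℕ → ℚ) (D : ℕ) : 0 < ∏ i ∈ range (D + 1), (r i).den :=
  Finset.prod_pos fun i _ => (r i).den_pos

theorem par_exists {x y : ℚ} (hx : 1 < x) (hy0 : -1 < y) (hy1 : y < 0) (D : ℕ) :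
    ∃ P : Par, P.Ok ∧ P.D = D ∧ P.lam = 1 / (x - 1) ∧ P.y = y ∧ x = P.a / P.c := by
  have hxn : 0 ≤ x.num := Rat.num_nonneg.2 (by linarith)
  have hyn : 0 ≤ (-y).num := Rat.num_nonneg.2 (by linarith)
  have hxa : ((x.num.toNat : ℕ) : ℚ) = (x.num : ℚ) := by
    have h := Int.toNat_of_nonneg hxn
    exact_mod_cast congrArg (fun z : ℤ => (z : ℚ)) h
  have hya : (((-y).num.toNat : ℕ) : ℚ) = ((-y).num : ℚ) := by
    have h := Int.toNat_of_nonneg hyn
    exact_mod_cast congrArg (fun z : ℤ => (z : ℚ)) h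
  have hxd : (0 : ℚ) < (x.den : ℚ) := by exact_mod_cast x.den_pos
  have hyd : (0 : ℚ) < ((-y).den : ℚ) := by exact_mod_cast (-y).den_pos
  have hx1 : x = (x.num.toNat : ℚ) / (x.den : ℚ) := by
    rw [hxa]
    exact (Rat.num_div_den x).symm
  have hy2 : ((-y).num.toNat : ℚ) / ((-y).den : ℚ) = -y := by
    rw [hya]
    exact Rat.num_div_den (-y)
  have hxm : x * (x.den : ℚ) = (x.num.toNat : ℚ) := by
    rw [eq_div_iff hxd.ne'] at hx1
    exact hx1
  have hym : -y * ((-y).den : ℚ) = ((-y).num.toNat : ℚ) := by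
    have h := hy2.symm
    rw [eq_div_iff hyd.ne'] at h
    exact h
  obtain ⟨r, hr⟩ : ∃ r : ℕ → ℚ, r = fun j => 1 - br y j := ⟨_, rfl⟩
  obtain ⟨t, ht⟩ : ∃ t : ℕ → ℚ, t = fun j => 1 + 1 / (x - 1) * br y (j + 1) := ⟨_, rfl⟩
  have hr0 : ∀ j, 0 ≤ r j := fun j => by
    rw [hr]
    have := (br_mem hy0 hy1 j).2
    show 0 ≤ 1 - br y j
    linarith
  have ht0 : ∀ j, 0 ≤ t j := fun j => by
    rw [ht]
    have h1 := (br_mem hy0 hy1 (j + 1)).1
    have h2 : 0 ≤ 1 / (x - 1) := by
      apply div_nonneg (by norm_num)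
      linarith
    have := mul_nonneg h2 h1
    show 0 ≤ 1 + 1 / (x - 1) * br y (j + 1)
    linarith
  obtain ⟨W, hWd⟩ : ∃ W : ℕ, W = (-y).den * ∏ i ∈ range (D + 1), (r i).den := ⟨_, rfl⟩
  have hW : 0 < W := by rw [hWd]; exact Nat.mul_pos (-y).den_pos (den_pos r D)
  obtain ⟨Wp, hWpd⟩ : ∃ Wp : ℕ, Wp = ∏ i ∈ range (D + 1), (t i).den := ⟨_, rfl⟩
  have hWp : 0 < Wp := by rw [hWpd]; exact den_pos t D
  have hyneg : -(((-y).num.toNat : ℚ) / ((-y).den : ℚ)) = y := by rw [hy2, neg_neg]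
  have hlam : (x.den : ℚ) / ((x.num.toNat : ℚ) - (x.den : ℚ)) = 1 / (x - 1) := by
    have h1 : (x - 1) ≠ 0 := by
      intro h
      linarith
    have h2 : (x.num.toNat : ℚ) - (x.den : ℚ) = (x - 1) * (x.den : ℚ) := by
      rw [← hxm]
      ring
    rw [h2]
    field_simp
  refine ⟨⟨x.num.toNat, x.den, x.num.toNat + W, D, W, nm (-y) W,
    (List.range (D + 1)).map (fun j => nm (r j) W), Wp,
    (List.range (D + 1)).map (fun j => nm (t j) Wp), (-y).num.toNat, (-y).den⟩,
    ⟨x.den_pos, ?_, ?_, ?_, ?_, hW, ?_, hWp, ?_, ?_, ?_⟩, rfl, hlam, hyneg, hx1⟩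
  · have h : (x.den : ℚ) < (x.num.toNat : ℚ) := by
      rw [← hxm]
      nlinarith
    exact_mod_cast h
  · show x.num.toNat ≤ 2 ^ (x.num.toNat + W)
    exact (Nat.lt_two_pow_self).le.trans (Nat.pow_le_pow_right (by norm_num) (Nat.le_add_right _ _))
  · have h : (0 : ℚ) < ((-y).num.toNat : ℚ) := by
      rw [← hym]
      exact mul_pos (by linarith) hyd
    exact_mod_cast h
  · have h : ((-y).num.toNat : ℚ) < ((-y).den : ℚ) := by
      rw [← hym]
      nlinarith
    exact_mod_cast h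
  · show W ≤ 2 ^ (x.num.toNat + W)
    exact (Nat.lt_two_pow_self).le.trans (Nat.pow_le_pow_right (by norm_num) (Nat.le_add_left _ _))
  · show (nm (-y) W : ℚ) / W = -(-(((-y).num.toNat : ℚ) / ((-y).den : ℚ)))
    rw [hyneg]
    exact nm_div (by linarith) (by rw [hWd]; exact Dvd.intro _ rfl) hW
  · intro j hj
    show (nth ((List.range (D + 1)).map (fun j => nm (r j) W)) j : ℚ) / W =
      1 - br (-(((-y).num.toNat : ℚ) / ((-y).den : ℚ))) j
    have hj' : j ≤ D := hj
    rw [hyneg, nth_map _ hj', nm_div (hr0 j) (by rw [hWd]; exact Dvd.dvd.mul_left (den_dvd r hj') _) hW, hr]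
  · intro j hj
    show (nth ((List.range (D + 1)).map (fun j => nm (t j) Wp)) j : ℚ) / Wp =
      1 + (x.den : ℚ) / ((x.num.toNat : ℚ) - (x.den : ℚ)) *
        br (-(((-y).num.toNat : ℚ) / ((-y).den : ℚ))) (j + 1)
    have hj' : j ≤ D := hj
    rw [hyneg, hlam, nth_map _ hj', nm_div (ht0 j) (by rw [hWpd]; exact den_dvd t hj') hWp, ht]

theorem gen_par {x y : ℚ} (hx : 1 < x) (hy0 : -1 < y) (hy1 : y < 0) {D : ℕ}
    (hD : (D : ℚ) * (1 - y) ≤ x) (lam : ℚ) (hl : lam = 1 / (x - 1)) :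
    ∃ B : ℚ, 0 ≤ B ∧
      5 ≤ B * (1 - lam / (1 + lam) * D * (1 - y + y * (lam / (1 + lam)))) := by
  have hx0 : 0 < x := by linarith
  have hx1 : x - 1 ≠ 0 := by
    intro h
    linarith
  have hp : lam / (1 + lam) = 1 / x := by
    rw [hl]
    have h1 : 1 + 1 / (x - 1) = x / (x - 1) := by
      field_simp
      ring
    rw [h1]
    field_simp
  rw [hp]
  have hpos : 0 < 1 - 1 / x * D * (1 - y + y * (1 / x)) := by
    have h1 : 1 - 1 / x * D * (1 - y + y * (1 / x)) =
        (x - D * (1 - y) + (D : ℚ) * (-y) * (1 / x)) / x := by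
      field_simp
      ring
    rw [h1]
    apply div_pos _ hx0
    rcases Nat.eq_zero_or_pos D with h0 | h0
    · rw [h0]
      push_cast
      linarith
    · have h2 : (0 : ℚ) < D := by exact_mod_cast h0
      have h3 : 0 < (D : ℚ) * (-y) * (1 / x) := by
        have h4 : 0 < -y := by linarith
        positivity
      linarith
  refine ⟨5 / (1 - 1 / x * D * (1 - y + y * (1 / x))), by positivity, ?_⟩
  rw [div_mul_cancel₀ _ hpos.ne']

end Pool.Agent.TFN
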