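import Pool.Agent.TFN.ZEr

set_option autoImplicit false

/-!
# TFN-Key: the sampler identity for negative `y`

Plan. `G' = G.erase e`, `I(H, R) = ∑_S q H v S * R S`, `j K = (btw v K G').card`, `v ≠ u` (`NL`).
(1) `W_id` (TFP) divided by `Z G'` as in `Pool/Agent/TFP/Key.lean` (finished), with `Z_ratio`:
`ρ * I(G, R) = I(G', R) + lam ∑_K q G' u K [v ∉ K] y^(j K) I_K`, `I_K = ∑_S q (out K G') v S * R (K ∪ S)`,
`ρ = 1 + lam ∑_K q G' u K [v ∉ K] y^(j K)`.
(2) `con_id` for `G'`: `∑_S q G' v S [u ∈ S] R S = lam ∑_K q G' u K [v ∉ K] br y (j K) I_K`; multiply by `-y` and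
add to (1): since `y^j - y * br y j = 1 - br y j` (`br_succ`, `br_succ'`),
`ρ * I(G, R) = ∑_S q G' v S ((1 + y)[u ∈ S] + [u ∉ S]) R S + lam ∑_K q G' u K gK K * I_K`.
(3) The same with `R = 1` (`q_sum`): `ρ = 1 + y P + lam ∑_K q G' u K gK K`, `P = ∑_S q G' v S [u ∈ S]`, i.e.
`1 + lam = ρ - y P + lam ∑_K q G' u K (1 - gK K)`.
The claim is (2) + `(-y P + lam ∑_K q G' u K (1 - gK K)) * I(G, R)` on both sides, divided by `1 + lam`.
-/

namespace Pool.Agent.TFN

open Finset Pool.Agent.TFP

variable {lam y : ℚ}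

private theorem key_ends_out (K : Finset ℕ) {G : Finset Ed} {V : Finset ℕ} (hV : ends G ⊆ V) :
    ends (out K G) ⊆ V :=
  (ends_mono (Finset.filter_subset _ _)).trans hV

/-- the identity `ρ * I(G, R) = I(G', R) + lam ∑_K q G' u K [v ∉ K] y^(j K) I_K` -/
private theorem key_one (hl : 0 < lam) (hy0 : -1 < y) (hy1 : y < 0) {G : Finset Ed} (hG : NL G)
    {V : Finset ℕ} (hV : ends G ⊆ V) {e : Ed} (he : e ∈ G) {v u : ℕ} (hJ : Jn e v u) (hvu : v ≠ u)
    (R : Finset ℕ → ℚ) :
    (1 + lam * ∑ K ∈ V.powerset, q lam y (G.erase e) u K *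
        (if v ∈ K then 0 else y ^ (btw v K (G.erase e)).card)) *
      ∑ S ∈ V.powerset, q lam y G v S * R S =
    ∑ S ∈ V.powerset, q lam y (G.erase e) v S * R S +
      lam * ∑ K ∈ V.powerset, q lam y (G.erase e) u K *
        ((if v ∈ K then 0 else y ^ (btw v K (G.erase e)).card) *
          ∑ S ∈ V.powerset, q lam y (out K (G.erase e)) v S * R (K ∪ S)) := by
  have hG' : NL (G.erase e) := hG.mono (Finset.erase_subset _ _)
  have hβ : y - 1 ≠ 0 := by
    intro h
    have : y = 1 := by linarith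
    linarith
  have hZ' : Z lam y (G.erase e) ≠ 0 := (Z_pos hl hy0 hy1 hG').ne'
  have hZe := Z_ratio hl hy0 hy1 hG hV he hJ
  have hsum : ∀ H : Finset Ed, NL H → ∀ T : Finset ℕ → ℚ,
      ∑ S ∈ V.powerset, ww (lam / (y - 1)) (y - 1) H v S * T S =
        Z lam y H * ∑ S ∈ V.powerset, q lam y H v S * T S := by
    intro H hH T
    have hZ : Z lam y H ≠ 0 := (Z_pos hl hy0 hy1 hH).ne'
    rw [Finset.mul_sum]
    refine Finset.sum_congr rfl fun S _ => ?_
    unfold q
    field_simp
  have key := W_id (lam / (y - 1)) (y - 1) he hvu hJ V R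
  rw [hsum G hG R, hsum (G.erase e) hG' R, div_mul_cancel₀ lam hβ] at key
  have hK : ∀ K ∈ V.powerset,
      (if v ∈ K then 0 else (1 + (y - 1)) ^ (btw v K (G.erase e)).card) *
        (if u ∈ K then (lam / (y - 1)) ^ (K.card - 1) * cc (y - 1) K (G.erase e) else 0) *
        ∑ S ∈ V.powerset, ww (lam / (y - 1)) (y - 1) (out K (G.erase e)) v S * R (K ∪ S) =
      Z lam y (G.erase e) * (q lam y (G.erase e) u K *
        ((if v ∈ K then 0 else y ^ (btw v K (G.erase e)).card) *
        ∑ S ∈ V.powerset, q lam y (out K (G.erase e)) v S * R (K ∪ S))) := by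
    intro K _
    have hN : NL (out K (G.erase e)) := hG'.mono (Finset.filter_subset _ _)
    rw [hsum (out K (G.erase e)) hN (fun S => R (K ∪ S)), add_sub_cancel]
    have hq : Z lam y (G.erase e) * (q lam y (G.erase e) u K *
        ((if v ∈ K then 0 else y ^ (btw v K (G.erase e)).card) *
        ∑ S ∈ V.powerset, q lam y (out K (G.erase e)) v S * R (K ∪ S))) =
        ww (lam / (y - 1)) (y - 1) (G.erase e) u K *
        ((if v ∈ K then 0 else y ^ (btw v K (G.erase e)).card) *
        ∑ S ∈ V.powerset, q lam y (out K (G.erase e)) v S * R (K ∪ S)) := by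
      conv_lhs => unfold q
      rw [← mul_assoc, mul_div_cancel₀ _ hZ']
      rfl
    rw [hq]
    unfold ww Z
    split_ifs <;> ring
  rw [Finset.sum_congr rfl hK, ← Finset.mul_sum, hZe] at key
  apply mul_left_cancel₀ hZ'
  linarith

/-- `[v ∉ K] y^j = gK + y [v ∉ K] br y j` -/
private theorem key_gK (y : ℚ) (v : ℕ) (K : Finset ℕ) (G : Finset Ed) :
    (if v ∈ K then 0 else y ^ (btw v K G).card) =
      gK y v K G + y * (if v ∈ K then 0 else br y (btw v K G).card) := by
  unfold gK
  split_ifs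
  · ring
  · have h1 := br_succ y (btw v K G).card
    have h2 := br_succ' y (btw v K G).card
    linarith

private theorem key_alg {lam y I I' Iu P A B C Db : ℚ} (hl : 0 < lam)
    (h1 : (1 + lam * (B + y * Db)) * I = I' + lam * (A + y * C)) (h2 : Iu = lam * C)
    (h3 : P = lam * Db) :
    I = 1 / (1 + lam) * (-y * I * P + I' + y * Iu) + lam / (1 + lam) * (A + (1 - B) * I) := by
  have hl1 : (1 + lam) ≠ 0 := by positivity
  subst h2 h3
  field_simp
  linarith

theorem key (hl : 0 < lam) (hy0 : -1 < y) (hy1 : y < 0) {G : Finset Ed} (hG : NL G)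
    {V : Finset ℕ} (hV : ends G ⊆ V) {e : Ed} (he : e ∈ G) {v u : ℕ} (hJ : Jn e v u)
    (R : Finset ℕ → ℚ) :
    ∑ S ∈ V.powerset, q lam y G v S * R S =
      1 / (1 + lam) * ∑ S ∈ V.powerset, q lam y (G.erase e) v S *
        (if u ∈ S then -y * (∑ T ∈ V.powerset, q lam y G v T * R T) + (1 + y) * R S else R S) +
      lam / (1 + lam) * ∑ K ∈ V.powerset, q lam y (G.erase e) u K *
        (gK y v K (G.erase e) *
            ∑ S ∈ V.powerset, q lam y (out K (G.erase e)) v S * R (K ∪ S) +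
          (1 - gK y v K (G.erase e)) * ∑ S ∈ V.powerset, q lam y G v S * R S) := by
  have h1 := mem_ends_left he
  have h2 := mem_ends_right he
  have hne := hG e he
  have hvu : v ≠ u := by
    rcases hJ with ⟨a, b⟩ | ⟨a, b⟩
    · rw [← a, ← b]; exact hne
    · rw [← a, ← b]; exact hne.symm
  have hu : u ∈ V := by
    rcases hJ with ⟨a, b⟩ | ⟨a, b⟩
    · rw [← b]; exact hV h2
    · rw [← a]; exact hV h1
  have hv : v ∈ V := by
    rcases hJ with ⟨a, b⟩ | ⟨a, b⟩
    · rw [← a]; exact hV h1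
    · rw [← b]; exact hV h2
  have hG' : NL (G.erase e) := hG.mono (Finset.erase_subset _ _)
  have hV' : ends (G.erase e) ⊆ V := (ends_mono (Finset.erase_subset _ _)).trans hV
  have hqs := q_sum hl hy0 hy1 hG' hV' hu
  have k1 := key_one hl hy0 hy1 hG hV he hJ hvu R
  have k2 := con_id hl hy0 hy1 hG' V hvu R
  have k3 := con_id hl hy0 hy1 hG' V hvu (fun _ => 1)
  generalize G.erase e = G' at *
  obtain ⟨I, hI⟩ : ∃ I, I = ∑ S ∈ V.powerset, q lam y G v S * R S := ⟨_, rfl⟩
  rw [← hI] at k1 ⊢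
  obtain ⟨IK, hIK⟩ : ∃ IK : Finset ℕ → ℚ, ∀ K,
      IK K = ∑ S ∈ V.powerset, q lam y (out K G') v S * R (K ∪ S) := ⟨_, fun _ => rfl⟩
  have k3' : ∑ S ∈ V.powerset, q lam y G' v S * (if u ∈ S then 1 else 0) =
      lam * ∑ K ∈ V.powerset, q lam y G' u K * (if v ∈ K then 0 else br y (btw v K G').card) := by
    rw [k3]
    congr 1
    refine Finset.sum_congr rfl fun K _ => ?_
    have h3 : ∑ S ∈ V.powerset, q lam y (out K G') v S * 1 = 1 := by
      have h4 := q_sum hl hy0 hy1 (G := out K G') (hG'.mono (Finset.filter_subset _ _))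
        (key_ends_out K hV') hv
      exact (Finset.sum_congr rfl fun S _ => mul_one _).trans h4
    rw [h3, mul_one]
  simp only [← hIK] at k1 k2 ⊢
  simp only [key_gK] at k1
  have e1 : ∑ K ∈ V.powerset, q lam y G' u K *
      (gK y v K G' + y * (if v ∈ K then 0 else br y (btw v K G').card)) =
      ∑ K ∈ V.powerset, q lam y G' u K * gK y v K G' +
        y * ∑ K ∈ V.powerset, q lam y G' u K * (if v ∈ K then 0 else br y (btw v K G').card) := by
    rw [Finset.mul_sum, ← Finset.sum_add_distrib]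
    refine Finset.sum_congr rfl fun K _ => ?_
    ring
  have e2 : ∑ K ∈ V.powerset, q lam y G' u K *
      ((gK y v K G' + y * (if v ∈ K then 0 else br y (btw v K G').card)) * IK K) =
      ∑ K ∈ V.powerset, q lam y G' u K * (gK y v K G' * IK K) +
        y * ∑ K ∈ V.powerset, q lam y G' u K *
          ((if v ∈ K then 0 else br y (btw v K G').card) * IK K) := by
    rw [Finset.mul_sum, ← Finset.sum_add_distrib]
    refine Finset.sum_congr rfl fun K _ => ?_
    ring
  rw [e1, e2] at k1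
  have e3 : ∑ S ∈ V.powerset, q lam y G' v S *
      (if u ∈ S then -y * I + (1 + y) * R S else R S) =
      -y * I * (∑ S ∈ V.powerset, q lam y G' v S * (if u ∈ S then 1 else 0)) +
        ∑ S ∈ V.powerset, q lam y G' v S * R S +
        y * ∑ S ∈ V.powerset, q lam y G' v S * (if u ∈ S then R S else 0) := by
    rw [Finset.mul_sum, Finset.mul_sum, ← Finset.sum_add_distrib, ← Finset.sum_add_distrib]
    refine Finset.sum_congr rfl fun S _ => ?_
    split_ifs <;> ring
  have e4 : ∑ K ∈ V.powerset, q lam y G' u K * (gK y v K G' * IK K + (1 - gK y v K G') * I) =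
      ∑ K ∈ V.powerset, q lam y G' u K * (gK y v K G' * IK K) +
        (1 - ∑ K ∈ V.powerset, q lam y G' u K * gK y v K G') * I := by
    have e5 : (1 - ∑ K ∈ V.powerset, q lam y G' u K * gK y v K G') * I =
        ∑ K ∈ V.powerset, q lam y G' u K * ((1 - gK y v K G') * I) := by
      have e6 : (1 - ∑ K ∈ V.powerset, q lam y G' u K * gK y v K G') * I =
          ((∑ K ∈ V.powerset, q lam y G' u K) -
            ∑ K ∈ V.powerset, q lam y G' u K * gK y v K G') * I := by rw [hqs]
      rw [e6, ← Finset.sum_sub_distrib, Finset.sum_mul]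
      refine Finset.sum_congr rfl fun K _ => ?_
      ring
    rw [e5, ← Finset.sum_add_distrib]
    refine Finset.sum_congr rfl fun K _ => ?_
    ring
  rw [e3, e4]
  exact key_alg hl k1 k2 k3'

end Pool.Agent.TFN
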