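import Pool.Agent.TFN.Gen

set_option autoImplicit false

/-!
# TFN-Main: the theorem
-/

namespace Pool.Agent.TFN

open Finset Pool.Agent.Helper47.TR Pool.Agent.TFP

theorem main (x y : ℚ) (hx : 1 < x) (hy0 : -1 < y) (hy1 : y < 0) :
    HasFPRAS (fun G => ∀ v, (1 - y) * (deg G v : ℚ) ≤ x) (tutte x y) := by
  have h1 : 0 < 1 - y := by linarith
  have h2 : 0 ≤ x / (1 - y) := by positivity
  refine fpras_gen hx hy0 hy1 ⌊x / (1 - y)⌋₊ ?_ _ (fun G _ h v => ?_)
  · have h3 := Nat.floor_le h2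
    rwa [le_div_iff₀ h1] at h3
  · refine Nat.le_floor ?_
    rw [le_div_iff₀ h1]
    have h3 : (1 - y) * (deg G v : ℚ) ≤ x := h v
    linarith

end Pool.Agent.TFN
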