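import Pool.Agent.TFN.Key

set_option autoImplicit false

/-!
# TFN-MeanE: one evaluation step of the machine, mean of the value function

Model: `Pool/Agent/TFP/MeanE.lean` (finished; copy and adapt; private lemmas `star_nil`, `sum3` can be copied).

Notation: `p = c / a = lam / (1 + lam)`, `1 - p = 1 / (1 + lam)`; `e` = first edge at `v`, `u` = its other end, `G' = delL e G`.
For `U < c` the new value is `H = nE G' u + ∑_K q G' u K * RR (frA v e G' :: st) K`, for `c ≤ U < a` it is
`T = nE G' v + ∑_S q G' v S * RR (frC v e G' :: st) S`, for `a ≤ U` it is `Val s`. It remains: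
`p * H + (1 - p) * T = Val s - Dcost`: unfold `RR` on the frames (`insert e G'.toFinset = G.toFinset`), use `key` with
`R = RR st` and `q_sum`. In `T`: `∑_S q G' v S * (κ + if u ∈ S then -y * (nE G v + I) + (1 + y) * RR st S else RR st S)` with
`I = ∑_S q G v S * RR st S`.
-/

namespace Pool.Agent.TFN

open Finset Pool.Agent.TFP

theorem Par.facts {P : Par} (hP : P.Ok) :
    0 < P.lam ∧ -1 < P.y ∧ P.y < 0 ∧ P.lam / (1 + P.lam) = P.c / P.a ∧
      1 / (1 + P.lam) = 1 - (P.c : ℚ) / P.a := by
  obtain ⟨h1, h2, -, h3, h4, -⟩ := hP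
  have hc : (0 : ℚ) < P.c := by exact_mod_cast h1
  have hca : (P.c : ℚ) < P.a := by exact_mod_cast h2
  have ha : (0 : ℚ) < P.a := hc.trans hca
  have hd : (0 : ℚ) < P.a - P.c := by linarith
  have hy1 : (0 : ℚ) < P.y1 := by exact_mod_cast h3
  have hyy : (P.y1 : ℚ) < P.y2 := by exact_mod_cast h4
  have hy2 : (0 : ℚ) < P.y2 := hy1.trans hyy
  have hl : 1 + P.lam = P.a / (P.a - P.c) := by
    unfold Par.lam
    field_simp
    ring
  have hq1 : (P.y1 : ℚ) / P.y2 < 1 := (div_lt_one hy2).2 hyy
  have hq2 : (0 : ℚ) < (P.y1 : ℚ) / P.y2 := div_pos hy1 hy2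
  refine ⟨div_pos hc hd, ?_, ?_, ?_, ?_⟩
  · unfold Par.y
    linarith
  · unfold Par.y
    linarith
  · rw [hl]
    unfold Par.lam
    field_simp
  · rw [hl]
    field_simp

private theorem star_nil {v : ℕ} {G : List Ed} (h0 : atL v G = []) : TFP.star v G.toFinset = ∅ := by
  rw [Finset.eq_empty_iff_forall_notMem]
  intro e he
  unfold TFP.star at he
  rw [mem_filter, List.mem_toFinset] at he
  have h1 : e ∈ atL v G := by
    unfold atL
    rw [List.mem_filter]
    refine ⟨he.1, ?_⟩
    simpa using he.2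
  rw [h0] at h1
  exact absurd h1 List.not_mem_nil

theorem mean_E0 {P : Par} (hP : P.Ok) {V : Finset ℕ} {G : List Ed} (hG : NL G.toFinset)
    {v : ℕ} (hv : v ∈ V) (nE : Finset Ed → ℕ → ℚ) (κ : ℚ)
    (F : Finset ℕ → ℚ) (K0 : List ℕ) (st : List Frame) (h0 : atL v G = []) (U : ℕ) :
    Val P.lam P.y V nE κ F (stepM P U (true, ((v, (G, K0)), st))) =
      Val P.lam P.y V nE κ F (true, ((v, (G, K0)), st)) - nE G.toFinset v := by
  obtain ⟨hl, hy0, hy1, -, -⟩ := Par.facts hP
  have hstep : stepM P U (true, ((v, (G, K0)), st)) = ret [v] st := by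
    simp [stepM, stepE, h0]
  have hq : ∑ S ∈ V.powerset, q P.lam P.y G.toFinset v S * RR P.lam P.y V nE κ F st S =
      RR P.lam P.y V nE κ F st {v} := by
    rw [Finset.sum_eq_single ({v} : Finset ℕ)]
    · rw [q_iso hl hy0 hy1 hG (star_nil h0), if_pos rfl, one_mul]
    · intro S _ hS
      rw [q_iso hl hy0 hy1 hG (star_nil h0), if_neg hS, zero_mul]
    · intro h
      exact absurd (mem_powerset.2 (singleton_subset_iff.2 hv)) h
  rw [hstep]
  have h1 : Val P.lam P.y V nE κ F (ret [v] st) = RR P.lam P.y V nE κ F st {v} := by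
    unfold Val
    simp
  have h2 : Val P.lam P.y V nE κ F (true, ((v, (G, K0)), st)) = nE G.toFinset v +
      ∑ S ∈ V.powerset, q P.lam P.y G.toFinset v S * RR P.lam P.y V nE κ F st S := by
    unfold Val
    simp
  rw [h1, h2, hq]
  ring

private theorem sum3 (c m k : ℕ) (A B C : ℚ) :
    ∑ U ∈ range (c + m + k), (if U < c then A else if U < c + m then B else C) =
      c * A + m * B + k * C := by
  rw [Finset.sum_range_add, Finset.sum_range_add]
  congr 1
  · congr 1
    · rw [Finset.sum_congr rfl (g := fun _ => A)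
        (fun U hU => if_pos (Finset.mem_range.1 hU)), Finset.sum_const, card_range, nsmul_eq_mul]
    · rw [Finset.sum_congr rfl (g := fun _ => B)
        (fun U hU => by
          have := Finset.mem_range.1 hU
          rw [if_neg (by omega), if_pos (by omega)]),
        Finset.sum_const, card_range, nsmul_eq_mul]
  · rw [Finset.sum_congr rfl (g := fun _ => C)
      (fun U _ => by rw [if_neg (by omega), if_neg (by omega)]),
      Finset.sum_const, card_range, nsmul_eq_mul]

theorem mean_E {P : Par} (hP : P.Ok) {V : Finset ℕ} {G : List Ed} (hn : G.Nodup)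
    (hG : NL G.toFinset) (hV : ends G.toFinset ⊆ V) {v : ℕ} (nE : Finset Ed → ℕ → ℚ) (κ : ℚ)
    (F : Finset ℕ → ℚ) (K0 : List ℕ) (st : List Frame) {e : Ed} {l : List Ed}
    (he : atL v G = e :: l) :
    (∑ U ∈ range (2 ^ P.b), Val P.lam P.y V nE κ F (stepM P U (true, ((v, (G, K0)), st)))) /
        2 ^ P.b =
      Val P.lam P.y V nE κ F (true, ((v, (G, K0)), st)) -
        P.a / 2 ^ P.b * Dcost P.lam P.y V nE κ G.toFinset v (oth v e) e := by
  obtain ⟨hl, hy0, hy1, hp1, hp2⟩ := Par.facts hP
  have hea : e ∈ atL v G := by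
    rw [he]
    exact List.mem_cons_self
  have hea' := hea
  unfold atL at hea'
  rw [List.mem_filter] at hea'
  have heG : e ∈ G.toFinset := List.mem_toFinset.2 hea'.1
  have hev : e.2.1 = v ∨ e.2.2 = v := by simpa using hea'.2
  have hJ : Jn e v (oth v e) := by
    unfold oth
    by_cases h : e.2.1 = v
    · rw [if_pos h]
      exact Or.inl ⟨h, rfl⟩
    · rw [if_neg h]
      exact Or.inr ⟨rfl, hev.resolve_left h⟩
  set u := oth v e with hu
  have hvV : v ∈ V := by
    rcases hev with h | h
    · exact hV (h ▸ mem_ends_left heG)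
    · exact hV (h ▸ mem_ends_right heG)
  have huV : u ∈ V := by
    rcases hJ with ⟨-, h⟩ | ⟨h, -⟩
    · exact hV (h ▸ mem_ends_right heG)
    · exact hV (h ▸ mem_ends_left heG)
  have hdel : (delL e G).toFinset = G.toFinset.erase e := by
    ext f
    unfold delL
    rw [List.mem_toFinset, List.mem_filter, Finset.mem_erase, List.mem_toFinset]
    constructor
    · rintro ⟨h1, h2⟩
      refine ⟨?_, h1⟩
      simpa using h2
    · rintro ⟨h1, h2⟩
      refine ⟨h2, ?_⟩
      simpa using h1
  have hins : insert e (G.toFinset.erase e) = G.toFinset := Finset.insert_erase heG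
  have hG' : NL (G.toFinset.erase e) := hG.mono (Finset.erase_subset _ _)
  have hV' : ends (G.toFinset.erase e) ⊆ V := (ends_mono (Finset.erase_subset _ _)).trans hV
  have hout : ∀ K, out K (G.toFinset.erase e) ⊆ G.toFinset.erase e := fun K =>
    Finset.filter_subset _ _
  -- the values
  set I := ∑ S ∈ V.powerset, q P.lam P.y G.toFinset v S * RR P.lam P.y V nE κ F st S with hI
  set I' := ∑ S ∈ V.powerset, q P.lam P.y (G.toFinset.erase e) v S *
    (if u ∈ S then -P.y * I + (1 + P.y) * RR P.lam P.y V nE κ F st S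
      else RR P.lam P.y V nE κ F st S) with hI'
  set X' := ∑ S ∈ V.powerset, q P.lam P.y (G.toFinset.erase e) v S *
    (if u ∈ S then -P.y * nE G.toFinset v else 0) with hX'
  have hVs : Val P.lam P.y V nE κ F (true, ((v, (G, K0)), st)) = nE G.toFinset v + I := by
    unfold Val
    simp [hI]
  have hRRf : ∀ K, RR P.lam P.y V nE κ F (frA v e (delL e G) :: st) K =
      κ + (gK P.y v K (G.toFinset.erase e) * (nE (out K (G.toFinset.erase e)) v + κ) +
        (1 - gK P.y v K (G.toFinset.erase e)) * nE G.toFinset v) +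
      (gK P.y v K (G.toFinset.erase e) *
        ∑ S ∈ V.powerset, q P.lam P.y (out K (G.toFinset.erase e)) v S *
          RR P.lam P.y V nE κ F st (K ∪ S) +
        (1 - gK P.y v K (G.toFinset.erase e)) * I) := by
    intro K
    have h1 : RR P.lam P.y V nE κ F (frA v e (delL e G) :: st) K =
      κ + (gK P.y v K (delL e G).toFinset *
          (nE (out K (delL e G).toFinset) v +
            ∑ S ∈ V.powerset, q P.lam P.y (out K (delL e G).toFinset) v S *
              (κ + RR P.lam P.y V nE κ F st (K ∪ S))) +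
        (1 - gK P.y v K (delL e G).toFinset) *
          (nE (insert e (delL e G).toFinset) v +
            ∑ S ∈ V.powerset, q P.lam P.y (insert e (delL e G).toFinset) v S *
              RR P.lam P.y V nE κ F st S)) := by
      rw [RR]
      simp
    have h2 : ∑ S ∈ V.powerset, q P.lam P.y (out K (G.toFinset.erase e)) v S *
        (κ + RR P.lam P.y V nE κ F st (K ∪ S)) = κ +
        ∑ S ∈ V.powerset, q P.lam P.y (out K (G.toFinset.erase e)) v S *
          RR P.lam P.y V nE κ F st (K ∪ S) := by
      have h3 := q_sum hl hy0 hy1 (hG'.mono (hout K)) ((ends_mono (hout K)).trans hV') hvV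
      simp only [mul_add, Finset.sum_add_distrib]
      rw [← Finset.sum_mul, h3, one_mul]
    rw [h1, hdel, hins, h2, ← hI]
    ring
  have hH : Val P.lam P.y V nE κ F (ev u (delL e G) (frA v e (delL e G) :: st)) =
      nE (G.toFinset.erase e) u + κ +
      ∑ K ∈ V.powerset, q P.lam P.y (G.toFinset.erase e) u K *
        (gK P.y v K (G.toFinset.erase e) * (nE (out K (G.toFinset.erase e)) v + κ) +
          (1 - gK P.y v K (G.toFinset.erase e)) * nE G.toFinset v) +
      ∑ K ∈ V.powerset, q P.lam P.y (G.toFinset.erase e) u K *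
        (gK P.y v K (G.toFinset.erase e) *
          ∑ S ∈ V.powerset, q P.lam P.y (out K (G.toFinset.erase e)) v S *
            RR P.lam P.y V nE κ F st (K ∪ S) +
          (1 - gK P.y v K (G.toFinset.erase e)) * I) := by
    have h1 : Val P.lam P.y V nE κ F (ev u (delL e G) (frA v e (delL e G) :: st)) =
        nE (G.toFinset.erase e) u + ∑ K ∈ V.powerset, q P.lam P.y (G.toFinset.erase e) u K *
          RR P.lam P.y V nE κ F (frA v e (delL e G) :: st) K := by
      unfold Val
      rw [if_pos rfl]
      show nE (delL e G).toFinset u + ∑ K ∈ V.powerset, q P.lam P.y (delL e G).toFinset u K *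
        RR P.lam P.y V nE κ F (frA v e (delL e G) :: st) K = _
      rw [hdel]
    rw [h1]
    simp only [hRRf, mul_add, Finset.sum_add_distrib]
    rw [← Finset.sum_mul, q_sum hl hy0 hy1 hG' hV' huV]
    ring
  have hRRc : ∀ S, RR P.lam P.y V nE κ F (frC v e (delL e G) :: st) S =
      κ + (if u ∈ S then -P.y * nE G.toFinset v else 0) +
      (if u ∈ S then -P.y * I + (1 + P.y) * RR P.lam P.y V nE κ F st S
        else RR P.lam P.y V nE κ F st S) := by
    intro S
    have h1 : RR P.lam P.y V nE κ F (frC v e (delL e G) :: st) S =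
      κ + if oth v e ∈ S then
            -P.y * (nE (insert e (delL e G).toFinset) v +
              ∑ S ∈ V.powerset, q P.lam P.y (insert e (delL e G).toFinset) v S *
                RR P.lam P.y V nE κ F st S) + (1 + P.y) * RR P.lam P.y V nE κ F st S
          else RR P.lam P.y V nE κ F st S := by
      rw [RR]
      simp
    rw [h1, hdel, hins, ← hI, ← hu]
    split_ifs <;> ring
  have hT : Val P.lam P.y V nE κ F (ev v (delL e G) (frC v e (delL e G) :: st)) =
      nE (G.toFinset.erase e) v + κ + X' + I' := by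
    have h1 : Val P.lam P.y V nE κ F (ev v (delL e G) (frC v e (delL e G) :: st)) =
        nE (G.toFinset.erase e) v + ∑ K ∈ V.powerset, q P.lam P.y (G.toFinset.erase e) v K *
          RR P.lam P.y V nE κ F (frC v e (delL e G) :: st) K := by
      unfold Val
      rw [if_pos rfl]
      show nE (delL e G).toFinset v + ∑ K ∈ V.powerset, q P.lam P.y (delL e G).toFinset v K *
        RR P.lam P.y V nE κ F (frC v e (delL e G) :: st) K = _
      rw [hdel]
    rw [h1]
    simp only [hRRc, mul_add (q P.lam P.y (G.toFinset.erase e) v _), Finset.sum_add_distrib]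
    rw [← Finset.sum_mul, q_sum hl hy0 hy1 hG' hV' hvV, ← hX', ← hI']
    ring
  have hstep : ∀ U, Val P.lam P.y V nE κ F (stepM P U (true, ((v, (G, K0)), st))) =
      if U < P.c then Val P.lam P.y V nE κ F (ev u (delL e G) (frA v e (delL e G) :: st))
      else if U < P.a then Val P.lam P.y V nE κ F (ev v (delL e G) (frC v e (delL e G) :: st))
      else Val P.lam P.y V nE κ F (true, ((v, (G, K0)), st)) := by
    intro U
    have h1 : stepM P U (true, ((v, (G, K0)), st)) =
        if U < P.c then ev (oth v e) (delL e G) (frA v e (delL e G) :: st)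
        else if U < P.a then ev v (delL e G) (frC v e (delL e G) :: st)
        else (true, ((v, (G, K0)), st)) := by
      simp [stepM, stepE, he]
    rw [h1]
    split_ifs <;> rfl
  have hca : P.c < P.a := hP.2.1
  have hab : P.a ≤ 2 ^ P.b := hP.2.2.1
  have hc0 : (0 : ℚ) < P.c := by exact_mod_cast hP.1
  have ha0 : (0 : ℚ) < P.a := by
    have : (P.c : ℚ) < P.a := by exact_mod_cast hca
    linarith
  have hsum := sum3 P.c (P.a - P.c) (2 ^ P.b - P.a)
    (Val P.lam P.y V nE κ F (ev u (delL e G) (frA v e (delL e G) :: st)))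
    (Val P.lam P.y V nE κ F (ev v (delL e G) (frC v e (delL e G) :: st)))
    (Val P.lam P.y V nE κ F (true, ((v, (G, K0)), st)))
  rw [show P.c + (P.a - P.c) + (2 ^ P.b - P.a) = 2 ^ P.b by omega,
    show P.c + (P.a - P.c) = P.a by omega, Nat.cast_sub hca.le, Nat.cast_sub hab] at hsum
  rw [Finset.sum_congr rfl fun U _ => hstep U, hsum]
  have hkey := key hl hy0 hy1 hG hV heG hJ (fun S => RR P.lam P.y V nE κ F st S)
  rw [← hI, ← hI', hp1, hp2] at hkey
  have hD : Dcost P.lam P.y V nE κ G.toFinset v u e = nE G.toFinset v -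
      ((1 - (P.c : ℚ) / P.a) * (nE (G.toFinset.erase e) v + κ + X') + P.c / P.a *
        (nE (G.toFinset.erase e) u + κ + ∑ K ∈ V.powerset, q P.lam P.y (G.toFinset.erase e) u K *
          (gK P.y v K (G.toFinset.erase e) * (nE (out K (G.toFinset.erase e)) v + κ) +
            (1 - gK P.y v K (G.toFinset.erase e)) * nE G.toFinset v))) := by
    unfold Dcost
    rw [hp1, hp2]
  have h2b : (0 : ℚ) < 2 ^ P.b := by positivity
  rw [hD, hH, hT, hVs]
  set X := ∑ K ∈ V.powerset, q P.lam P.y (G.toFinset.erase e) u K *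
    (gK P.y v K (G.toFinset.erase e) * (nE (out K (G.toFinset.erase e)) v + κ) +
      (1 - gK P.y v K (G.toFinset.erase e)) * nE G.toFinset v)
  set Y := ∑ K ∈ V.powerset, q P.lam P.y (G.toFinset.erase e) u K *
    (gK P.y v K (G.toFinset.erase e) *
      ∑ S ∈ V.powerset, q P.lam P.y (out K (G.toFinset.erase e)) v S *
        RR P.lam P.y V nE κ F st (K ∪ S) +
      (1 - gK P.y v K (G.toFinset.erase e)) * I)
  have hkey' : (P.a : ℚ) * I = (P.a - P.c) * I' + P.c * Y := by
    have h3 : (P.a : ℚ) * I = P.a * ((1 - (P.c : ℚ) / P.a) * I' + P.c / P.a * Y) := by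
      rw [← hkey]
    rw [h3]
    field_simp
  have hgoal : (P.c : ℚ) * (nE (G.toFinset.erase e) u + κ + X + Y) +
      (P.a - P.c) * (nE (G.toFinset.erase e) v + κ + X' + I') +
      (2 ^ P.b - P.a) * (nE G.toFinset v + I) =
      2 ^ P.b * (nE G.toFinset v + I) - P.a * (nE G.toFinset v -
      ((1 - (P.c : ℚ) / P.a) * (nE (G.toFinset.erase e) v + κ + X') + P.c / P.a *
        (nE (G.toFinset.erase e) u + κ + X))) := by
    have h4 : (P.a : ℚ) * ((1 - (P.c : ℚ) / P.a) * (nE (G.toFinset.erase e) v + κ + X') +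
        P.c / P.a * (nE (G.toFinset.erase e) u + κ + X)) =
        (P.a - P.c) * (nE (G.toFinset.erase e) v + κ + X') +
          P.c * (nE (G.toFinset.erase e) u + κ + X) := by
      field_simp
    rw [mul_sub (P.a : ℚ), h4]
    linear_combination -hkey'
  push_cast
  rw [hgoal]
  field_simp

end Pool.Agent.TFN
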