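import Pool.Agent.TFN.CRec

set_option autoImplicit false

/-!
# TFN-WId: the weights of the clusters of `v` containing `u`, with a test function

Model: `Pool/Agent/TFP/WId.lean` (finished; copy and adapt).

Plan. Multiply `cc_rec2` (for `S ∋ v, u`) with `μ^(|S|-1) * ZZ μ β (out S G) * R S` and sum over `S`. Substitute
`S' = S \ K`, `S = K ∪ S'`: pairs `(K, S')` with `K ⊆ V`, `u ∈ K`, `v ∉ K`, `S' ⊆ V`, `v ∈ S'`, `S'` disjoint from `K`; here
`|S| - 1 = (|K| - 1) + (|S'| - 1) + 1`, `out S G = out S' (out K G)`, `cc β S' G = cc β S' (out K G)`. The terms with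
`S'` not disjoint from `K` on the right hand side vanish (as in the model).
-/

namespace Pool.Agent.TFN

open Finset Pool.Agent.TFP

private theorem out_out (K S : Finset ℕ) (G : Finset Ed) : out S (out K G) = out (K ∪ S) G := by
  ext f
  unfold out
  simp only [mem_filter, mem_union]
  tauto

private theorem cc_out (β : ℚ) {K S : Finset ℕ} (G : Finset Ed) (h : Disjoint S K) :
    cc β S (out K G) = cc β S G := by
  have e : ins S (out K G) = ins S G := by
    ext f
    unfold ins out
    simp only [mem_filter]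
    constructor
    · rintro ⟨⟨h1, _⟩, h2⟩
      exact ⟨h1, h2⟩
    · rintro ⟨h1, h2⟩
      exact ⟨⟨h1, disjoint_left.1 h h2.1, disjoint_left.1 h h2.2⟩, h2⟩
  unfold cc
  rw [e]

private theorem cc_zero (β : ℚ) {K S : Finset ℕ} (G : Finset Ed) {v w : ℕ} (hv : v ∈ S)
    (hw : w ∈ S) (hwK : w ∈ K) (hvK : v ∉ K) : cc β S (out K G) = 0 := by
  classical
  unfold cc
  refine sum_eq_zero fun A hA => ?_
  exfalso
  rw [Finset.mem_filter, mem_powerset] at hA
  obtain ⟨hA1, hA2⟩ := hA
  have hwe : w ∉ ends A := by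
    intro hwA
    unfold ends at hwA
    rw [mem_union, mem_image, mem_image] at hwA
    rcases hwA with ⟨f, hf, h1⟩ | ⟨f, hf, h1⟩
    · have h2 := hA1 hf
      unfold ins out at h2
      rw [mem_filter, mem_filter] at h2
      exact h2.1.2.1 (h1 ▸ hwK)
    · have h2 := hA1 hf
      unfold ins out at h2
      rw [mem_filter, mem_filter] at h2
      exact h2.1.2.2 (h1 ▸ hwK)
  have h3 := hA2 w hw v hv
  rw [← mem_comp, comp_not_ends hwe, mem_singleton] at h3
  exact hvK (h3 ▸ hwK)

theorem W_id2 (μ β : ℚ) {G : Finset Ed} {v u : ℕ} (hvu : v ≠ u) (V : Finset ℕ)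
    (R : Finset ℕ → ℚ) :
    ∑ S ∈ V.powerset, ww μ β G v S * (if u ∈ S then R S else 0) =
      μ * ∑ K ∈ V.powerset,
        (if v ∈ K then 0 else (1 + β) ^ (btw v K G).card - 1) *
        (if u ∈ K then μ ^ (K.card - 1) * cc β K G else 0) *
        ∑ S ∈ V.powerset, ww μ β (out K G) v S * R (K ∪ S) := by
  classical
  -- the term of the pair (K, S)
  let t : Finset ℕ → Finset ℕ → ℚ := fun K S =>
    μ ^ (S.card - 1) * (cc β K G * ((1 + β) ^ (btw v K G).card - 1) * cc β (S \ K) G) *
      ZZ μ β (out S G) * R S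
  have h1 : ∀ S ∈ V.powerset, ww μ β G v S * (if u ∈ S then R S else 0) =
      ∑ K ∈ V.powerset, (if v ∈ S ∧ K ⊆ S ∧ u ∈ K ∧ v ∉ K then t K S else 0) := by
    intro S hS
    by_cases hv : v ∈ S
    · by_cases hu : u ∈ S
      · have h2 := cc_rec2 β (G := G) hvu hv hu
        have h3 : ∑ K ∈ V.powerset, (if v ∈ S ∧ K ⊆ S ∧ u ∈ K ∧ v ∉ K then t K S else 0) =
            ∑ K ∈ S.powerset.filter (fun K => u ∈ K ∧ v ∉ K), t K S := by
          rw [← sum_filter]
          apply sum_congr
          · ext K
            rw [mem_filter, mem_filter, mem_powerset, mem_powerset]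
            constructor
            · rintro ⟨_, _, h5, h6⟩
              exact ⟨h5, h6⟩
            · rintro ⟨h5, h6⟩
              exact ⟨h5.trans (mem_powerset.1 hS), hv, h5, h6⟩
          · intro K _
            rfl
        rw [h3]
        unfold ww
        rw [if_pos hv, if_pos hu, h2, mul_sum, sum_mul, sum_mul]
      · rw [if_neg hu, mul_zero]
        symm
        apply sum_eq_zero
        intro K _
        rw [if_neg (fun h => hu (h.2.1 h.2.2.1))]
    · have h3 : ∑ K ∈ V.powerset, (if v ∈ S ∧ K ⊆ S ∧ u ∈ K ∧ v ∉ K then t K S else 0) = 0 := by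
        apply sum_eq_zero
        intro K _
        rw [if_neg (fun h => hv h.1)]
      rw [h3]
      unfold ww
      rw [if_neg hv, zero_mul]
  rw [sum_congr rfl h1, sum_comm, mul_sum]
  apply sum_congr rfl
  intro K hK
  have hKV : K ⊆ V := mem_powerset.1 hK
  by_cases hvK : v ∈ K
  · rw [if_pos hvK]
    rw [sum_eq_zero (fun S _ => by rw [if_neg (fun h => h.2.2.2 hvK)])]
    ring
  by_cases huK : u ∈ K
  · rw [if_neg hvK, if_pos huK]
    have h4 : ∑ S ∈ V.powerset, (if v ∈ S ∧ K ⊆ S ∧ u ∈ K ∧ v ∉ K then t K S else 0) =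
        ∑ S ∈ V.powerset.filter (fun S => v ∈ S ∧ Disjoint S K), t K (K ∪ S) := by
      rw [← sum_filter]
      refine sum_nbij' (fun S => S \ K) (fun S => K ∪ S) ?_ ?_ ?_ ?_ ?_
      · intro S hS
        rw [mem_filter, mem_powerset] at hS
        rw [mem_filter, mem_powerset]
        exact ⟨sdiff_subset.trans hS.1, mem_sdiff.2 ⟨hS.2.1, hvK⟩, sdiff_disjoint⟩
      · intro S hS
        rw [mem_filter, mem_powerset] at hS
        rw [mem_filter, mem_powerset]
        exact ⟨union_subset hKV hS.1, mem_union_right _ hS.2.1, subset_union_left, huK, hvK⟩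
      · intro S hS
        rw [mem_filter] at hS
        exact union_sdiff_of_subset hS.2.2.1
      · intro S hS
        rw [mem_filter] at hS
        exact union_sdiff_cancel_left hS.2.2.symm
      · intro S hS
        rw [mem_filter] at hS
        rw [union_sdiff_of_subset hS.2.2.1]
    rw [h4, sum_filter, mul_sum, mul_sum]
    apply sum_congr rfl
    intro S hS
    by_cases hv : v ∈ S
    · by_cases hd : Disjoint S K
      · rw [if_pos ⟨hv, hd⟩]
        unfold ww
        rw [if_pos hv, cc_out β G hd, out_out]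
        simp only [t]
        rw [union_sdiff_cancel_left hd.symm, card_union_of_disjoint hd.symm]
        have hk : 1 ≤ K.card := card_pos.2 ⟨u, huK⟩
        have hs : 1 ≤ S.card := card_pos.2 ⟨v, hv⟩
        have e1 : K.card + S.card - 1 = (K.card - 1) + (S.card - 1) + 1 := by omega
        rw [e1, pow_succ, pow_add]
        ring
      · rw [if_neg (fun h => hd h.2)]
        obtain ⟨w, hw1, hw2⟩ := not_disjoint_iff.1 hd
        unfold ww
        rw [if_pos hv, cc_zero β G hv hw1 hw2 hvK]
        ring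
    · rw [if_neg (fun h => hv h.1)]
      unfold ww
      rw [if_neg hv]
      ring
  · rw [if_neg huK]
    rw [sum_eq_zero (fun S _ => by rw [if_neg (fun h => huK h.2.2.1)])]
    ring

end Pool.Agent.TFN
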