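import Pool.Agent.TFN.ZPos
import Pool.Agent.TFN.WId

set_option autoImplicit false

/-!
# TFN-PCon: the probability that `u` is in the cluster of `v`

The identity `con_id` for means over the clusters of `v` containing `u`, and the bound `lam / (1 + lam)` for the probability.
-/

namespace Pool.Agent.TFN

open Finset Pool.Agent.TFP

variable {lam y : ℚ}

private theorem pc_out {G : Finset Ed} (hG : NL G) (K : Finset ℕ) : NL (out K G) := by
  intro e he
  exact hG e (Finset.mem_filter.1 he).1

private theorem pc_ends (G : Finset Ed) (K : Finset ℕ) : ends (out K G) ⊆ ends G := by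
  unfold ends
  exact Finset.union_subset_union (Finset.image_subset_image (Finset.filter_subset _ _))
    (Finset.image_subset_image (Finset.filter_subset _ _))

theorem con_id (hl : 0 < lam) (hy0 : -1 < y) (hy1 : y < 0) {G : Finset Ed} (hG : NL G)
    (V : Finset ℕ) {v u : ℕ} (hvu : v ≠ u) (R : Finset ℕ → ℚ) :
    ∑ S ∈ V.powerset, q lam y G v S * (if u ∈ S then R S else 0) =
      lam * ∑ K ∈ V.powerset, q lam y G u K * ((if v ∈ K then 0 else br y (btw v K G).card) *
        ∑ S ∈ V.powerset, q lam y (out K G) v S * R (K ∪ S)) := by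
  have hβ : y - 1 ≠ 0 := by linarith
  have hZ : Z lam y G ≠ 0 := (Z_pos hl hy0 hy1 hG).ne'
  have h1 : ∑ S ∈ V.powerset, q lam y G v S * (if u ∈ S then R S else 0) =
      (∑ S ∈ V.powerset, ww (lam / (y - 1)) (y - 1) G v S * (if u ∈ S then R S else 0)) / Z lam y G := by
    rw [Finset.sum_div]
    refine Finset.sum_congr rfl fun S _ => ?_
    unfold q
    ring
  rw [h1, W_id2 (lam / (y - 1)) (y - 1) hvu V R, mul_div_assoc, Finset.sum_div, Finset.mul_sum,
    Finset.mul_sum]
  refine Finset.sum_congr rfl fun K _ => ?_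
  have hZ' : Z lam y (out K G) ≠ 0 := (Z_pos hl hy0 hy1 (pc_out hG K)).ne'
  have h2 : ∑ S ∈ V.powerset, q lam y (out K G) v S * R (K ∪ S) =
      (∑ S ∈ V.powerset, ww (lam / (y - 1)) (y - 1) (out K G) v S * R (K ∪ S)) / Z lam y (out K G) := by
    rw [Finset.sum_div]
    refine Finset.sum_congr rfl fun S _ => ?_
    unfold q
    ring
  have h3 : q lam y G u K = (if u ∈ K then (lam / (y - 1)) ^ (K.card - 1) * cc (y - 1) K G else 0) *
      Z lam y (out K G) / Z lam y G := by
    unfold q ww
    split_ifs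
    · rfl
    · simp
  have h4 : (if v ∈ K then (0 : ℚ) else (1 + (y - 1)) ^ (btw v K G).card - 1) =
      (y - 1) * (if v ∈ K then 0 else br y (btw v K G).card) := by
    split_ifs
    · rw [mul_zero]
    · rw [br_geom]
      congr 2
      ring
  rw [h2, h3, h4]
  have h5 : lam / (y - 1) * (y - 1) = lam := div_mul_cancel₀ _ hβ
  generalize (∑ S ∈ V.powerset, ww (lam / (y - 1)) (y - 1) (out K G) v S * R (K ∪ S)) = W
  generalize (if u ∈ K then (lam / (y - 1)) ^ (K.card - 1) * cc (y - 1) K G else 0) = c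
  generalize (if v ∈ K then (0 : ℚ) else br y (btw v K G).card) = b
  generalize Z lam y (out K G) = z' at hZ'
  generalize Z lam y G = z at hZ
  calc lam / (y - 1) * ((y - 1) * b * c * W / z) = lam / (y - 1) * (y - 1) * (b * c * W / z) := by ring
    _ = lam * (b * c * W / z) := by rw [h5]
    _ = lam * (c * z' / z * (b * (W / z'))) := by
        field_simp


theorem con_symm (lam y : ℚ) (G : Finset Ed) (v u : ℕ) (S : Finset ℕ) :
    q lam y G v S * (if u ∈ S then 1 else 0) = q lam y G u S * (if v ∈ S then 1 else 0) := by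
  unfold q ww
  by_cases hv : v ∈ S <;> by_cases hu : u ∈ S <;> simp [hv, hu]


theorem con_le (hl : 0 < lam) (hy0 : -1 < y) (hy1 : y < 0) {G : Finset Ed} (hG : NL G)
    {V : Finset ℕ} (hV : ends G ⊆ V) {v u : ℕ} (hv : v ∈ V) (hu : u ∈ V) (hvu : v ≠ u) :
    ∑ S ∈ V.powerset, q lam y G v S * (if u ∈ S then 1 else 0) ≤ lam / (1 + lam) := by
  set t := ∑ S ∈ V.powerset, q lam y G v S * (if u ∈ S then 1 else 0) with ht
  have h1 := con_id hl hy0 hy1 hG V hvu (fun _ => (1 : ℚ))
  have h2 : t = lam * ∑ K ∈ V.powerset, q lam y G u K * (if v ∈ K then 0 else br y (btw v K G).card) := by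
    rw [ht, h1]
    congr 1
    refine Finset.sum_congr rfl fun K _ => ?_
    have h3 : ∑ S ∈ V.powerset, q lam y (out K G) v S * 1 = 1 := by
      have h4 := q_sum hl hy0 hy1 (pc_out hG K) (V := V) ((pc_ends G K).trans hV) hv
      refine Eq.trans ?_ h4
      exact Finset.sum_congr rfl fun S _ => mul_one _
    rw [h3, mul_one]
  have h3 : ∑ K ∈ V.powerset, q lam y G u K * (if v ∈ K then 0 else br y (btw v K G).card) ≤
      ∑ K ∈ V.powerset, (q lam y G u K - q lam y G u K * (if v ∈ K then 1 else 0)) := by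
    refine Finset.sum_le_sum fun K _ => ?_
    have hq := q_nonneg hl hy0 hy1 hG u K
    split_ifs
    · rw [mul_zero, mul_one, sub_self]
    · rw [mul_zero, sub_zero]
      exact mul_le_of_le_one_right hq (br_mem hy0 hy1 _).2
  rw [Finset.sum_sub_distrib, q_sum hl hy0 hy1 hG hV hu] at h3
  have h4 : ∑ K ∈ V.powerset, q lam y G u K * (if v ∈ K then 1 else 0) = t := by
    rw [ht]
    exact Finset.sum_congr rfl fun K _ => (con_symm lam y G v u K).symm
  rw [h4] at h3
  have h5 : t ≤ lam * (1 - t) := by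
    refine h2.le.trans ?_
    exact mul_le_mul_of_nonneg_left h3 hl.le
  rw [le_div_iff₀ (by linarith)]
  linarith


end Pool.Agent.TFN
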