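import Pool.Agent.TFN.ZEr
import Pool.Agent.TFN.InvS

set_option autoImplicit false

/-!
# TFN-ValB: bounds of the value functions

Induction on the stack: the value functions are convex combinations (with nonnegative costs) of values of smaller stacks.
-/

namespace Pool.Agent.TFN

open Finset Pool.Agent.TFP

private def vbF (V : Finset ℕ) (f : Frame) : Prop :=
  f.1.1 = true → NL (insert f.2.1.2 f.2.2.1.toFinset) ∧ ends (insert f.2.1.2 f.2.2.1.toFinset) ⊆ V ∧
    f.2.1.1 ∈ V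

private theorem vb_inv {V : Finset ℕ} {D : ℕ} {s : St} (hs : Inv V D s) :
    ∀ f ∈ s.2.2, vbF V f := by
  intro f hf h1
  obtain ⟨-, hC, hv, -⟩ := hs.2 f hf h1
  rw [List.toFinset_cons] at hC
  exact ⟨hC.1, hC.2.1, hv⟩

private theorem vb_out (K : Finset ℕ) (e : Ed) (G : Finset Ed) : out K G ⊆ insert e G :=
  (Finset.filter_subset _ _).trans (Finset.subset_insert _ _)

private theorem vb_sum_nonneg {lam y : ℚ} (hl : 0 < lam) (hy0 : -1 < y) (hy1 : y < 0)
    {G : Finset Ed} (hG : NL G) (V : Finset ℕ) (v : ℕ) {R : Finset ℕ → ℚ} (hR : ∀ S, 0 ≤ R S) :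
    0 ≤ ∑ S ∈ V.powerset, q lam y G v S * R S :=
  Finset.sum_nonneg fun S _ => mul_nonneg (q_nonneg hl hy0 hy1 hG v S) (hR S)

private theorem vb_sum_le {lam y : ℚ} (hl : 0 < lam) (hy0 : -1 < y) (hy1 : y < 0)
    {G : Finset Ed} (hG : NL G) {V : Finset ℕ} (hV : ends G ⊆ V) {v : ℕ} (hv : v ∈ V)
    {R : Finset ℕ → ℚ} (hR : ∀ S, R S ≤ 1) :
    ∑ S ∈ V.powerset, q lam y G v S * R S ≤ 1 := by
  rw [← q_sum hl hy0 hy1 hG hV hv]
  exact Finset.sum_le_sum fun S _ => mul_le_of_le_one_right (q_nonneg hl hy0 hy1 hG v S) (hR S)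

private theorem vb_RR_nonneg {lam y : ℚ} (hl : 0 < lam) (hy0 : -1 < y) (hy1 : y < 0)
    {V : Finset ℕ} {nE : Finset Ed → ℕ → ℚ} {κ : ℚ} {F : Finset ℕ → ℚ}
    (hn : ∀ G v, 0 ≤ nE G v) (hκ : 0 ≤ κ) (hF : ∀ K, 0 ≤ F K) :
    ∀ st : List Frame, (∀ f ∈ st, vbF V f) → ∀ K, 0 ≤ RR lam y V nE κ F st K := by
  intro st
  induction st with
  | nil => intro _ K; exact hF K
  | cons f st ih =>
    intro h K
    have ih' := ih fun g hg => h g (List.mem_cons_of_mem _ hg)
    rw [RR]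
    by_cases h1 : f.1.1 = true
    · rw [if_pos h1]
      obtain ⟨a1, a2, a3⟩ := h f (by simp) h1
      have s2 := vb_sum_nonneg hl hy0 hy1 a1 V f.2.1.1
        (R := fun S => RR lam y V nE κ F st S) ih'
      have n2 := hn (insert f.2.1.2 f.2.2.1.toFinset) f.2.1.1
      by_cases h2 : f.1.2 = true
      · rw [if_pos h2]
        have b1 : NL (out K f.2.2.1.toFinset) := a1.mono (vb_out K _ _)
        obtain ⟨t0, t1⟩ := gK_mem hy0 hy1 f.2.1.1 K f.2.2.1.toFinset
        have s1 := vb_sum_nonneg hl hy0 hy1 b1 V f.2.1.1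
          (R := fun S => κ + RR lam y V nE κ F st (K ∪ S)) (fun S => add_nonneg hκ (ih' _))
        have n1 := hn (out K f.2.2.1.toFinset) f.2.1.1
        exact add_nonneg hκ (add_nonneg (mul_nonneg t0 (add_nonneg n1 s1))
          (mul_nonneg (by linarith) (add_nonneg n2 s2)))
      · rw [if_neg h2]
        refine add_nonneg hκ ?_
        by_cases h3 : oth f.2.1.1 f.2.1.2 ∈ K
        · rw [if_pos h3]
          exact add_nonneg (mul_nonneg (by linarith) (add_nonneg n2 s2))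
            (mul_nonneg (by linarith) (ih' _))
        · rw [if_neg h3]
          exact ih' _
    · rw [if_neg h1]
      exact add_nonneg hκ (ih' _)

private theorem vb_RR_le {lam y : ℚ} (hl : 0 < lam) (hy0 : -1 < y) (hy1 : y < 0)
    {V : Finset ℕ} {F : Finset ℕ → ℚ} (hF : ∀ K, F K ≤ 1) :
    ∀ st : List Frame, (∀ f ∈ st, vbF V f) → ∀ K,
      RR lam y V (fun _ _ => 0) 0 F st K ≤ 1 := by
  intro st
  induction st with
  | nil => intro _ K; exact hF K
  | cons f st ih =>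
    intro h K
    have ih' := ih fun g hg => h g (List.mem_cons_of_mem _ hg)
    rw [RR]
    by_cases h1 : f.1.1 = true
    · rw [if_pos h1]
      obtain ⟨a1, a2, a3⟩ := h f (by simp) h1
      have s2 := vb_sum_le hl hy0 hy1 a1 a2 a3
        (R := fun S => RR lam y V (fun _ _ => 0) 0 F st S) ih'
      by_cases h2 : f.1.2 = true
      · rw [if_pos h2]
        have b1 : NL (out K f.2.2.1.toFinset) := a1.mono (vb_out K _ _)
        have b2 : ends (out K f.2.2.1.toFinset) ⊆ V := (ends_mono (vb_out K _ _)).trans a2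
        obtain ⟨t0, t1⟩ := gK_mem hy0 hy1 f.2.1.1 K f.2.2.1.toFinset
        have s1 := vb_sum_le hl hy0 hy1 b1 b2 a3
          (R := fun S => 0 + RR lam y V (fun _ _ => 0) 0 F st (K ∪ S))
          (fun S => by rw [zero_add]; exact ih' _)
        have m1 := mul_le_mul_of_nonneg_left s1 t0
        have m2 := mul_le_mul_of_nonneg_left s2 (sub_nonneg.mpr t1)
        simp only [zero_add] at m1 m2 ⊢
        linarith
      · rw [if_neg h2]
        by_cases h3 : oth f.2.1.1 f.2.1.2 ∈ K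
        · rw [if_pos h3]
          have m1 := mul_le_mul_of_nonneg_left s2 (show 0 ≤ -y by linarith)
          have m2 := mul_le_mul_of_nonneg_left (ih' K) (show 0 ≤ 1 + y by linarith)
          simp only [zero_add] at m1 m2 ⊢
          linarith
        · rw [if_neg h3, zero_add]
          exact ih' _
    · rw [if_neg h1, zero_add]
      exact ih' _

theorem Val_mem {lam y : ℚ} (hl : 0 < lam) (hy0 : -1 < y) (hy1 : y < 0) {V : Finset ℕ} {D : ℕ}
    {F : Finset ℕ → ℚ} (hF : ∀ K, 0 ≤ F K ∧ F K ≤ 1) {s : St} (hs : Inv V D s) :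
    0 ≤ Val lam y V (fun _ _ => 0) 0 F s ∧ Val lam y V (fun _ _ => 0) 0 F s ≤ 1 := by
  have hf := vb_inv hs
  have h0 := vb_RR_nonneg hl hy0 hy1 (V := V) (nE := fun _ _ => 0) (κ := 0) (F := F)
    (fun _ _ => le_rfl) le_rfl (fun K => (hF K).1) s.2.2 hf
  have h1 := vb_RR_le hl hy0 hy1 (V := V) (F := F) (fun K => (hF K).2) s.2.2 hf
  unfold Val
  by_cases hs1 : s.1 = true
  · rw [if_pos hs1]
    obtain ⟨-, hC, hv⟩ := hs.1 hs1
    rw [zero_add]
    exact ⟨vb_sum_nonneg hl hy0 hy1 hC.1 V _ h0, vb_sum_le hl hy0 hy1 hC.1 hC.2.1 hv h1⟩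
  · rw [if_neg hs1]
    exact ⟨h0 _, h1 _⟩

theorem Pot_nonneg {P : Par} (hl : 0 < P.lam) (hy0 : -1 < P.y) (hy1 : P.y < 0) {V : Finset ℕ}
    {D : ℕ} {B : ℚ} (hB0 : 0 ≤ B) {s : St} (hs : Inv V D s) : 0 ≤ Pot P V B s := by
  have hf := vb_inv hs
  have hn : ∀ (G : Finset Ed) (v : ℕ), (0 : ℚ) ≤ 2 ^ P.b * (1 + B * (star v G).card) := by
    intro G v
    positivity
  have h0 := vb_RR_nonneg hl hy0 hy1 (V := V)
    (nE := fun G v => 2 ^ P.b * (1 + B * (star v G).card)) (κ := 2 ^ P.b) (F := fun _ => 0)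
    hn (by positivity) (fun _ => le_rfl) s.2.2 hf
  unfold Pot Val
  by_cases hs1 : s.1 = true
  · rw [if_pos hs1]
    obtain ⟨-, hC, hv⟩ := hs.1 hs1
    exact add_nonneg (hn _ _) (vb_sum_nonneg hl hy0 hy1 hC.1 V _ h0)
  · rw [if_neg hs1]
    exact h0 _

theorem Pot_start {P : Par} {V : Finset ℕ} {D : ℕ} {B : ℚ} (hB0 : 0 ≤ B) {G : List Ed}
    (hG : Cl V D G.toFinset) (v : ℕ) :
    Pot P V B (ev v G []) ≤ 2 ^ P.b * (1 + B * D) := by
  have e : Pot P V B (ev v G []) = 2 ^ P.b * (1 + B * (star v G.toFinset).card) := by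
    unfold Pot Val
    rw [if_pos rfl]
    have : ∑ S ∈ V.powerset, q P.lam P.y G.toFinset v S *
        RR P.lam P.y V (fun G v => 2 ^ P.b * (1 + B * (star v G).card)) (2 ^ P.b) (fun _ => 0) [] S = 0 :=
      Finset.sum_eq_zero fun S _ => by rw [RR, mul_zero]
    rw [this, add_zero]
  rw [e]
  have h1 : ((star v G.toFinset).card : ℚ) ≤ D := by exact_mod_cast hG.2.2 v
  have h2 : B * ((star v G.toFinset).card : ℚ) ≤ B * D := mul_le_mul_of_nonneg_left h1 hB0
  have h3 : (0 : ℚ) ≤ 2 ^ P.b := by positivity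
  exact mul_le_mul_of_nonneg_left (by linarith) h3

end Pool.Agent.TFN
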