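import Pool.Agent.TFN.RunA

set_option autoImplicit false

/-!
# TFN-TrialA: one trial

Model: `Pool/Agent/TFP/TrialA.lean` (finished).

Plan. `v = e.2.1`, `u = e.2.2`, `F K = pK lam y v K E.toFinset / (1 + lam) ∈ [0, 1]` (`pK_mem`).
`trial / Wp = (1 + lam) * (if isT s' then F K else 0)` with `s' = runM P L l (ev u E [])`, `K = s'.2.1.2.2.toFinset`: for `v ∉ K`:
`nth P.pl j / Wp = 1 + lam * br y (j + 1)`, `j = jj .. = (btw v K E).card ≤ D` (`jj_eq`). `(1 + lam) * Val (ev u E []) =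
rt lam y V E.toFinset u v`. Then `run_val`, `run_term`, `Pot_start` as in the model.
`trial_le`: `jj ≤ D`, `br ≤ 1` (`br_mem`).
-/

namespace Pool.Agent.TFN

open Finset Pool.Agent.TFP

private theorem jj_le (P : Par) (v : ℕ) (K : List ℕ) (G : List Ed) : jj P v K G ≤ P.D := by
  unfold jj
  rw [List.length_take]
  exact min_le_left _ _

private theorem trial_q {P : Par} (hP : P.Ok) {V : Finset ℕ} (L : ℕ) {e : Ed}
    {E : List Ed} (hn : E.Nodup) (hC : Cl V P.D E.toFinset) (l : List Bool) :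
    1 / (P.Wp : ℚ) * (trial P L e E l : ℚ) =
      (1 + P.lam) * (if isT (runM P L l (ev e.2.2 E [])) then
        pK P.lam P.y e.2.1 (runM P L l (ev e.2.2 E [])).2.1.2.2.toFinset E.toFinset /
          (1 + P.lam) else 0) := by
  obtain ⟨hl, _, _, _, _⟩ := Par.facts hP
  obtain ⟨_, _, _, _, _, _, _, hWp, _, _, hpl⟩ := hP
  have hl1 : (1 + P.lam) ≠ 0 := by linarith
  have hW : (P.Wp : ℚ) ≠ 0 := by exact_mod_cast hWp.ne'
  unfold trial pay
  generalize runM P L l (ev e.2.2 E []) = s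
  have hj := jj_eq (P := P) (v := e.2.1) (K := s.2.1.2.2) hn (hC.2.2 e.2.1)
  have hjl := jj_le P e.2.1 s.2.1.2.2 E
  unfold pK
  by_cases hT : isT s = true
  · by_cases hv : e.2.1 ∈ s.2.1.2.2
    · have h1 : s.2.1.2.2.contains e.2.1 = true := by simpa using hv
      have h2 : e.2.1 ∈ s.2.1.2.2.toFinset := List.mem_toFinset.2 hv
      rw [hT, h1, if_pos h2]
      simp
    · have h1 : s.2.1.2.2.contains e.2.1 = false := by simpa using hv
      have h2 : e.2.1 ∉ s.2.1.2.2.toFinset := fun h => hv (List.mem_toFinset.1 h)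
      have h3 := hpl _ hjl
      rw [hT, h1, if_neg h2, ← hj]
      simp only [Bool.not_false, Bool.and_self, if_true]
      rw [← h3]
      field_simp
  · have hT' : isT s = false := by simpa using hT
    simp [hT']

theorem trial_le {P : Par} (hP : P.Ok) (L : ℕ) (e : Ed) (E : List Ed) (l : List Bool) :
    (trial P L e E l : ℚ) ≤ (1 + P.lam) * P.Wp := by
  obtain ⟨hl, hy0, hy1, _, _⟩ := Par.facts hP
  obtain ⟨_, _, _, _, _, _, _, hWp, _, _, hpl⟩ := hP
  have hW : (0 : ℚ) < (P.Wp : ℚ) := by exact_mod_cast hWp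
  unfold trial pay
  split_ifs with h
  · have h1 := hpl _ (jj_le P e.2.1 (runM P L l (ev e.2.2 E [])).2.1.2.2 E)
    rw [div_eq_iff hW.ne'] at h1
    rw [h1]
    refine mul_le_mul_of_nonneg_right ?_ hW.le
    have h2 := (br_mem hy0 hy1 (jj P e.2.1 (runM P L l (ev e.2.2 E [])).2.1.2.2 E + 1)).2
    have h3 := mul_le_mul_of_nonneg_left h2 hl.le
    linarith
  · have h1 : (0 : ℚ) ≤ (1 + P.lam) * P.Wp := mul_nonneg (by linarith) hW.le
    simpa using h1

theorem trial_mean {P : Par} (hP : P.Ok) {V : Finset ℕ} {B : ℚ} (hB0 : 0 ≤ B)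
    (hB : 5 ≤ B * (1 - P.lam / (1 + P.lam) * P.D * (1 - P.y + P.y * (P.lam / (1 + P.lam)))))
    {L : ℕ} (hL : 0 < L) {e : Ed} {E : List Ed} (hn : (e :: E).Nodup)
    (hC : Cl V P.D (e :: E).toFinset) :
    rt P.lam P.y V E.toFinset e.2.2 e.2.1 - (1 + P.lam) * (2 ^ P.b * (1 + B * P.D) / L) ≤
        avg (L * P.b) (fun l => (trial P L e E l : ℚ)) / P.Wp ∧
      avg (L * P.b) (fun l => (trial P L e E l : ℚ)) / P.Wp ≤
        rt P.lam P.y V E.toFinset e.2.2 e.2.1 := by
  obtain ⟨hl, hy0, hy1, _, _⟩ := Par.facts hP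
  have hl1 : 0 < 1 + P.lam := by linarith
  have hEn : E.Nodup := (List.nodup_cons.1 hn).2
  have hsub : E.toFinset ⊆ (e :: E).toFinset := by
    intro f hf
    rw [List.mem_toFinset] at hf ⊢
    exact List.mem_cons_of_mem _ hf
  have hCE : Cl V P.D E.toFinset := hC.mono hsub
  have hu : e.2.2 ∈ V := by
    apply hC.2.1
    apply mem_ends_right
    rw [List.mem_toFinset]
    exact List.mem_cons_self
  have hs : Inv V P.D (ev e.2.2 E []) := by
    refine ⟨fun _ => ⟨hEn, hCE, hu⟩, ?_⟩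
    intro f hf
    exact absurd hf List.not_mem_nil
  have hVal : (1 + P.lam) * Val P.lam P.y V (fun _ _ => 0) 0
      (fun K => pK P.lam P.y e.2.1 K E.toFinset / (1 + P.lam))
      (ev e.2.2 E []) = rt P.lam P.y V E.toFinset e.2.2 e.2.1 := by
    have h1 : Val P.lam P.y V (fun _ _ => 0) 0
        (fun K => pK P.lam P.y e.2.1 K E.toFinset / (1 + P.lam)) (ev e.2.2 E []) =
        ∑ S ∈ V.powerset, q P.lam P.y E.toFinset e.2.2 S *
          (pK P.lam P.y e.2.1 S E.toFinset / (1 + P.lam)) := by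
      simp [Val, RR]
    rw [h1, Finset.mul_sum]
    unfold rt
    refine Finset.sum_congr rfl fun S _ => ?_
    field_simp
  have hrv := run_val hP (F := fun K => pK P.lam P.y e.2.1 K E.toFinset / (1 + P.lam))
    (fun K => by
      obtain ⟨h1, h2⟩ := pK_mem hl hy0 hy1 e.2.1 K E.toFinset
      exact ⟨div_nonneg h1 hl1.le, (div_le_one hl1).2 h2⟩) L hs
  have hrt := run_term hP hB0 hB L hs
  have hps := Pot_start (P := P) hB0 hCE e.2.2
  have havg : avg (L * P.b) (fun l => (trial P L e E l : ℚ)) / P.Wp =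
      (1 + P.lam) * avg (L * P.b) (fun l => if isT (runM P L l (ev e.2.2 E [])) then
        pK P.lam P.y e.2.1 (runM P L l (ev e.2.2 E [])).2.1.2.2.toFinset E.toFinset /
          (1 + P.lam) else 0) := by
    rw [div_eq_mul_one_div, mul_comm, ← avg_smul, ← avg_smul]
    exact avg_congr fun l _ => trial_q hP L hEn hCE l
  rw [havg, ← hVal, ← mul_sub]
  refine ⟨mul_le_mul_of_nonneg_left ?_ hl1.le, mul_le_mul_of_nonneg_left hrv.2 hl1.le⟩
  refine le_trans ?_ hrv.1
  apply sub_le_sub_left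
  rw [le_div_iff₀ (by exact_mod_cast hL), mul_comm]
  exact hrt.trans hps

end Pool.Agent.TFN
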