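import Pool.Agent.TFN.PCon
import Pool.Agent.TFP.WId

set_option autoImplicit false

/-!
# TFN-ZEr: the ratio `Z(G) / Z(G - e)`

Plan. `G' = G.erase e`, `j K = (btw v K G').card`, `P = ∑_S q G' v S [u ∈ S]`.
* `Z_ratio`: `W_id` (TFP) with `R = 1`, `β = y - 1`, `μ = lam / β`, `1 + β = y`, exactly as in `Pool/Agent/TFP/ZEr.lean`
  (`Z_erase`): `Z G = Z G' * (1 + lam * ∑_K q G' u K * (if v ∈ K then 0 else y ^ j K))`.
* `1 = ∑_K q G' u K [v ∉ K] + ∑_K q G' u K [v ∈ K]` (`q_sum`, `u ∈ V`), the second sum is `P` (`con_symm`) `= lam ∑_K q G' u K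
  [v ∉ K] br y (j K)` (`con_id` with `R = 1`, inner sums are 1 by `q_sum`); with `br y (j+1) = br y j + y^j` (`br_succ`):
  `1 + lam ∑_K q [v ∉ K] y^j = ∑_K q G' u K [v ∉ K] (1 + lam * br y (j+1)) = rt`.
* `rt_le`: `pK ≤ 1 + lam`, `q_sum`. `rt_ge`: `pK ≥ [v ∉ K]`, `∑_K q G u K [v ∉ K] = 1 - ∑_K q G u K [v ∈ K] ≥ 1 - lam/(1+lam)`
  (`con_le` with `u`, `v` exchanged).
-/

namespace Pool.Agent.TFN

open Finset Pool.Agent.TFP

variable {lam y : ℚ}

private theorem ze_out (K : Finset ℕ) {G : Finset Ed} {V : Finset ℕ} (hV : ends G ⊆ V) :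
    ends (out K G) ⊆ V :=
  (ends_mono (Finset.filter_subset _ _)).trans hV

private theorem ze_mem {G : Finset Ed} {V : Finset ℕ} (hV : ends G ⊆ V) {e : Ed} (he : e ∈ G)
    (hG : NL G) {v u : ℕ} (hJ : Jn e v u) : v ∈ V ∧ u ∈ V ∧ v ≠ u := by
  have h1 := mem_ends_left he
  have h2 := mem_ends_right he
  have hne := hG e he
  rcases hJ with ⟨a, b⟩ | ⟨a, b⟩
  · rw [← a, ← b]
    exact ⟨hV h1, hV h2, hne⟩
  · rw [← a, ← b]
    exact ⟨hV h2, hV h1, hne.symm⟩

private theorem ze_split (lam y : ℚ) (G : Finset Ed) (V : Finset ℕ) (u v : ℕ) :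
    ∑ K ∈ V.powerset, q lam y G u K * (if v ∈ K then 0 else 1) +
      ∑ K ∈ V.powerset, q lam y G u K * (if v ∈ K then 1 else 0) =
      ∑ K ∈ V.powerset, q lam y G u K := by
  rw [← Finset.sum_add_distrib]
  refine Finset.sum_congr rfl fun K _ => ?_
  split_ifs <;> ring

theorem Z_ratio (hl : 0 < lam) (hy0 : -1 < y) (hy1 : y < 0) {G : Finset Ed} (hG : NL G)
    {V : Finset ℕ} (hV : ends G ⊆ V) {e : Ed} (he : e ∈ G) {v u : ℕ} (hJ : Jn e v u) :
    Z lam y G = Z lam y (G.erase e) *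
      (1 + lam * ∑ K ∈ V.powerset, q lam y (G.erase e) u K *
        (if v ∈ K then 0 else y ^ (btw v K (G.erase e)).card)) := by
  obtain ⟨hv, hu, hvu⟩ := ze_mem hV he hG hJ
  have hG' : NL (G.erase e) := hG.mono (Finset.erase_subset _ _)
  have hV' : ends (G.erase e) ⊆ V := (ends_mono (Finset.erase_subset _ _)).trans hV
  have hβ : y - 1 ≠ 0 := by
    intro h
    linarith
  have hZ' : Z lam y (G.erase e) ≠ 0 := (Z_pos hl hy0 hy1 hG').ne'
  have hsum : ∀ H : Finset Ed, ends H ⊆ V →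
      ∑ S ∈ V.powerset, ww (lam / (y - 1)) (y - 1) H v S * 1 = Z lam y H := by
    intro H hH
    unfold Z
    rw [← ZZ_sum (lam / (y - 1)) (y - 1) H v V (Finset.insert_subset hv hH)]
    exact Finset.sum_congr rfl fun S _ => mul_one _
  have key := W_id (lam / (y - 1)) (y - 1) he hvu hJ V (fun _ => 1)
  rw [hsum G hV, hsum (G.erase e) hV', div_mul_cancel₀ lam hβ] at key
  have hK : ∀ K ∈ V.powerset,
      (if v ∈ K then 0 else (1 + (y - 1)) ^ (btw v K (G.erase e)).card) *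
        (if u ∈ K then (lam / (y - 1)) ^ (K.card - 1) * cc (y - 1) K (G.erase e) else 0) *
        ∑ S ∈ V.powerset, ww (lam / (y - 1)) (y - 1) (out K (G.erase e)) v S * 1 =
      Z lam y (G.erase e) * (q lam y (G.erase e) u K *
        (if v ∈ K then 0 else y ^ (btw v K (G.erase e)).card)) := by
    intro K _
    rw [hsum (out K (G.erase e)) (ze_out K hV'), add_sub_cancel]
    have hq : Z lam y (G.erase e) * (q lam y (G.erase e) u K *
        (if v ∈ K then 0 else y ^ (btw v K (G.erase e)).card)) =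
        ww (lam / (y - 1)) (y - 1) (G.erase e) u K *
          (if v ∈ K then 0 else y ^ (btw v K (G.erase e)).card) := by
      unfold q
      rw [← mul_assoc, mul_div_cancel₀ _ hZ']
    rw [hq]
    unfold ww Z
    split_ifs <;> ring
  rw [Finset.sum_congr rfl hK, ← Finset.mul_sum] at key
  rw [key]
  ring

theorem Z_erase (hl : 0 < lam) (hy0 : -1 < y) (hy1 : y < 0) {G : Finset Ed} (hG : NL G)
    {V : Finset ℕ} (hV : ends G ⊆ V) {e : Ed} (he : e ∈ G) {v u : ℕ} (hJ : Jn e v u) :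
    Z lam y G = Z lam y (G.erase e) * rt lam y V (G.erase e) u v := by
  obtain ⟨hv, hu, hvu⟩ := ze_mem hV he hG hJ
  have hG' : NL (G.erase e) := hG.mono (Finset.erase_subset _ _)
  have hV' : ends (G.erase e) ⊆ V := (ends_mono (Finset.erase_subset _ _)).trans hV
  rw [Z_ratio hl hy0 hy1 hG hV he hJ]
  congr 1
  have h1 := q_sum hl hy0 hy1 hG' hV' hu
  rw [← ze_split lam y (G.erase e) V u v] at h1
  have h2 := con_id hl hy0 hy1 hG' V hvu (fun _ => 1)
  have h3 : ∑ S ∈ V.powerset, q lam y (G.erase e) v S * (if u ∈ S then 1 else 0) =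
      ∑ K ∈ V.powerset, q lam y (G.erase e) u K * (if v ∈ K then 1 else 0) :=
    Finset.sum_congr rfl fun S _ => con_symm lam y (G.erase e) v u S
  have h4 : ∀ K ∈ V.powerset, q lam y (G.erase e) u K *
      ((if v ∈ K then 0 else br y (btw v K (G.erase e)).card) *
        ∑ S ∈ V.powerset, q lam y (out K (G.erase e)) v S * 1) =
      q lam y (G.erase e) u K * (if v ∈ K then 0 else br y (btw v K (G.erase e)).card) := by
    intro K _
    have h5 : ∑ S ∈ V.powerset, q lam y (out K (G.erase e)) v S * 1 = 1 := by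
      have hn : NL (out K (G.erase e)) := hG'.mono (Finset.filter_subset _ _)
      exact (Finset.sum_congr rfl fun S _ => mul_one _).trans
        (q_sum hl hy0 hy1 hn (ze_out K hV') hv)
    rw [h5, mul_one]
  rw [h3, Finset.sum_congr rfl h4] at h2
  rw [← h1, h2, Finset.mul_sum, Finset.mul_sum, ← Finset.sum_add_distrib, ← Finset.sum_add_distrib]
  unfold rt
  refine Finset.sum_congr rfl fun K _ => ?_
  unfold pK
  split_ifs
  · ring
  · rw [br_succ]
    ring

theorem rt_le (hl : 0 < lam) (hy0 : -1 < y) (hy1 : y < 0) {G : Finset Ed} (hG : NL G)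
    {V : Finset ℕ} (hV : ends G ⊆ V) {u : ℕ} (hu : u ∈ V) (v : ℕ) :
    rt lam y V G u v ≤ 1 + lam := by
  unfold rt
  have h1 : ∑ K ∈ V.powerset, q lam y G u K * (1 + lam) = 1 + lam := by
    rw [← Finset.sum_mul, q_sum hl hy0 hy1 hG hV hu, one_mul]
  rw [← h1]
  exact Finset.sum_le_sum fun K _ =>
    mul_le_mul_of_nonneg_left (pK_mem hl hy0 hy1 v K G).2 (q_nonneg hl hy0 hy1 hG u K)

theorem rt_ge (hl : 0 < lam) (hy0 : -1 < y) (hy1 : y < 0) {G : Finset Ed} (hG : NL G)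
    {V : Finset ℕ} (hV : ends G ⊆ V) {u v : ℕ} (hu : u ∈ V) (hv : v ∈ V) (hvu : v ≠ u) :
    1 / (1 + lam) ≤ rt lam y V G u v := by
  have h1 := q_sum hl hy0 hy1 hG hV hu
  rw [← ze_split lam y G V u v] at h1
  have h2 := con_le hl hy0 hy1 hG hV hu hv hvu.symm
  have h3 : ∑ K ∈ V.powerset, q lam y G u K * (if v ∈ K then 0 else 1) ≤ rt lam y V G u v := by
    unfold rt
    refine Finset.sum_le_sum fun K _ => mul_le_mul_of_nonneg_left ?_ (q_nonneg hl hy0 hy1 hG u K)
    split_ifs with h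
    · exact (pK_mem hl hy0 hy1 v K G).1
    · exact pK_ge hl hy0 hy1 h G
  have h4 : 1 / (1 + lam) = 1 - lam / (1 + lam) := by
    have : (1 + lam) ≠ 0 := by linarith
    field_simp
    ring
  rw [h4]
  linarith

end Pool.Agent.TFN
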